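import Pool.Agent.PD4.IxB.Trans

/-!
# Project PD4, index block, variant B (note 2802), Step A: slices, partial mean, Fourier
coefficients in one circle variable (helper93)

Variables of `Sm (n+1)`: `0 = x` (circle variable), `i+1 = y_i`.
-/

open MeasureTheory
open scoped ContDiff

namespace Pool.Agent.PD4.IxB

/-! ### parameter integrals -/

universe u

/-- the partial derivative with respect to the parameter -/
noncomputable def pdPar {E W : Type*} [NormedAddCommGroup E] [NormedSpace ℝ E]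
    [NormedAddCommGroup W] [NormedSpace ℝ W] (F : E × ℝ → W) (p : E × ℝ) : E →L[ℝ] W :=
  (fderiv ℝ F p).comp (ContinuousLinearMap.inl ℝ E ℝ)

theorem pdPar_cd {E W : Type*} [NormedAddCommGroup E] [NormedSpace ℝ E] [NormedAddCommGroup W]
    [NormedSpace ℝ W] {F : E × ℝ → W} {n m : WithTop ℕ∞} (hF : ContDiff ℝ n F)
    (hmn : m + 1 ≤ n) : ContDiff ℝ m (pdPar F) :=
  (hF.fderiv_right hmn).clm_comp contDiff_const

theorem pdPar_has {E W : Type*} [NormedAddCommGroup E] [NormedSpace ℝ E] [NormedAddCommGroup W]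
    [NormedSpace ℝ W] {F : E × ℝ → W} (hF : Differentiable ℝ F) (x : E) (q : ℝ) :
    HasFDerivAt (fun x => F (x, q)) (pdPar F (x, q)) x := by
  have h1 : HasFDerivAt (fun x : E => (x, q)) (ContinuousLinearMap.inl ℝ E ℝ) x :=
    hasFDerivAt_prodMk_left x q
  exact (hF (x, q)).hasFDerivAt.comp x h1

theorem pdPar_hasFDerivAt {E W : Type*} [NormedAddCommGroup E] [NormedSpace ℝ E]
    [FiniteDimensional ℝ E] [NormedAddCommGroup W] [NormedSpace ℝ W] {F : E × ℝ → W}
    (hF : ContDiff ℝ 1 F) (a b : ℝ) (x : E) :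
    HasFDerivAt (fun x => ∫ t in a..b, F (x, t)) (∫ t in a..b, pdPar F (x, t)) x := by
  have hpd : Continuous (pdPar F) := (pdPar_cd hF (m := 0) (by simp)).continuous
  obtain ⟨C, hC⟩ := ((isCompact_closedBall x 1).prod
    (isCompact_uIcc (a := a) (b := b))).bddAbove_image hpd.norm.continuousOn
  refine intervalIntegral.hasFDerivAt_integral_of_dominated_of_fderiv_le (𝕜 := ℝ)
    (F := fun x q => F (x, q)) (F' := fun x q => pdPar F (x, q)) (x₀ := x) (bound := fun _ => C)
    (s := Metric.closedBall x 1) (Metric.closedBall_mem_nhds x one_pos) ?_ ?_ ?_ ?_ ?_ ?_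
  · refine Filter.Eventually.of_forall fun y => ?_
    exact (hF.continuous.comp (Continuous.prodMk_right y)).aestronglyMeasurable
  · exact (hF.continuous.comp (Continuous.prodMk_right x)).intervalIntegrable a b
  · exact (hpd.comp (Continuous.prodMk_right x)).aestronglyMeasurable
  · refine Filter.Eventually.of_forall fun t ht y hy => ?_
    exact hC (Set.mem_image_of_mem _ (Set.mk_mem_prod hy (Set.uIoc_subset_uIcc ht)))
  · exact intervalIntegrable_const
  · exact Filter.Eventually.of_forall fun q _ y _ => pdPar_has (hF.differentiable one_ne_zero) y q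

theorem contDiff_par_nat {E : Type u} [NormedAddCommGroup E] [NormedSpace ℝ E]
    [FiniteDimensional ℝ E] (n : ℕ) : ∀ {W : Type u} [NormedAddCommGroup W] [NormedSpace ℝ W]
      {F : E × ℝ → W}, ContDiff ℝ ∞ F → ∀ a b : ℝ,
      ContDiff ℝ n (fun x => ∫ t in a..b, F (x, t)) := by
  induction n with
  | zero =>
    intro W _ _ F hF a b
    have h1 := fun x => pdPar_hasFDerivAt (hF.of_le (by simp)) a b x
    exact contDiff_zero.2 (continuous_iff_continuousAt.mpr fun x => (h1 x).continuousAt)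
  | succ n ih =>
    intro W _ _ F hF a b
    have h1 := fun x => pdPar_hasFDerivAt (hF.of_le (by simp)) a b x
    have h2 := ih (pdPar_cd hF (m := ∞) (by simp)) a b
    have e : fderiv ℝ (fun x => ∫ t in a..b, F (x, t)) = fun x => ∫ t in a..b, pdPar F (x, t) :=
      funext fun x => (h1 x).fderiv
    rw [Nat.cast_add, Nat.cast_one, contDiff_succ_iff_fderiv]
    refine ⟨fun x => (h1 x).differentiableAt, by simp, ?_⟩
    rw [e]
    exact h2

/-- parameter integrals of smooth functions are smooth -/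
theorem contDiff_par {E : Type*} [NormedAddCommGroup E] [NormedSpace ℝ E]
    [FiniteDimensional ℝ E] {f : E × ℝ → ℂ} (hf : ContDiff ℝ ∞ f) (a b : ℝ) :
    ContDiff ℝ ∞ fun e : E => ∫ t in a..b, f (e, t) := by
  have h1 := fun x => pdPar_hasFDerivAt (hf.of_le (by simp)) a b x
  have e : fderiv ℝ (fun x => ∫ t in a..b, f (x, t)) = fun x => ∫ t in a..b, pdPar f (x, t) :=
    funext fun x => (h1 x).fderiv
  rw [contDiff_infty_iff_fderiv]
  refine ⟨fun x => (h1 x).differentiableAt, ?_⟩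
  rw [e, contDiff_infty]
  intro n
  exact contDiff_par_nat n (pdPar_cd hf (m := ∞) (by simp)) a b

/-! ### slices and functions of `y` only -/

theorem cons1_add_zero {n : ℕ} (x : ℝ) (z : Fin n → ℝ) (t : ℝ) :
    (Fin.cons (x + t) z : Fin (n + 1) → ℝ) =
      (Fin.cons x z : Fin (n + 1) → ℝ) + Pi.single 0 t := by
  funext j
  refine Fin.cases ?_ (fun j => ?_) j
  · simp
  · simp

theorem tail_add_zero {n : ℕ} (x : Fin (n + 1) → ℝ) (t : ℝ) :
    (Fin.tail (x + Pi.single 0 t) : Fin n → ℝ) = Fin.tail x := by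
  funext j
  simp [Fin.tail]

theorem tail_add_succ {n : ℕ} (x : Fin (n + 1) → ℝ) (i : Fin n) (t : ℝ) :
    (Fin.tail (x + Pi.single i.succ t) : Fin n → ℝ) = Fin.tail x + Pi.single i t := by
  funext j
  simp only [Fin.tail, Pi.add_apply]
  by_cases h : j = i
  · subst h; simp
  · rw [Pi.single_eq_of_ne h, Pi.single_eq_of_ne]
    intro h'
    exact h (Fin.succ_injective _ h')

/-- functions of `y` only -/
noncomputable def injY {n : ℕ} : Sm n →⋆ₐ[ℂ] Sm (n + 1) where
  toFun f := ⟨fun p => f.1 (Fin.tail p : Fin n → ℝ),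
    ⟨f.2.1.comp (contDiff_pi.mpr fun i => contDiff_apply ℝ ℝ i.succ), fun z i => by
      refine Fin.cases ?_ (fun i => ?_) i
      · show f.1 (Fin.tail (z + Pi.single 0 1)) = _
        rw [tail_add_zero]
      · show f.1 (Fin.tail (z + Pi.single i.succ 1)) = _
        rw [tail_add_succ, f.2.2]⟩⟩
  map_one' := rfl
  map_mul' _ _ := rfl
  map_zero' := rfl
  map_add' _ _ := rfl
  commutes' _ := rfl
  map_star' _ := rfl

@[simp] lemma sl_injY {n : ℕ} (x : ℝ) (f : Sm n) : sl x (injY f) = f := rfl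

lemma sl_apply {n : ℕ} (x : ℝ) (f : Sm (n + 1)) (y : Fin n → ℝ) :
    (sl x f).1 y = f.1 (Fin.cons x y : Fin (n + 1) → ℝ) := rfl

lemma injY_apply {n : ℕ} (f : Sm n) (p : Fin (n + 1) → ℝ) :
    (injY f).1 p = f.1 (Fin.tail p : Fin n → ℝ) := rfl

/-- the function `e(m x)`, `m : ℤ`, of the circle variable -/
noncomputable def zm {n : ℕ} (m : ℤ) : Sm (n + 1) :=
  ⟨fun p => Complex.exp (2 * Real.pi * Complex.I * (m * (p 0 : ℂ))),
    ⟨ContDiff.cexp (contDiff_const.mul (contDiff_const.mul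
      (Complex.ofRealCLM.contDiff.comp (contDiff_apply ℝ ℝ (0 : Fin (n + 1)))))), fun z i => by
      refine Fin.cases ?_ (fun i => ?_) i
      · simp only [Pi.add_apply, Pi.single_eq_same]
        rw [Complex.ofReal_add, Complex.ofReal_one, mul_add, mul_add, Complex.exp_add, mul_one]
        have h : Complex.exp (2 * Real.pi * Complex.I * (m : ℂ)) = 1 := by
          rw [Complex.exp_eq_one_iff]
          exact ⟨m, by ring⟩
        rw [h, mul_one]
      · simp only [Pi.add_apply]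
        rw [Pi.single_eq_of_ne (Fin.succ_ne_zero i).symm, add_zero]⟩⟩

lemma zm_apply {n : ℕ} (m : ℤ) (p : Fin (n + 1) → ℝ) :
    (zm m : Sm (n + 1)).1 p = Complex.exp (2 * Real.pi * Complex.I * (m * (p 0 : ℂ))) := rfl

lemma zm_zero {n : ℕ} : (zm 0 : Sm (n + 1)) = 1 := by
  apply Subtype.ext
  funext p
  rw [zm_apply]
  simp

lemma zm_add {n : ℕ} (m k : ℤ) : (zm (m + k) : Sm (n + 1)) = zm m * zm k := by
  apply Subtype.ext
  funext p
  show (zm (m + k) : Sm (n + 1)).1 p = (zm m : Sm (n + 1)).1 p * (zm k : Sm (n + 1)).1 p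
  rw [zm_apply, zm_apply, zm_apply, ← Complex.exp_add]
  congr 1
  push_cast
  ring

lemma zm_norm {n : ℕ} (m : ℤ) (p : Fin (n + 1) → ℝ) : ‖(zm m : Sm (n + 1)).1 p‖ = 1 := by
  rw [zm_apply]
  have : (2 * Real.pi * Complex.I * (m * (p 0 : ℂ)) : ℂ) =
      ((2 * Real.pi * (m * p 0) : ℝ) : ℂ) * Complex.I := by
    push_cast
    ring
  rw [this, Complex.norm_exp_ofReal_mul_I]

/-! ### the partial mean -/

/-- mean over the circle variable -/
noncomputable def pmean {n : ℕ} : Sm (n + 1) →ₗ[ℂ] Sm n where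
  toFun f := ⟨fun y => ∫ x in (0 : ℝ)..1, f.1 (Fin.cons x y : Fin (n + 1) → ℝ),
    ⟨contDiff_par (f := fun p : (Fin n → ℝ) × ℝ => f.1 (Fin.cons p.2 p.1 : Fin (n + 1) → ℝ))
      (f.2.1.comp (contDiff_cons1 contDiff_snd contDiff_fst)) 0 1, fun z i => by
      refine intervalIntegral.integral_congr fun x _ => ?_
      have h := f.2.2 (Fin.cons x z : Fin (n + 1) → ℝ) i.succ
      rw [← cons1_add_single] at h
      exact h⟩⟩
  map_add' f g := by
    apply Subtype.ext
    funext y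
    have hf : Continuous fun x : ℝ => f.1 (Fin.cons x y : Fin (n + 1) → ℝ) :=
      (f.2.1.comp (contDiff_cons1 contDiff_id contDiff_const)).continuous
    have hg : Continuous fun x : ℝ => g.1 (Fin.cons x y : Fin (n + 1) → ℝ) :=
      (g.2.1.comp (contDiff_cons1 contDiff_id contDiff_const)).continuous
    exact intervalIntegral.integral_add (hf.intervalIntegrable 0 1) (hg.intervalIntegrable 0 1)
  map_smul' c f := by
    apply Subtype.ext
    funext y
    exact intervalIntegral.integral_const_mul c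
      (fun x => f.1 (Fin.cons x y : Fin (n + 1) → ℝ))

lemma pmean_apply {n : ℕ} (f : Sm (n + 1)) (y : Fin n → ℝ) :
    (pmean f).1 y = ∫ x in (0 : ℝ)..1, f.1 (Fin.cons x y : Fin (n + 1) → ℝ) := rfl

lemma cons_continuous {n : ℕ} (f : Sm (n + 1)) (y : Fin n → ℝ) :
    Continuous fun x : ℝ => f.1 (Fin.cons x y : Fin (n + 1) → ℝ) :=
  (f.2.1.comp (contDiff_cons1 contDiff_id contDiff_const)).continuous

lemma pmean_injY_mul {n : ℕ} (a : Sm n) (f : Sm (n + 1)) : pmean (injY a * f) = a * pmean f := by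
  apply Subtype.ext
  funext y
  show ∫ x in (0 : ℝ)..1, a.1 (Fin.tail (Fin.cons x y : Fin (n + 1) → ℝ)) *
    f.1 (Fin.cons x y : Fin (n + 1) → ℝ) = a.1 y * ∫ x in (0 : ℝ)..1, f.1 (Fin.cons x y)
  rw [← intervalIntegral.integral_const_mul]
  refine intervalIntegral.integral_congr fun x _ => ?_
  simp only [Fin.tail_cons]

/-- the derivative of the circle variable has mean `0` -/
lemma pmean_pD {n : ℕ} (f : Sm (n + 1)) : pmean (pD 0 f) = 0 := by
  apply Subtype.ext
  funext y
  show ∫ x in (0 : ℝ)..1, fderiv ℝ f.1 (Fin.cons x y : Fin (n + 1) → ℝ) (Pi.single 0 1) = 0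
  have hd : ∀ x : ℝ, HasDerivAt (fun x : ℝ => f.1 (Fin.cons x y : Fin (n + 1) → ℝ))
      (fderiv ℝ f.1 (Fin.cons x y : Fin (n + 1) → ℝ) (Pi.single 0 1)) x := by
    intro x
    have h1 : HasFDerivAt f.1 (fderiv ℝ f.1 (Fin.cons x y : Fin (n + 1) → ℝ))
        (Fin.cons x y : Fin (n + 1) → ℝ) :=
      (f.2.1.differentiable (by simp) _).hasFDerivAt
    have h2 : HasDerivAt (fun x : ℝ => (Fin.cons x y : Fin (n + 1) → ℝ)) (Pi.single 0 1) x := by
      rw [hasDerivAt_pi]
      intro i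
      refine Fin.cases ?_ (fun i => ?_) i
      · simp only [Fin.cons_zero, Pi.single_eq_same]
        exact hasDerivAt_id' x
      · simp only [Fin.cons_succ, ne_eq, Fin.succ_ne_zero, not_false_eq_true,
          Pi.single_eq_of_ne]
        exact hasDerivAt_const x (y i)
    exact h1.comp_hasDerivAt x h2
  have hc : Continuous fun x : ℝ =>
      fderiv ℝ f.1 (Fin.cons x y : Fin (n + 1) → ℝ) (Pi.single 0 1) :=
    cons_continuous (pD 0 f) y
  rw [intervalIntegral.integral_eq_sub_of_hasDerivAt (fun x _ => hd x)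
    (hc.intervalIntegrable 0 1)]
  have h := f.2.2 (Fin.cons 0 y : Fin (n + 1) → ℝ) 0
  rw [← cons1_add_zero, zero_add] at h
  rw [h, sub_self]

lemma pmean_norm_le {n : ℕ} (f : Sm (n + 1)) {K : ℝ} (hK : ∀ p, ‖f.1 p‖ ≤ K) (y : Fin n → ℝ) :
    ‖(pmean f).1 y‖ ≤ K := by
  rw [pmean_apply]
  have := intervalIntegral.norm_integral_le_of_norm_le_const (a := (0 : ℝ)) (b := 1) (C := K)
    (f := fun x : ℝ => f.1 (Fin.cons x y : Fin (n + 1) → ℝ)) (fun x _ => hK _)
  simpa using this

/-! ### Fourier coefficients in the circle variable -/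

/-- the `m`-th Fourier coefficient in the circle variable -/
noncomputable def fc {n : ℕ} (m : ℤ) (f : Sm (n + 1)) : Sm n := pmean (zm (-m) * f)

lemma fc_add {n : ℕ} (m : ℤ) (f g : Sm (n + 1)) : fc m (f + g) = fc m f + fc m g := by
  rw [fc, mul_add, map_add]; rfl

lemma fc_sum {n : ℕ} {α : Type*} (s : Finset α) (m : ℤ) (f : α → Sm (n + 1)) :
    fc m (∑ i ∈ s, f i) = ∑ i ∈ s, fc m (f i) := by
  rw [fc, Finset.mul_sum, map_sum]; rfl

lemma fc_injY_mul {n : ℕ} (m : ℤ) (a : Sm n) (f : Sm (n + 1)) :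
    fc m (injY a * f) = a * fc m f := by
  rw [fc, mul_left_comm, pmean_injY_mul]; rfl

lemma fc_zm_mul {n : ℕ} (m k : ℤ) (f : Sm (n + 1)) : fc m (zm k * f) = fc (m - k) f := by
  rw [fc, ← mul_assoc, ← zm_add, fc]
  congr 3
  ring

lemma fc_pD {n : ℕ} (m : ℤ) (f : Sm (n + 1)) :
    fc m (pD 0 f) = (2 * Real.pi * Complex.I * m : ℂ) • fc m f := by
  have h1 : pD 0 (zm (-m) * f) =
      (-(2 * Real.pi * Complex.I * m) : ℂ) • (zm (-m) * f) + zm (-m) * pD 0 f := by
    rw [pD_leib]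
    congr 1
    apply Subtype.ext
    funext p
    show fderiv ℝ (zm (-m) : Sm (n + 1)).1 p (Pi.single 0 1) * f.1 p =
      (-(2 * Real.pi * Complex.I * m) : ℂ) * ((zm (-m) : Sm (n + 1)).1 p * f.1 p)
    have h2 : HasFDerivAt (fun p : Fin (n + 1) → ℝ =>
        (2 * Real.pi * Complex.I * (((-m : ℤ) : ℂ) * (p 0 : ℂ)) : ℂ))
        ((2 * Real.pi * Complex.I * ((-m : ℤ) : ℂ) : ℂ) •
          (Complex.ofRealCLM.comp (ContinuousLinearMap.proj (R := ℝ)
            (φ := fun _ : Fin (n + 1) => ℝ) 0))) p := by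
      have h3 : HasFDerivAt (fun p : Fin (n + 1) → ℝ => (p 0 : ℂ))
          (Complex.ofRealCLM.comp (ContinuousLinearMap.proj (R := ℝ)
            (φ := fun _ : Fin (n + 1) => ℝ) 0)) p :=
        (Complex.ofRealCLM.comp (ContinuousLinearMap.proj (R := ℝ)
            (φ := fun _ : Fin (n + 1) => ℝ) 0)).hasFDerivAt
      have h4 := h3.const_mul (2 * Real.pi * Complex.I * ((-m : ℤ) : ℂ) : ℂ)
      refine h4.congr_of_eventuallyEq (Filter.Eventually.of_forall fun q => ?_)
      show _ = (2 * Real.pi * Complex.I * ((-m : ℤ) : ℂ) : ℂ) * (q 0 : ℂ)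
      ring
    have h5 := h2.cexp
    have h6 : fderiv ℝ (zm (-m) : Sm (n + 1)).1 p = _ := h5.fderiv
    rw [h6]
    simp only [ContinuousLinearMap.smul_apply, ContinuousLinearMap.comp_apply,
      ContinuousLinearMap.proj_apply, Pi.single_eq_same, Complex.ofRealCLM_apply,
      Complex.ofReal_one, smul_eq_mul, zm_apply]
    push_cast
    ring
  have h2 := pmean_pD (zm (-m) * f)
  rw [h1, map_add, map_smul] at h2
  have h3 : fc m (pD 0 f) = - ((-(2 * Real.pi * Complex.I * m) : ℂ) • fc m f) :=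
    eq_neg_of_add_eq_zero_right h2
  rw [h3, neg_smul, neg_neg]

lemma fc_one {n : ℕ} (m : ℤ) : fc m (1 : Sm (n + 1)) = if m = 0 then 1 else 0 := by
  by_cases hm : m = 0
  · subst hm
    rw [if_pos rfl, fc, neg_zero, zm_zero, mul_one]
    apply Subtype.ext
    funext y
    rw [pmean_apply]
    show ∫ x in (0 : ℝ)..1, (1 : ℂ) = 1
    simp
  · rw [if_neg hm]
    have h := fc_pD m (1 : Sm (n + 1))
    have h1 : pD 0 (1 : Sm (n + 1)) = 0 := by
      have := pD_leib (0 : Fin (n + 1)) (1 : Sm (n + 1)) 1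
      rw [mul_one, mul_one, one_mul] at this
      have h2 : pD 0 (1 : Sm (n + 1)) + 0 = pD 0 (1 : Sm (n + 1)) + pD 0 (1 : Sm (n + 1)) := by
        rw [add_zero]; exact this
      exact (add_left_cancel h2).symm
    rw [h1] at h
    have h2 : fc m (0 : Sm (n + 1)) = 0 := by rw [fc, mul_zero, map_zero]
    rw [h2] at h
    have h3 : (2 * Real.pi * Complex.I * m : ℂ) ≠ 0 := by
      refine mul_ne_zero (mul_ne_zero (mul_ne_zero two_ne_zero ?_) Complex.I_ne_zero) ?_
      · exact_mod_cast Real.pi_ne_zero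
      · exact_mod_cast hm
    exact (smul_eq_zero.mp h.symm).resolve_left h3

/-- decay of the Fourier coefficients -/
lemma fc_decay {n : ℕ} (f : Sm (n + 1)) :
    ∃ K : ℝ, 0 ≤ K ∧ ∀ (m : ℤ) (y : Fin n → ℝ), |(m : ℝ)| * ‖(fc m f).1 y‖ ≤ K := by
  obtain ⟨K, hK0, hK⟩ := Sm_bdd (pD 0 f)
  refine ⟨K, hK0, fun m y => ?_⟩
  have h1 : ‖(fc m (pD 0 f)).1 y‖ ≤ K := by
    refine pmean_norm_le _ (fun p => ?_) y
    show ‖(zm (-m) : Sm (n + 1)).1 p * (pD 0 f).1 p‖ ≤ K
    rw [norm_mul, zm_norm, one_mul]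
    exact hK p
  have h2 : (fc m (pD 0 f)).1 y = (2 * Real.pi * Complex.I * m : ℂ) * (fc m f).1 y := by
    rw [fc_pD]; rfl
  rw [h2, norm_mul] at h1
  have h3 : ‖(2 * Real.pi * Complex.I * m : ℂ)‖ = 2 * Real.pi * |(m : ℝ)| := by
    rw [norm_mul, norm_mul, norm_mul, Complex.norm_I, mul_one, Complex.norm_real,
      Real.norm_of_nonneg Real.pi_pos.le, Complex.norm_intCast]
    norm_num
  rw [h3] at h1
  have h4 : (1 : ℝ) ≤ 2 * Real.pi := by linarith [Real.pi_gt_three]
  have h5 : 0 ≤ |(m : ℝ)| * ‖(fc m f).1 y‖ := by positivity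
  nlinarith

/-- the Fourier coefficients tend to zero -/
lemma fc_tendsto {n : ℕ} (f : Sm (n + 1)) (y : Fin n → ℝ) :
    Filter.Tendsto (fun m : ℕ => (fc (m : ℤ) f).1 y) Filter.atTop (nhds 0) ∧
      Filter.Tendsto (fun m : ℕ => (fc (-(m : ℤ)) f).1 y) Filter.atTop (nhds 0) := by
  obtain ⟨K, hK0, hK⟩ := fc_decay f
  have hlim : Filter.Tendsto (fun m : ℕ => K * (1 / (m : ℝ))) Filter.atTop (nhds 0) := by
    simpa using tendsto_one_div_atTop_nhds_zero_nat.const_mul K
  constructor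
  · refine squeeze_zero_norm' ?_ hlim
    filter_upwards [Filter.eventually_gt_atTop 0] with m hm
    have h := hK (m : ℤ) y
    have hm' : (0 : ℝ) < m := by exact_mod_cast hm
    rw [Int.cast_natCast, abs_of_pos hm'] at h
    rw [mul_one_div, le_div_iff₀ hm', mul_comm]
    exact h
  · refine squeeze_zero_norm' ?_ hlim
    filter_upwards [Filter.eventually_gt_atTop 0] with m hm
    have h := hK (-(m : ℤ)) y
    have hm' : (0 : ℝ) < m := by exact_mod_cast hm
    rw [Int.cast_neg, Int.cast_natCast, abs_neg, abs_of_pos hm'] at h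
    rw [mul_one_div, le_div_iff₀ hm', mul_comm]
    exact h

/-! ### matrices -/

section Mat

variable {ι κ μ : Type*} [Fintype ι] {n : ℕ}

lemma map_fc_injY_mul (m : ℤ) (A : Matrix κ ι (Sm n)) (M : Matrix ι μ (Sm (n + 1))) :
    ((A.map injY) * M).map (fc m) = A * M.map (fc m) := by
  ext1 i j
  simp only [Matrix.map_apply, Matrix.mul_apply]
  rw [fc_sum]
  exact Finset.sum_congr rfl fun k _ => fc_injY_mul m _ _

lemma map_fc_mul_injY (m : ℤ) (A : Matrix ι μ (Sm n)) (M : Matrix κ ι (Sm (n + 1))) :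
    (M * (A.map injY)).map (fc m) = M.map (fc m) * A := by
  ext1 i j
  simp only [Matrix.map_apply, Matrix.mul_apply]
  rw [fc_sum]
  exact Finset.sum_congr rfl fun k _ => by rw [mul_comm, fc_injY_mul, mul_comm]

lemma map_fc_add (m : ℤ) (A M : Matrix κ μ (Sm (n + 1))) :
    (A + M).map (fc m) = A.map (fc m) + M.map (fc m) := by
  ext1 i j
  simp only [Matrix.map_apply, Matrix.add_apply]
  exact fc_add m _ _

lemma map_fc_zm_smul (m k : ℤ) (M : Matrix κ μ (Sm (n + 1))) :
    ((zm k : Sm (n + 1)) • M).map (fc m) = M.map (fc (m - k)) := by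
  ext1 i j
  simp only [Matrix.map_apply, Matrix.smul_apply, smul_eq_mul]
  exact fc_zm_mul m k _

lemma map_fc_one [DecidableEq ι] (m : ℤ) : (1 : Matrix ι ι (Sm (n + 1))).map (fc m) =
    if m = 0 then 1 else 0 := by
  ext1 i j
  simp only [Matrix.map_apply]
  by_cases hm : m = 0
  · rw [if_pos hm]
    by_cases hij : i = j
    · subst hij
      rw [Matrix.one_apply_eq, Matrix.one_apply_eq, fc_one, if_pos hm]
    · rw [Matrix.one_apply_ne hij, Matrix.one_apply_ne hij, fc, mul_zero, map_zero]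
  · rw [if_neg hm]
    by_cases hij : i = j
    · subst hij
      rw [Matrix.one_apply_eq, fc_one, if_neg hm]
      rfl
    · rw [Matrix.one_apply_ne hij, fc, mul_zero, map_zero]
      rfl

end Mat

end Pool.Agent.PD4.IxB
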