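import Pool.Agent.PD4.IxB.ALin

/-!
# Project PD4, index block, variant B, Step A: density of trigonometric polynomials,
reduction of a loop to an idempotent (helper93)
-/

open MeasureTheory Filter Topology Polynomial
open scoped ContDiff Matrix

namespace Pool.Agent.PD4.IxB

/-! ### smooth periodic functions as functions on the torus -/

/-- the covering map of the torus -/
noncomputable def cov (N : ℕ) : (Fin N → ℝ) → UnitAddTorus (Fin N) :=
  Pi.map fun _ => ((↑) : ℝ → UnitAddCircle)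

lemma cov_quot (N : ℕ) : IsOpenQuotientMap (cov N) :=
  IsOpenQuotientMap.piMap fun _ => QuotientAddGroup.isOpenQuotientMap_mk

/-- a smooth periodic function as a function on the torus -/
noncomputable def torF {N : ℕ} (f : Sm N) (θ : UnitAddTorus (Fin N)) : ℂ :=
  f.1 (fun i => ((AddCircle.equivIco 1 0 (θ i) : Set.Ico (0 : ℝ) (0 + 1)) : ℝ))

lemma torF_cov {N : ℕ} (f : Sm N) (x : Fin N → ℝ) : torF f (cov N x) = f.1 x := by
  unfold torF
  have h := Sm.per f (fun i => -⌊x i⌋) x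
  rw [← h]
  refine congrArg f.1 (funext fun i => ?_)
  have h1 : ((AddCircle.equivIco 1 0 (cov N x i) : Set.Ico (0 : ℝ) (0 + 1)) : ℝ) =
      Int.fract (x i / 1) * 1 := AddCircle.coe_equivIco_mk_apply (p := (1 : ℝ)) (x i)
  rw [h1, div_one, mul_one, Int.fract]
  simp only [Pi.add_apply]
  push_cast
  ring

lemma torF_continuous {N : ℕ} (f : Sm N) : Continuous (torF f) := by
  rw [← (cov_quot N).continuous_comp_iff]
  have h : torF f ∘ cov N = f.1 := funext fun x => torF_cov f x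
  rw [h]
  exact Sm.cont_coe f

/-! ### Laurent polynomials in the circle variable -/

variable {n : ℕ}

/-- evaluation of polynomials with coefficients in `Sm n` at `z` -/
noncomputable def phiP : (Sm n)[X] →+* Sm (n + 1) :=
  Polynomial.eval₂RingHom ((injY : Sm n →⋆ₐ[ℂ] Sm (n + 1)) : Sm n →+* Sm (n + 1)) (zm 1)

lemma zm_pow (k : ℕ) : (zm 1 : Sm (n + 1)) ^ k = zm (k : ℤ) := by
  induction k with
  | zero => rw [pow_zero, Nat.cast_zero, zm_zero]
  | succ k ih => rw [pow_succ, ih, ← zm_add]; push_cast; rfl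

lemma phiP_X_pow (k : ℕ) : phiP (X ^ k : (Sm n)[X]) = zm (k : ℤ) := by
  rw [map_pow, ← zm_pow]
  congr 1
  exact Polynomial.eval₂_X _ _

lemma phiP_C (a : Sm n) : phiP (C a) = injY a := Polynomial.eval₂_C _ _

/-- Laurent polynomials in the circle variable, with coefficients functions of `y` -/
def IsLaur (f : Sm (n + 1)) : Prop := ∃ (m : ℕ) (P : (Sm n)[X]), zm (m : ℤ) * f = phiP P

lemma IsLaur.mono {f : Sm (n + 1)} {m : ℕ} {P : (Sm n)[X]} (h : zm (m : ℤ) * f = phiP P)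
    (k : ℕ) : zm ((m + k : ℕ) : ℤ) * f = phiP (X ^ k * P) := by
  rw [map_mul, phiP_X_pow, ← h, ← mul_assoc, ← zm_add]
  congr 2
  push_cast
  ring

lemma IsLaur.zero : IsLaur (0 : Sm (n + 1)) := ⟨0, 0, by rw [mul_zero, map_zero]⟩

lemma IsLaur.add {f g : Sm (n + 1)} (hf : IsLaur f) (hg : IsLaur g) : IsLaur (f + g) := by
  obtain ⟨m, P, h⟩ := hf
  obtain ⟨k, Q, h'⟩ := hg
  refine ⟨m + k, X ^ k * P + X ^ m * Q, ?_⟩
  have h2 := IsLaur.mono h' m
  rw [add_comm k m] at h2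
  rw [mul_add, map_add, IsLaur.mono h k, h2]

lemma IsLaur.smul {f : Sm (n + 1)} (c : ℂ) (hf : IsLaur f) : IsLaur (c • f) := by
  obtain ⟨m, P, h⟩ := hf
  refine ⟨m, C (algebraMap ℂ (Sm n) c) * P, ?_⟩
  rw [map_mul, phiP_C, ← h, mul_smul_comm, Algebra.smul_def]
  rfl

lemma IsLaur.monomial (k : ℤ) (a : Sm n) : IsLaur (zm k * injY a) := by
  refine ⟨k.natAbs, C a * X ^ (k + k.natAbs).toNat, ?_⟩
  rw [map_mul, phiP_C, phiP_X_pow, ← mul_assoc, ← zm_add, mul_comm (injY a)]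
  congr 2
  have : 0 ≤ k + (k.natAbs : ℤ) := by omega
  rw [Int.toNat_of_nonneg this]
  ring

/-- **density** -/
theorem laur_dense (f : Sm (n + 1)) {ε : ℝ} (hε : 0 < ε) :
    ∃ g : Sm (n + 1), IsLaur g ∧ ∀ p, ‖f.1 p - g.1 p‖ ≤ ε := by
  let F : C(UnitAddTorus (Fin (n + 1)), ℂ) := ⟨torF f, torF_continuous f⟩
  have hF : F ∈ (Submodule.span ℂ (Set.range <| UnitAddTorus.mFourier
      (d := Fin (n + 1)))).topologicalClosure := by
    rw [UnitAddTorus.span_mFourier_closure_eq_top]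
    exact Submodule.mem_top
  have hF' : F ∈ closure ((Submodule.span ℂ (Set.range <| UnitAddTorus.mFourier
      (d := Fin (n + 1))) : Submodule ℂ C(UnitAddTorus (Fin (n + 1)), ℂ)) :
        Set C(UnitAddTorus (Fin (n + 1)), ℂ)) := hF
  obtain ⟨G, hG, hd⟩ := Metric.mem_closure_iff.mp hF' ε hε
  have key : ∀ G ∈ Submodule.span ℂ (Set.range <| UnitAddTorus.mFourier (d := Fin (n + 1))),
      ∃ g : Sm (n + 1), IsLaur g ∧ ∀ p, G (cov (n + 1) p) = g.1 p := by
    intro G hG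
    induction hG using Submodule.span_induction with
    | mem G hG =>
      obtain ⟨k, rfl⟩ := hG
      refine ⟨zm (k 0) * injY (Sm.ex fun i => k i.succ), IsLaur.monomial _ _, fun p => ?_⟩
      have e1 : UnitAddTorus.mFourier k (cov (n + 1) p) =
          ∏ i : Fin (n + 1), fourier (k i) ((p i : ℝ) : UnitAddCircle) := rfl
      rw [e1, Fin.prod_univ_succ]
      have e2 : ∀ i : Fin (n + 1), fourier (k i) ((p i : ℝ) : UnitAddCircle) =
          Complex.exp (2 * Real.pi * Complex.I * (k i * (p i : ℂ))) := by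
        intro i
        rw [fourier_coe_apply]
        congr 1
        push_cast
        ring
      rw [e2]
      simp only [e2]
      rw [← Complex.exp_sum]
      show _ = (zm (k 0) : Sm (n + 1)).1 p * (Sm.ex fun i => k i.succ : Sm n).1 (Fin.tail p)
      rw [zm_apply]
      congr 1
      show _ = Complex.exp (2 * Real.pi * Complex.I *
        ∑ i : Fin n, ((k i.succ : ℤ) : ℂ) * ((Fin.tail p i : ℝ) : ℂ))
      rw [Finset.mul_sum]
      rfl
    | zero => exact ⟨0, IsLaur.zero, fun p => rfl⟩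
    | add G G' _ _ h h' =>
      obtain ⟨g, hg, hg'⟩ := h
      obtain ⟨k, hk, hk'⟩ := h'
      refine ⟨g + k, hg.add hk, fun p => ?_⟩
      show G _ + G' _ = g.1 p + k.1 p
      rw [hg', hk']
    | smul c G _ h =>
      obtain ⟨g, hg, hg'⟩ := h
      refine ⟨c • g, hg.smul c, fun p => ?_⟩
      show c * G _ = c * g.1 p
      rw [hg']
  obtain ⟨g, hg, hg'⟩ := key G hG
  refine ⟨g, hg, fun p => ?_⟩
  rw [← hg' p, ← torF_cov f p, ← dist_eq_norm]
  exact ((ContinuousMap.dist_apply_le_dist (f := F) (g := G) (cov (n + 1) p)).trans hd.le)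

/-! ### matrices -/

section Mat

variable {ι : Type*} [Fintype ι] [DecidableEq ι]

omit [DecidableEq ι] in
/-- a matrix of Laurent polynomials becomes polynomial after multiplication by a power of `z` -/
lemma laur_mat (G : Matrix ι ι (Sm (n + 1))) (h : ∀ i j, IsLaur (G i j)) :
    ∃ (m d : ℕ) (a : ℕ → Matrix ι ι (Sm n)), (zm (m : ℤ) : Sm (n + 1)) • G = polM (d + 2) a := by
  choose m P hP using h
  let M : ℕ := ∑ q : ι × ι, m q.1 q.2
  have hM : ∀ i j, m i j ≤ M := fun i j =>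
    Finset.single_le_sum (f := fun q : ι × ι => m q.1 q.2) (fun _ _ => Nat.zero_le _)
      (Finset.mem_univ (i, j))
  have hQ : ∀ i j, ∃ Q : (Sm n)[X], zm (M : ℤ) * G i j = phiP Q := by
    intro i j
    obtain ⟨k, hk⟩ := Nat.exists_eq_add_of_le (hM i j)
    refine ⟨X ^ k * P i j, ?_⟩
    rw [hk]
    exact IsLaur.mono (hP i j) k
  choose Q hQ using hQ
  let D : ℕ := ∑ q : ι × ι, (Q q.1 q.2).natDegree
  have hD : ∀ i j, (Q i j).natDegree < D + 2 := fun i j =>
    lt_of_le_of_lt (Finset.single_le_sum (f := fun q : ι × ι => (Q q.1 q.2).natDegree)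
      (fun _ _ => Nat.zero_le _) (Finset.mem_univ (i, j))) (by omega)
  refine ⟨M, D, fun k => Matrix.of fun i j => (Q i j).coeff k, ?_⟩
  ext1 i j
  unfold polM
  rw [Matrix.sum_apply]
  show zm (M : ℤ) * G i j = ∑ k ∈ Finset.range (D + 2), zm (k : ℤ) * injY ((Q i j).coeff k)
  rw [hQ i j]
  have h1 : phiP (Q i j) = ∑ k ∈ Finset.range (D + 2),
      ((injY : Sm n →⋆ₐ[ℂ] Sm (n + 1)) : Sm n →+* Sm (n + 1)) ((Q i j).coeff k) *
        (zm 1 : Sm (n + 1)) ^ k := Polynomial.eval₂_eq_sum_range' _ (hD i j) _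
  rw [h1]
  refine Finset.sum_congr rfl fun k _ => ?_
  rw [zm_pow, mul_comm]
  rfl

/-- the scalar unit `z^m` -/
noncomputable def zmU (ι : Type*) [Fintype ι] [DecidableEq ι] (m : ℤ) :
    (Matrix ι ι (Sm (n + 1)))ˣ where
  val := (zm m : Sm (n + 1)) • 1
  inv := (zm (-m) : Sm (n + 1)) • 1
  val_inv := by
    rw [Matrix.smul_mul, one_mul, smul_smul, ← zm_add, add_neg_cancel, zm_zero, one_smul]
  inv_val := by
    rw [Matrix.smul_mul, one_mul, smul_smul, ← zm_add, neg_add_cancel, zm_zero, one_smul]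

/-- the powers of `z` do not depend on `y` -/
lemma pD_zm (i : Fin n) (m : ℤ) : pD i.succ (zm m : Sm (n + 1)) = 0 := by
  apply Subtype.ext
  funext p
  show fderiv ℝ (zm m : Sm (n + 1)).1 p (Pi.single i.succ 1) = 0
  have h3 : HasFDerivAt (fun p : Fin (n + 1) → ℝ => (p 0 : ℂ))
      (Complex.ofRealCLM.comp (ContinuousLinearMap.proj (R := ℝ)
        (φ := fun _ : Fin (n + 1) => ℝ) 0)) p :=
    (Complex.ofRealCLM.comp (ContinuousLinearMap.proj (R := ℝ)
        (φ := fun _ : Fin (n + 1) => ℝ) 0)).hasFDerivAt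
  have h4 := (h3.const_mul (m : ℂ)).const_mul (2 * Real.pi * Complex.I : ℂ)
  have h6 : fderiv ℝ (zm m : Sm (n + 1)).1 p = _ := h4.cexp.fderiv
  rw [h6]
  simp [Pi.single_apply, (Fin.succ_ne_zero i).symm]

lemma oddT_zmU (hn : 0 < n) (m : ℤ) : (matCalc ι (n + 1)).oddT (zmU ι m) = 0 := by
  refine oddT_eq_zero _ (Fin.succ ⟨0, hn⟩) ?_
  ext1 i j
  show pD (Fin.succ ⟨0, hn⟩) ((zm m : Sm (n + 1)) * (1 : Matrix ι ι (Sm (n + 1))) i j) = 0
  by_cases hij : i = j
  · subst hij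
    rw [Matrix.one_apply_eq, mul_one]
    exact pD_zm _ _
  · rw [Matrix.one_apply_ne hij, mul_zero, map_zero]

end Mat

universe u

/-- **STEP A**: a loop `G : S¹ × Tⁿ → GL` (`n + 1` odd, `n > 0`) has the same odd integrand as a
Bott loop `1 + (z - 1) E` -/
theorem stepA (hn : Odd (n + 1)) (hn0 : 0 < n) (ι : Type u) [Fintype ι] [DecidableEq ι]
    (G : (Matrix ι ι (Sm (n + 1)))ˣ) :
    ∃ (κ : Type u) (_ : Fintype κ) (_ : DecidableEq κ) (E : Matrix κ κ (Sm n)), E * E = E ∧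
      ∀ u : (Matrix κ κ (Sm (n + 1)))ˣ,
      (u : Matrix κ κ (Sm (n + 1))) = 1 + ((zm 1 : Sm (n + 1)) - 1) • E.map injY →
      (matCalc ι (n + 1)).oddT G = (matCalc κ (n + 1)).oddT u := by
  let R : Matrix ι ι (Sm (n + 1)) :=
    ((G⁻¹ : (Matrix ι ι (Sm (n + 1)))ˣ) : Matrix ι ι (Sm (n + 1)))
  obtain ⟨K, hK0, hK⟩ := mat_bdd R
  let N : ℝ := (Fintype.card ι : ℝ)
  have hN : 0 ≤ N := Nat.cast_nonneg _
  let ε : ℝ := 1 / (N * (N * K) + 1)
  have hpos : 0 < N * (N * K) + 1 := by positivity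
  have hε : 0 < ε := by positivity
  choose g hg hgd using fun i j => laur_dense (G.1 i j) hε
  let G1 : Matrix ι ι (Sm (n + 1)) := Matrix.of g
  have hline : ∀ x : Fin (n + 1) → ℝ, ∀ t ∈ Set.Icc (0 : ℝ) 1,
      IsUnit ((1 - (t : ℂ)) • mev x (G : Matrix ι ι (Sm (n + 1))) + (t : ℂ) • mev x G1) := by
    intro x t ht
    have e1 : (1 - (t : ℂ)) • mev x (G : Matrix ι ι (Sm (n + 1))) + (t : ℂ) • mev x G1 =
        mev x (G : Matrix ι ι (Sm (n + 1))) *
          (1 + (t : ℂ) • (mev x R * (mev x G1 - mev x (G : Matrix ι ι (Sm (n + 1)))))) := by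
      have h1 : mev x (G : Matrix ι ι (Sm (n + 1))) * mev x R = 1 := by
        rw [← mev_mul', ← mev_one' x]
        congr 1
        exact Units.mul_inv G
      rw [mul_add, mul_one, Matrix.mul_smul, ← mul_assoc, h1, one_mul]
      module
    rw [e1]
    refine IsUnit.mul ?_ ?_
    · exact (Units.isUnit G).map ((((Sm.ev x : Sm (n + 1) →⋆ₐ[ℂ] ℂ) :
        Sm (n + 1) →+* ℂ).mapMatrix : Matrix ι ι (Sm (n + 1)) →+* Matrix ι ι ℂ))
    · rw [Matrix.isUnit_iff_isUnit_det, isUnit_iff_ne_zero]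
      refine det_one_add_ne _ (N * (K * ε)) ?_ fun i j => ?_
      · show N * (N * (K * ε)) < 1
        have : N * (N * (K * ε)) = (N * (N * K)) / (N * (N * K) + 1) := by
          simp only [ε]
          ring
        rw [this, div_lt_one hpos]
        linarith
      · rw [Matrix.smul_apply, smul_eq_mul, norm_mul, Complex.norm_real,
          Real.norm_of_nonneg ht.1, Matrix.mul_apply]
        have h2 : ∀ l ∈ Finset.univ, ‖mev x R i l *
            (mev x G1 - mev x (G : Matrix ι ι (Sm (n + 1)))) l j‖ ≤ K * ε := by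
          intro l _
          rw [norm_mul]
          refine mul_le_mul (hK i l x) ?_ (norm_nonneg _) hK0
          rw [Matrix.sub_apply, norm_sub_rev]
          exact hgd l j x
        have h3 := (norm_sum_le _ _).trans (Finset.sum_le_card_nsmul _ _ _ h2)
        rw [nsmul_eq_mul, Finset.card_univ] at h3
        calc t * ‖∑ l, mev x R i l * (mev x G1 - mev x (G : Matrix ι ι (Sm (n + 1)))) l j‖
            ≤ 1 * ‖∑ l, mev x R i l * (mev x G1 - mev x (G : Matrix ι ι (Sm (n + 1)))) l j‖ :=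
              mul_le_mul_of_nonneg_right ht.2 (norm_nonneg _)
          _ ≤ _ := by rw [one_mul]; exact h3
  have hG1u : IsUnit G1 := by
    refine isUnit_of_pointwise _ fun x => ?_
    have h := hline x 1 (by simp)
    simpa using h
  obtain ⟨U1, hU1⟩ := hG1u
  have h1 : (matCalc ι (n + 1)).oddT G = (matCalc ι (n + 1)).oddT U1 := by
    refine oddT_line hn _ _ fun x t ht => ?_
    rw [hU1]
    exact hline x t ht
  obtain ⟨m, d, a, ha⟩ := laur_mat G1 hg
  have h2 : ((zmU ι (m : ℤ) * U1 : (Matrix ι ι (Sm (n + 1)))ˣ) : Matrix ι ι (Sm (n + 1))) =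
      polM (d + 2) a := by
    rw [← ha, Units.val_mul, hU1]
    show ((zm (m : ℤ) : Sm (n + 1)) • (1 : Matrix ι ι (Sm (n + 1)))) * G1 = _
    rw [Matrix.smul_mul, one_mul]
  obtain ⟨κ, hκ1, hκ2, E, hE, h⟩ := oddT_poly hn d ι a _ h2
  refine ⟨κ, hκ1, hκ2, E, hE, fun u hu => ?_⟩
  rw [← h u hu, oddT_mul hn, oddT_zmU hn0, zero_add, h1]

end Pool.Agent.PD4.IxB
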