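import Pool.Agent.PD4.IxB.APencil

/-!
# Project PD4, index block, variant B, Step A: linearisation of polynomial loops (helper93)
-/

open MeasureTheory Filter Topology Polynomial
open scoped ContDiff Matrix

namespace Pool.Agent.PD4.IxB

variable {n : ℕ}

/-- a function of `y` only has no derivative in the circle variable -/
lemma pD_injY (f : Sm n) : pD 0 (injY f : Sm (n + 1)) = 0 := by
  apply Subtype.ext
  funext p
  show fderiv ℝ (fun p : Fin (n + 1) → ℝ => f.1 (Fin.tail p : Fin n → ℝ)) p (Pi.single 0 1) = 0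
  have h1 : HasFDerivAt (fun p : Fin (n + 1) → ℝ => (Fin.tail p : Fin n → ℝ))
      (ContinuousLinearMap.pi fun i : Fin n =>
        ContinuousLinearMap.proj (R := ℝ) (φ := fun _ : Fin (n + 1) => ℝ) i.succ) p := by
    have h := (ContinuousLinearMap.pi fun i : Fin n =>
        ContinuousLinearMap.proj (R := ℝ) (φ := fun _ : Fin (n + 1) => ℝ) i.succ).hasFDerivAt
        (x := p)
    exact h
  have h2 : HasFDerivAt f.1 (fderiv ℝ f.1 (Fin.tail p : Fin n → ℝ)) (Fin.tail p : Fin n → ℝ) :=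
    (Sm.diff_coe f _).hasFDerivAt
  have h3 := h2.comp p h1
  have h4 : fderiv ℝ (fun p : Fin (n + 1) → ℝ => f.1 (Fin.tail p : Fin n → ℝ)) p =
    (fderiv ℝ f.1 (Fin.tail p : Fin n → ℝ)).comp (ContinuousLinearMap.pi fun i : Fin n =>
        ContinuousLinearMap.proj (R := ℝ) (φ := fun _ : Fin (n + 1) => ℝ) i.succ) := h3.fderiv
  rw [h4, ContinuousLinearMap.comp_apply]
  have h5 : (ContinuousLinearMap.pi fun i : Fin n =>
        ContinuousLinearMap.proj (R := ℝ) (φ := fun _ : Fin (n + 1) => ℝ) i.succ)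
      (Pi.single 0 1) = 0 := by
    funext i
    simp
  rw [h5, map_zero]

/-- the unit of functions of `y` -/
noncomputable def injU {ι : Type*} [Fintype ι] [DecidableEq ι] :
    (Matrix ι ι (Sm n))ˣ →* (Matrix ι ι (Sm (n + 1)))ˣ :=
  Units.map (((injY : Sm n →⋆ₐ[ℂ] Sm (n + 1)) : Sm n →+* Sm (n + 1)).mapMatrix).toMonoidHom

lemma injU_val {ι : Type*} [Fintype ι] [DecidableEq ι] (c : (Matrix ι ι (Sm n))ˣ) :
    ((injU c : (Matrix ι ι (Sm (n + 1)))ˣ) : Matrix ι ι (Sm (n + 1))) =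
      (c : Matrix ι ι (Sm n)).map injY := rfl

lemma oddT_injU {ι : Type*} [Fintype ι] [DecidableEq ι] (c : (Matrix ι ι (Sm n))ˣ) :
    (matCalc ι (n + 1)).oddT (injU c) = 0 := by
  refine oddT_eq_zero _ 0 ?_
  ext1 i j
  exact pD_injY _

/-- **linear pencils** -/
theorem oddT_linear {ι : Type*} [Fintype ι] [DecidableEq ι] (hn : Odd (n + 1))
    (A B : Matrix ι ι (Sm n)) (g : (Matrix ι ι (Sm (n + 1)))ˣ)
    (hg : (g : Matrix ι ι (Sm (n + 1))) =
      (zm 1 : Sm (n + 1)) • A.map injY + B.map injY) :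
    ∃ E : Matrix ι ι (Sm n), E * E = E ∧ ∀ u : (Matrix ι ι (Sm (n + 1)))ˣ,
      (u : Matrix ι ι (Sm (n + 1))) = 1 + ((zm 1 : Sm (n + 1)) - 1) • E.map injY →
      (matCalc ι (n + 1)).oddT g = (matCalc ι (n + 1)).oddT u := by
  -- the value at `z = 1`
  let c : (Matrix ι ι (Sm n))ˣ :=
    Units.map (((sl 0 : Sm (n + 1) →⋆ₐ[ℂ] Sm n) : Sm (n + 1) →+* Sm n).mapMatrix).toMonoidHom g
  have hc : (c : Matrix ι ι (Sm n)) = A + B := by
    show (g : Matrix ι ι (Sm (n + 1))).map (sl 0) = A + B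
    rw [hg]
    ext1 i j
    show sl 0 ((zm 1 : Sm (n + 1)) * injY (A i j) + injY (B i j)) = A i j + B i j
    rw [map_add, map_mul, sl_injY, sl_injY]
    have h1 : sl 0 (zm 1 : Sm (n + 1)) = (1 : Sm n) := by
      apply Subtype.ext
      funext y
      rw [sl_apply, zm_apply]
      simp
    rw [h1, one_mul]
  let ci : Matrix ι ι (Sm n) := ((c⁻¹ : (Matrix ι ι (Sm n))ˣ) : Matrix ι ι (Sm n))
  have hcc : (A + B) * ci = 1 := by
    rw [← hc]
    exact Units.mul_inv c
  have hA : A * ci = 1 - B * ci := by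
    rw [← hcc, add_mul, add_sub_cancel_right]
  have hg' : ((g * (injU c)⁻¹ : (Matrix ι ι (Sm (n + 1)))ˣ) : Matrix ι ι (Sm (n + 1))) =
      (zm 1 : Sm (n + 1)) • (1 - (B * ci).map injY) + (B * ci).map injY := by
    have h1 : ((g * (injU c)⁻¹ : (Matrix ι ι (Sm (n + 1)))ˣ) : Matrix ι ι (Sm (n + 1))) =
        (g : Matrix ι ι (Sm (n + 1))) * ci.map injY := by
      rw [Units.val_mul, ← map_inv]
      rfl
    rw [h1, hg, add_mul, Matrix.smul_mul, ← map_injY_mul, ← map_injY_mul, hA, map_injY_sub,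
      map_injY_one]
  obtain ⟨E, hE, h⟩ := oddT_pencil hn (B * ci) (g * (injU c)⁻¹) hg'
  refine ⟨E, hE, fun u hu => ?_⟩
  rw [← h u hu, oddT_mul hn, oddT_inv hn, oddT_injU, neg_zero, add_zero]

/-- upper unipotent block matrix -/
def upU {R : Type*} [CommRing R] {ι : Type*} [Fintype ι] [DecidableEq ι] (q : Matrix ι ι R) :
    (Matrix (ι ⊕ ι) (ι ⊕ ι) R)ˣ where
  val := Matrix.fromBlocks 1 q 0 1
  inv := Matrix.fromBlocks 1 (-q) 0 1
  val_inv := by rw [Matrix.fromBlocks_multiply, ← Matrix.fromBlocks_one]; simp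
  inv_val := by rw [Matrix.fromBlocks_multiply, ← Matrix.fromBlocks_one]; simp

/-- lower unipotent block matrix -/
def loU {R : Type*} [CommRing R] {ι : Type*} [Fintype ι] [DecidableEq ι] (q : Matrix ι ι R) :
    (Matrix (ι ⊕ ι) (ι ⊕ ι) R)ˣ where
  val := Matrix.fromBlocks 1 0 q 1
  inv := Matrix.fromBlocks 1 0 (-q) 1
  val_inv := by rw [Matrix.fromBlocks_multiply, ← Matrix.fromBlocks_one]; simp
  inv_val := by rw [Matrix.fromBlocks_multiply, ← Matrix.fromBlocks_one]; simp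

lemma oddT_upU {ι : Type*} [Fintype ι] [DecidableEq ι] {m : ℕ} (hm : Odd m)
    (q : Matrix ι ι (Sm m)) : (matCalc (ι ⊕ ι) m).oddT (upU q) = 0 := by
  refine oddT_unip hm _ (Matrix.fromBlocks 0 q 0 0) ?_ ?_
  · rw [Matrix.fromBlocks_multiply]; simp
  · show Matrix.fromBlocks 1 q 0 1 = _
    rw [← Matrix.fromBlocks_one, Matrix.fromBlocks_add]; simp

lemma oddT_loU {ι : Type*} [Fintype ι] [DecidableEq ι] {m : ℕ} (hm : Odd m)
    (q : Matrix ι ι (Sm m)) : (matCalc (ι ⊕ ι) m).oddT (loU q) = 0 := by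
  refine oddT_unip hm _ (Matrix.fromBlocks 0 0 q 0) ?_ ?_
  · rw [Matrix.fromBlocks_multiply]; simp
  · show Matrix.fromBlocks 1 0 q 1 = _
    rw [← Matrix.fromBlocks_one, Matrix.fromBlocks_add]; simp

/-- the polynomial loop with coefficients `a 0, ..., a (d-1)` -/
noncomputable def polM {ι : Type*} (d : ℕ) (a : ℕ → Matrix ι ι (Sm n)) :
    Matrix ι ι (Sm (n + 1)) :=
  ∑ j ∈ Finset.range d, (zm (j : ℤ) : Sm (n + 1)) • (a j).map injY

lemma polM_succ {ι : Type*} (d : ℕ) (a : ℕ → Matrix ι ι (Sm n)) :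
    polM (d + 1) a = (a 0).map injY + (zm 1 : Sm (n + 1)) • polM d (fun j => a (j + 1)) := by
  unfold polM
  rw [Finset.sum_range_succ', Finset.smul_sum]
  refine (add_comm _ _).trans ?_
  congr 1
  · rw [Nat.cast_zero, zm_zero, one_smul]
  · refine Finset.sum_congr rfl fun j _ => ?_
    rw [smul_smul, ← zm_add]
    congr 2
    push_cast
    ring

universe u

/-- **polynomial loops** -/
theorem oddT_poly (hn : Odd (n + 1)) (d : ℕ) : ∀ (ι : Type u) [Fintype ι] [DecidableEq ι]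
    (a : ℕ → Matrix ι ι (Sm n)) (g : (Matrix ι ι (Sm (n + 1)))ˣ),
    (g : Matrix ι ι (Sm (n + 1))) = polM (d + 2) a →
    ∃ (κ : Type u) (_ : Fintype κ) (_ : DecidableEq κ) (E : Matrix κ κ (Sm n)), E * E = E ∧
      ∀ u : (Matrix κ κ (Sm (n + 1)))ˣ,
      (u : Matrix κ κ (Sm (n + 1))) = 1 + ((zm 1 : Sm (n + 1)) - 1) • E.map injY →
      (matCalc ι (n + 1)).oddT g = (matCalc κ (n + 1)).oddT u := by
  induction d with
  | zero =>
    intro ι _ _ a g hg
    obtain ⟨E, hE, h⟩ := oddT_linear hn (a 1) (a 0) g (by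
      rw [hg, polM_succ, polM_succ, polM, Finset.sum_range_zero, smul_zero, add_zero]
      exact add_comm _ _)
    exact ⟨ι, inferInstance, inferInstance, E, hE, h⟩
  | succ d ih =>
    intro ι _ _ a g hg
    let q : Matrix ι ι (Sm (n + 1)) := polM (d + 2) (fun j => a (j + 1))
    let L : Matrix ι ι (Sm (n + 1)) := (-(zm 1 : Sm (n + 1))) • 1
    let g' : (Matrix (ι ⊕ ι) (ι ⊕ ι) (Sm (n + 1)))ˣ := upU q * blkU g 1 * loU L
    let a' : ℕ → Matrix (ι ⊕ ι) (ι ⊕ ι) (Sm n) := fun j =>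
      Matrix.fromBlocks (if j = 0 then a 0 else 0) (a (j + 1)) (if j = 1 then -1 else 0)
        (if j = 0 then 1 else 0)
    have hg' : (g' : Matrix (ι ⊕ ι) (ι ⊕ ι) (Sm (n + 1))) = polM (d + 2) a' := by
      have h1 : (g' : Matrix (ι ⊕ ι) (ι ⊕ ι) (Sm (n + 1))) =
          Matrix.fromBlocks ((a 0).map injY) q L 1 := by
        show Matrix.fromBlocks 1 q 0 1 * Matrix.fromBlocks (g : Matrix ι ι (Sm (n + 1))) 0 0
          ((1 : (Matrix ι ι (Sm (n + 1)))ˣ) : Matrix ι ι (Sm (n + 1))) *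
            Matrix.fromBlocks 1 0 L 1 = _
        rw [Matrix.fromBlocks_multiply, Matrix.fromBlocks_multiply]
        have h2 : (g : Matrix ι ι (Sm (n + 1))) = (a 0).map injY + (zm 1 : Sm (n + 1)) • q := by
          rw [hg, polM_succ]
        have h3 : q * L = -((zm 1 : Sm (n + 1)) • q) := by
          rw [Matrix.mul_smul, mul_one]
          ext1 i j
          show (-(zm 1 : Sm (n + 1))) * q i j = -((zm 1 : Sm (n + 1)) * q i j)
          ring
        simp only [one_mul, mul_one, zero_mul, mul_zero, add_zero, zero_add, Units.val_one, h3]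
        rw [h2, add_neg_cancel_right]
      rw [h1]
      have hs : ∀ (f : ℕ → Sm (n + 1)), (∀ j, j ≠ 0 → f j = 0) →
          ∑ j ∈ Finset.range (d + 2), f j = f 0 := by
        intro f hf
        rw [Finset.sum_eq_single 0 (fun j _ hj => hf j hj)]
        intro h; simp at h
      have hs1 : ∀ (f : ℕ → Sm (n + 1)), (∀ j, j ≠ 1 → f j = 0) →
          ∑ j ∈ Finset.range (d + 2), f j = f 1 := by
        intro f hf
        rw [Finset.sum_eq_single 1 (fun j _ hj => hf j hj)]
        intro h; simp at h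
      ext1 s t
      unfold polM
      rw [Matrix.sum_apply]
      rcases s with s | s <;> rcases t with t | t
      · rw [hs]
        · show injY (a 0 s t) = zm ((0 : ℕ) : ℤ) * injY ((if (0 : ℕ) = 0 then a 0 else 0) s t)
          rw [if_pos rfl, Nat.cast_zero, zm_zero, one_mul]
        · intro j hj
          show zm (j : ℤ) * injY ((if j = 0 then a 0 else 0) s t) = 0
          rw [if_neg hj]
          simp
      · show q s t = ∑ j ∈ Finset.range (d + 2), zm (j : ℤ) * injY (a (j + 1) s t)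
        show (polM (d + 2) (fun j => a (j + 1))) s t = _
        unfold polM
        rw [Matrix.sum_apply]
        rfl
      · rw [hs1]
        · show (-(zm 1 : Sm (n + 1))) * (1 : Matrix ι ι (Sm (n + 1))) s t =
            zm ((1 : ℕ) : ℤ) * injY ((if (1 : ℕ) = 1 then (-1 : Matrix ι ι (Sm n)) else 0) s t)
          rw [if_pos rfl, Nat.cast_one, Matrix.neg_apply, map_neg]
          have h4 : injY ((1 : Matrix ι ι (Sm n)) s t) = (1 : Matrix ι ι (Sm (n + 1))) s t := by
            rw [← map_injY_one]; rfl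
          rw [h4]
          ring
        · intro j hj
          show zm (j : ℤ) * injY ((if j = 1 then (-1 : Matrix ι ι (Sm n)) else 0) s t) = 0
          rw [if_neg hj]
          simp
      · rw [hs]
        · show (1 : Matrix ι ι (Sm (n + 1))) s t =
            zm ((0 : ℕ) : ℤ) * injY ((if (0 : ℕ) = 0 then (1 : Matrix ι ι (Sm n)) else 0) s t)
          rw [if_pos rfl, Nat.cast_zero, zm_zero, one_mul, ← map_injY_one]
          rfl
        · intro j hj
          show zm (j : ℤ) * injY ((if j = 0 then (1 : Matrix ι ι (Sm n)) else 0) s t) = 0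
          rw [if_neg hj]
          simp
    obtain ⟨κ, hκ1, hκ2, E, hE, h⟩ := ih (ι ⊕ ι) a' g' hg'
    refine ⟨κ, hκ1, hκ2, E, hE, fun u hu => ?_⟩
    rw [← h u hu]
    show _ = (matCalc (ι ⊕ ι) (n + 1)).oddT (upU q * blkU g 1 * loU L)
    rw [oddT_mul hn, oddT_mul hn, oddT_upU hn, oddT_loU hn, oddT_blkU, oddT_one hn, zero_add,
      add_zero, add_zero]

end Pool.Agent.PD4.IxB
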