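import Pool.Agent.PD4.Ix.Path

/-!
# Project PD4, second proof of integrality: rules for the odd Chern integrand (helper70)

Block sums, products (one rotation homotopy), line homotopies.
-/

open MeasureTheory
open scoped ContDiff

namespace Pool.Agent.PD4.IxB

section Blk

variable {R ι κ : Type*} [CommRing R] [Fintype ι] [DecidableEq ι] [Fintype κ] [DecidableEq κ]

/-- block sum of invertible matrices -/
def blkU (g : (Matrix ι ι R)ˣ) (h : (Matrix κ κ R)ˣ) : (Matrix (ι ⊕ κ) (ι ⊕ κ) R)ˣ where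
  val := Matrix.fromBlocks (g : Matrix ι ι R) 0 0 (h : Matrix κ κ R)
  inv := Matrix.fromBlocks ((g⁻¹ : (Matrix ι ι R)ˣ) : Matrix ι ι R) 0 0
    ((h⁻¹ : (Matrix κ κ R)ˣ) : Matrix κ κ R)
  val_inv := by rw [Matrix.fromBlocks_multiply]; simp
  inv_val := by rw [Matrix.fromBlocks_multiply]; simp

lemma blkU_val (g : (Matrix ι ι R)ˣ) (h : (Matrix κ κ R)ˣ) :
    ((blkU g h : (Matrix (ι ⊕ κ) (ι ⊕ κ) R)ˣ) : Matrix (ι ⊕ κ) (ι ⊕ κ) R) =
      Matrix.fromBlocks (g : Matrix ι ι R) 0 0 (h : Matrix κ κ R) := rfl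

lemma blkU_inv (g : (Matrix ι ι R)ˣ) (h : (Matrix κ κ R)ˣ) :
    (((blkU g h)⁻¹ : (Matrix (ι ⊕ κ) (ι ⊕ κ) R)ˣ) : Matrix (ι ⊕ κ) (ι ⊕ κ) R) =
      Matrix.fromBlocks ((g⁻¹ : (Matrix ι ι R)ˣ) : Matrix ι ι R) 0 0
        ((h⁻¹ : (Matrix κ κ R)ˣ) : Matrix κ κ R) := rfl

lemma blkU_mul (g g' : (Matrix ι ι R)ˣ) (h h' : (Matrix κ κ R)ˣ) :
    blkU g h * blkU g' h' = blkU (g * g') (h * h') := by
  apply Units.ext
  rw [Units.val_mul, blkU_val, blkU_val, blkU_val, Matrix.fromBlocks_multiply]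
  simp

/-- a product of block diagonal matrices is block diagonal -/
lemma list_prod_fromBlocks (l : List (Matrix ι ι R × Matrix κ κ R)) :
    (l.map fun p => Matrix.fromBlocks p.1 0 0 p.2).prod =
      Matrix.fromBlocks (l.map Prod.fst).prod 0 0 (l.map Prod.snd).prod := by
  induction l with
  | nil => simp
  | cons a l ih => simp [ih, Matrix.fromBlocks_multiply]

lemma list_ofFn_fromBlocks {n : ℕ} (a : Fin n → Matrix ι ι R) (b : Fin n → Matrix κ κ R) :
    (List.ofFn fun j => Matrix.fromBlocks (a j) 0 0 (b j)).prod =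
      Matrix.fromBlocks (List.ofFn a).prod 0 0 (List.ofFn b).prod := by
  have h := list_prod_fromBlocks (List.ofFn fun j => (a j, b j))
  rw [List.map_ofFn, List.map_ofFn, List.map_ofFn] at h
  exact h

end Blk

variable {ι κ : Type*} [Fintype ι] [DecidableEq ι] [Fintype κ] [DecidableEq κ] {n : ℕ}

lemma mapMatrix_fromBlocks (i : Fin n) (a : Matrix ι ι (Sm n)) (b : Matrix κ κ (Sm n)) :
    (pD i).mapMatrix (Matrix.fromBlocks a 0 0 b) =
      Matrix.fromBlocks ((pD i).mapMatrix a) 0 0 ((pD i).mapMatrix b) := by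
  ext1 p q
  rcases p with p | p <;> rcases q with q | q <;> simp [LinearMap.mapMatrix_apply]

lemma tr_fromBlocks (a : Matrix ι ι (Sm n)) (b : Matrix κ κ (Sm n)) :
    (matCalc (ι ⊕ κ) n).tr (Matrix.fromBlocks a 0 0 b) =
      (matCalc ι n).tr a + (matCalc κ n).tr b := by
  change mean (Matrix.trace _) = mean (Matrix.trace _) + mean (Matrix.trace _)
  rw [← map_add]
  congr 1
  simp [Matrix.trace, Fintype.sum_sum_type]

/-- block sum rule, odd case -/
theorem oddT_blkU (g : (Matrix ι ι (Sm n))ˣ) (h : (Matrix κ κ (Sm n))ˣ) :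
    (matCalc (ι ⊕ κ) n).oddT (blkU g h) = (matCalc ι n).oddT g + (matCalc κ n).oddT h := by
  rw [Calc.oddT_eq, Calc.oddT_eq, Calc.oddT_eq, ← Finset.sum_add_distrib]
  refine Finset.sum_congr rfl fun σ _ => ?_
  rw [← mul_add, ← tr_fromBlocks, ← list_ofFn_fromBlocks]
  congr 4
  funext j
  have e : (matCalc (ι ⊕ κ) n).D (σ j) ((blkU g h : (Matrix (ι ⊕ κ) (ι ⊕ κ) (Sm n))ˣ) :
      Matrix (ι ⊕ κ) (ι ⊕ κ) (Sm n)) = Matrix.fromBlocks ((matCalc ι n).D (σ j) g) 0 0
        ((matCalc κ n).D (σ j) h) := mapMatrix_fromBlocks (σ j) _ _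
  rw [e, blkU_inv, Matrix.fromBlocks_multiply]
  simp

/-- block sum rule, even case -/
theorem evenT_fromBlocks (a : Matrix ι ι (Sm n)) (b : Matrix κ κ (Sm n)) :
    (matCalc (ι ⊕ κ) n).evenT (Matrix.fromBlocks a 0 0 b) =
      (matCalc ι n).evenT a + (matCalc κ n).evenT b := by
  rw [Calc.evenT_eq, Calc.evenT_eq, Calc.evenT_eq, ← Finset.sum_add_distrib]
  refine Finset.sum_congr rfl fun σ _ => ?_
  rw [← mul_add, ← tr_fromBlocks]
  have e : (List.ofFn fun j : Fin n => (matCalc (ι ⊕ κ) n).D (σ j)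
      (Matrix.fromBlocks a 0 0 b)).prod =
      Matrix.fromBlocks (List.ofFn fun j : Fin n => (matCalc ι n).D (σ j) a).prod 0 0
        (List.ofFn fun j : Fin n => (matCalc κ n).D (σ j) b).prod := by
    rw [← list_ofFn_fromBlocks]
    congr 2
    funext j
    exact mapMatrix_fromBlocks (σ j) _ _
  rw [e, Matrix.fromBlocks_multiply]
  simp

/-- the odd integrand vanishes if one derivative of `G` vanishes -/
theorem oddT_eq_zero (g : (Matrix ι ι (Sm n))ˣ) (i : Fin n)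
    (h : (pD i).mapMatrix (g : Matrix ι ι (Sm n)) = 0) : (matCalc ι n).oddT g = 0 := by
  rw [Calc.oddT_eq]
  refine Finset.sum_eq_zero fun σ _ => ?_
  have hz : (List.ofFn fun j : Fin n => (((g⁻¹ : (Matrix ι ι (Sm n))ˣ) : Matrix ι ι (Sm n)) *
      (matCalc ι n).D (σ j) (g : Matrix ι ι (Sm n)))).prod = 0 := by
    apply List.prod_eq_zero
    rw [List.mem_ofFn]
    refine ⟨σ.symm i, ?_⟩
    have : (matCalc ι n).D (σ (σ.symm i)) (g : Matrix ι ι (Sm n)) = 0 := by
      rw [Equiv.apply_symm_apply]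
      exact h
    rw [this, mul_zero]
  rw [hz, map_zero, mul_zero]

/-- the even integrand vanishes if one derivative of `e` vanishes -/
theorem evenT_eq_zero (e : Matrix ι ι (Sm n)) (i : Fin n)
    (h : (pD i).mapMatrix e = 0) : (matCalc ι n).evenT e = 0 := by
  rw [Calc.evenT_eq]
  refine Finset.sum_eq_zero fun σ _ => ?_
  have hz : (List.ofFn fun j : Fin n => (matCalc ι n).D (σ j) e).prod = 0 := by
    apply List.prod_eq_zero
    rw [List.mem_ofFn]
    refine ⟨σ.symm i, ?_⟩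
    rw [Equiv.apply_symm_apply]
    exact h
  rw [hz, mul_zero, map_zero, mul_zero]

lemma pD_one (i : Fin n) : pD i (1 : Sm n) = 0 := by
  have h := pD_leib i (1 : Sm n) 1
  simpa using h

lemma mapMatrix_one (i : Fin n) : (pD i).mapMatrix (1 : Matrix ι ι (Sm n)) = 0 := by
  ext1 p q
  simp only [LinearMap.mapMatrix_apply, Matrix.map_apply, Matrix.one_apply, Matrix.zero_apply]
  split_ifs
  · exact pD_one i
  · exact map_zero _

/-- the odd integrand of the identity -/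
theorem oddT_one (hn : Odd n) : (matCalc ι n).oddT 1 = 0 := by
  have h : 0 < n := hn.pos
  exact oddT_eq_zero 1 ⟨0, h⟩ (mapMatrix_one _)

/-- constant path of invertible matrices -/
noncomputable def cSU : (Matrix ι ι (Sm n))ˣ →* (Matrix ι ι (SmS n))ˣ :=
  Units.map ((cS : Sm n →⋆ₐ[ℂ] SmS n) : Sm n →+* SmS n).mapMatrix.toMonoidHom

lemma evU_cSU (s : ℝ) (g : (Matrix ι ι (Sm n))ˣ) : evU s (cSU g) = g := by
  apply Units.ext
  rfl

/-- the path of rotations -/
noncomputable def rotU : (Matrix (ι ⊕ ι) (ι ⊕ ι) (SmS n))ˣ :=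
  let c : SmS n := fS (fun s => ((Real.cos s : ℝ) : ℂ))
    (Complex.ofRealCLM.contDiff.comp Real.contDiff_cos)
  let s : SmS n := fS (fun s => ((Real.sin s : ℝ) : ℂ))
    (Complex.ofRealCLM.contDiff.comp Real.contDiff_sin)
  have h : c * c + s * s = 1 := by
    apply Subtype.ext
    funext p
    change ((Real.cos p.1 : ℝ) : ℂ) * ((Real.cos p.1 : ℝ) : ℂ) +
      ((Real.sin p.1 : ℝ) : ℂ) * ((Real.sin p.1 : ℝ) : ℂ) = 1
    norm_cast
    rw [← sq, ← sq]
    exact Real.cos_sq_add_sin_sq p.1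
  { val := Matrix.fromBlocks (c • 1) (-(s • 1)) (s • 1) (c • 1)
    inv := Matrix.fromBlocks (c • 1) (s • 1) (-(s • 1)) (c • 1)
    val_inv := by
      have h' : s * s + c * c = 1 := by rw [add_comm]; exact h
      rw [Matrix.fromBlocks_multiply, ← Matrix.fromBlocks_one]
      congr 1 <;> simp [smul_smul, ← add_smul, h, h', mul_comm]
    inv_val := by
      have h' : s * s + c * c = 1 := by rw [add_comm]; exact h
      rw [Matrix.fromBlocks_multiply, ← Matrix.fromBlocks_one]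
      congr 1 <;> simp [smul_smul, ← add_smul, h, h', mul_comm] }

lemma evS_fS (s : ℝ) (φ : ℝ → ℂ) (hφ : ContDiff ℝ ∞ φ) :
    (evS s (fS φ hφ) : Sm n) = algebraMap ℂ (Sm n) (φ s) := rfl

lemma evU_rotU (s : ℝ) : ((evU s (rotU : (Matrix (ι ⊕ ι) (ι ⊕ ι) (SmS n))ˣ) :
    (Matrix (ι ⊕ ι) (ι ⊕ ι) (Sm n))ˣ) : Matrix (ι ⊕ ι) (ι ⊕ ι) (Sm n)) =
    Matrix.fromBlocks (algebraMap ℂ (Sm n) (Real.cos s : ℂ) • 1)
      (-(algebraMap ℂ (Sm n) (Real.sin s : ℂ) • 1))
      (algebraMap ℂ (Sm n) (Real.sin s : ℂ) • 1)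
      (algebraMap ℂ (Sm n) (Real.cos s : ℂ) • 1) := by
  ext1 p q
  rcases p with p | p <;> rcases q with q | q
  · change evS s (_ * (1 : Matrix ι ι (SmS n)) p q) = _ * (1 : Matrix ι ι (Sm n)) p q
    rw [map_mul, Matrix.one_apply, Matrix.one_apply]
    split_ifs
    · rw [map_one]
      rfl
    · rw [map_zero, mul_zero, mul_zero]
  · change evS s (-(_ * (1 : Matrix ι ι (SmS n)) p q)) = -(_ * (1 : Matrix ι ι (Sm n)) p q)
    rw [map_neg, map_mul, Matrix.one_apply, Matrix.one_apply]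
    split_ifs
    · rw [map_one]
      rfl
    · rw [map_zero, mul_zero, mul_zero]
  · change evS s (_ * (1 : Matrix ι ι (SmS n)) p q) = _ * (1 : Matrix ι ι (Sm n)) p q
    rw [map_mul, Matrix.one_apply, Matrix.one_apply]
    split_ifs
    · rw [map_one]
      rfl
    · rw [map_zero, mul_zero, mul_zero]
  · change evS s (_ * (1 : Matrix ι ι (SmS n)) p q) = _ * (1 : Matrix ι ι (Sm n)) p q
    rw [map_mul, Matrix.one_apply, Matrix.one_apply]
    split_ifs
    · rw [map_one]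
      rfl
    · rw [map_zero, mul_zero, mul_zero]

lemma evU_rotU_zero : evU 0 (rotU : (Matrix (ι ⊕ ι) (ι ⊕ ι) (SmS n))ˣ) = 1 := by
  apply Units.ext
  rw [evU_rotU]
  simp

lemma evU_rotU_pi (h : (Matrix ι ι (Sm n))ˣ) :
    evU (Real.pi / 2) (rotU : (Matrix (ι ⊕ ι) (ι ⊕ ι) (SmS n))ˣ) * blkU h 1 *
      (evU (Real.pi / 2) (rotU : (Matrix (ι ⊕ ι) (ι ⊕ ι) (SmS n))ˣ))⁻¹ = blkU 1 h := by
  rw [mul_inv_eq_iff_eq_mul]
  apply Units.ext
  rw [Units.val_mul, Units.val_mul, evU_rotU, blkU_val, blkU_val, Matrix.fromBlocks_multiply,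
    Matrix.fromBlocks_multiply]
  simp

/-- product rule -/
theorem oddT_mul (hn : Odd n) (g h : (Matrix ι ι (Sm n))ˣ) :
    (matCalc ι n).oddT (g * h) = (matCalc ι n).oddT g + (matCalc ι n).oddT h := by
  have key := oddT_path hn (cSU (blkU g 1) * (rotU * cSU (blkU h 1) * rotU⁻¹) :
    (Matrix (ι ⊕ ι) (ι ⊕ ι) (SmS n))ˣ) 0 (Real.pi / 2)
  simp only [map_mul, map_inv, evU_cSU, evU_rotU_zero, one_mul, inv_one, mul_one,
    evU_rotU_pi, blkU_mul] at key
  rw [oddT_blkU, oddT_blkU, oddT_one hn, add_zero] at key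
  exact key

theorem oddT_inv (hn : Odd n) (g : (Matrix ι ι (Sm n))ˣ) :
    (matCalc ι n).oddT g⁻¹ = - (matCalc ι n).oddT g := by
  have h := oddT_mul hn g g⁻¹
  rw [mul_inv_cancel, oddT_one hn] at h
  exact (neg_eq_of_add_eq_zero_right h.symm).symm

/-- **line homotopy** -/
theorem oddT_line (hn : Odd n) (g h : (Matrix ι ι (Sm n))ˣ)
    (H : ∀ x : Fin n → ℝ, ∀ t ∈ Set.Icc (0 : ℝ) 1,
      IsUnit ((1 - (t : ℂ)) • mev x (g : Matrix ι ι (Sm n)) +
        (t : ℂ) • mev x (h : Matrix ι ι (Sm n)))) :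
    (matCalc ι n).oddT g = (matCalc ι n).oddT h := by
  have hσ : ContDiff ℝ ∞ (fun s : ℝ => ((Real.smoothTransition s : ℝ) : ℂ)) :=
    Complex.ofRealCLM.contDiff.comp Real.smoothTransition.contDiff
  let a : SmS n := fS (fun s => 1 - ((Real.smoothTransition s : ℝ) : ℂ))
    (contDiff_const.sub hσ)
  let b : SmS n := fS (fun s => ((Real.smoothTransition s : ℝ) : ℂ)) hσ
  let M : Matrix ι ι (SmS n) := a • ((cSU g : (Matrix ι ι (SmS n))ˣ) : Matrix ι ι (SmS n)) +
    b • ((cSU h : (Matrix ι ι (SmS n))ˣ) : Matrix ι ι (SmS n))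
  have hM : IsUnit M := by
    apply isUnit_of_pointwiseS
    intro s
    apply isUnit_of_pointwise
    intro x
    exact H x (Real.smoothTransition s)
      ⟨Real.smoothTransition.nonneg s, Real.smoothTransition.le_one s⟩
  obtain ⟨U, hU⟩ := hM
  have key := oddT_path hn U 0 1
  have e0 : evU 0 U = g := by
    apply Units.ext
    ext1 p q
    change evS 0 ((U : Matrix ι ι (SmS n)) p q) = _
    rw [hU]
    apply Subtype.ext
    funext x
    change (1 - ((Real.smoothTransition 0 : ℝ) : ℂ)) * (g.1 p q).1 x +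
      ((Real.smoothTransition 0 : ℝ) : ℂ) * (h.1 p q).1 x = _
    rw [Real.smoothTransition.zero]
    simp
  have e1 : evU 1 U = h := by
    apply Units.ext
    ext1 p q
    change evS 1 ((U : Matrix ι ι (SmS n)) p q) = _
    rw [hU]
    apply Subtype.ext
    funext x
    change (1 - ((Real.smoothTransition 1 : ℝ) : ℂ)) * (g.1 p q).1 x +
      ((Real.smoothTransition 1 : ℝ) : ℂ) * (h.1 p q).1 x = _
    rw [Real.smoothTransition.one]
    simp
  rw [e0, e1] at key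
  exact key

/-- unipotent matrices of depth two do not contribute -/
theorem oddT_unip (hn : Odd n) (g : (Matrix ι ι (Sm n))ˣ) (N : Matrix ι ι (Sm n))
    (hN : N * N = 0) (hg : (g : Matrix ι ι (Sm n)) = 1 + N) : (matCalc ι n).oddT g = 0 := by
  rw [← oddT_line hn 1 g, oddT_one hn]
  intro x t _
  have hN' : mev x N * mev x N = 0 := by
    have h1 := congrArg (((Sm.ev x : Sm n →⋆ₐ[ℂ] ℂ) : Sm n →+* ℂ).mapMatrix) hN
    rw [map_mul, map_zero] at h1
    exact h1
  have e : (1 - (t : ℂ)) • mev x ((1 : (Matrix ι ι (Sm n))ˣ) : Matrix ι ι (Sm n)) +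
      (t : ℂ) • mev x (g : Matrix ι ι (Sm n)) = 1 + (t : ℂ) • mev x N := by
    have h1 : mev x ((1 : (Matrix ι ι (Sm n))ˣ) : Matrix ι ι (Sm n)) = 1 :=
      map_one (((Sm.ev x : Sm n →⋆ₐ[ℂ] ℂ) : Sm n →+* ℂ).mapMatrix)
    have h2 : mev x (g : Matrix ι ι (Sm n)) = 1 + mev x N := by
      have h3 := congrArg (((Sm.ev x : Sm n →⋆ₐ[ℂ] ℂ) : Sm n →+* ℂ).mapMatrix) hg
      rw [map_add, map_one] at h3
      exact h3
    rw [h1, h2]
    module
  rw [e]
  refine IsUnit.of_mul_eq_one (1 - (t : ℂ) • mev x N) ?_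
  rw [add_mul, mul_sub, mul_sub, one_mul, one_mul, mul_one, smul_mul_smul_comm, hN', smul_zero]
  abel

end Pool.Agent.PD4.IxB
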