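import Pool.Agent.PD4.IxB.A0
import Pool.Agent.PD4.IxB.Rules

/-!
# Project PD4, index block, variant B, Step A: the spectral idempotent of a pencil (helper93)

For `b : Matrix ι ι (Sm n)` such that `z (1 - b) + b` is invertible for `|z| = 1` we construct an
idempotent `E` over `Sm n`, commuting with `b`, such that `z (1 - b_t) + b_t`,
`b_t = (1-t) b + t (1 - E)`, is invertible for all `t ∈ [0,1]`, `|z| = 1`.
-/

open MeasureTheory Filter Topology
open scoped ContDiff Matrix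

namespace Pool.Agent.PD4.IxB

/-! ### pointwise part -/

section Pointwise

variable {ι : Type*} [Fintype ι] [DecidableEq ι]

/-- the data at one point: Fourier coefficients of the inverse pencil -/
structure PencilPt (b : Matrix ι ι ℂ) (c : ℤ → Matrix ι ι ℂ) : Prop where
  comm : ∀ m, b * c m = c m * b
  rel : ∀ m, (1 - b) * c (m - 1) + b * c m = if m = 0 then 1 else 0
  dec : ∀ i j, Tendsto (fun m : ℕ => c (m : ℤ) i j) atTop (𝓝 0)
  dec' : ∀ i j, Tendsto (fun m : ℕ => c (-(m : ℤ)) i j) atTop (𝓝 0)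

variable {b : Matrix ι ι ℂ} {c : ℤ → Matrix ι ι ℂ}

theorem PencilPt.tendsto_mulVec (h : PencilPt b c) (v : ι → ℂ) :
    Tendsto (fun m : ℕ => ‖(c (m : ℤ)) *ᵥ v‖) atTop (𝓝 0) := by
  have h1 : Tendsto (fun m : ℕ => (c (m : ℤ)) *ᵥ v) atTop (𝓝 0) := by
    rw [tendsto_pi_nhds]
    intro i
    have h2 : Tendsto (fun m : ℕ => ∑ j, c (m : ℤ) i j * v j) atTop (𝓝 (∑ j, 0 * v j)) :=
      tendsto_finsetSum _ fun j _ => (h.dec i j).mul_const (v j)
    simpa [Matrix.mulVec, dotProduct] using h2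
  simpa using h1.norm

theorem PencilPt.tendsto_mulVec' (h : PencilPt b c) (v : ι → ℂ) :
    Tendsto (fun m : ℕ => ‖(c (-(m : ℤ))) *ᵥ v‖) atTop (𝓝 0) := by
  have h1 : Tendsto (fun m : ℕ => (c (-(m : ℤ))) *ᵥ v) atTop (𝓝 0) := by
    rw [tendsto_pi_nhds]
    intro i
    have h2 : Tendsto (fun m : ℕ => ∑ j, c (-(m : ℤ)) i j * v j) atTop (𝓝 (∑ j, 0 * v j)) :=
      tendsto_finsetSum _ fun j _ => (h.dec' i j).mul_const (v j)
    simpa [Matrix.mulVec, dotProduct] using h2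
  simpa using h1.norm

/-- the relations on an eigenvector -/
theorem PencilPt.eig (h : PencilPt b c) {v : ι → ℂ} {l : ℂ} (hv : b *ᵥ v = l • v) (m : ℤ) :
    (1 - l) • (c (m - 1) *ᵥ v) + l • (c m *ᵥ v) = if m = 0 then v else 0 := by
  have h1 := congrArg (fun M : Matrix ι ι ℂ => M *ᵥ v) (h.rel m)
  simp only [Matrix.add_mulVec, ← Matrix.mulVec_mulVec] at h1
  have h2 : ∀ k, b *ᵥ (c k *ᵥ v) = l • (c k *ᵥ v) := by
    intro k
    rw [Matrix.mulVec_mulVec, h.comm, ← Matrix.mulVec_mulVec, hv, Matrix.mulVec_smul]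
  rw [Matrix.sub_mulVec, Matrix.one_mulVec, h2, h2] at h1
  rw [sub_smul, one_smul, h1]
  split_ifs <;> simp

/-- eigenvectors with `|1-λ| ≤ |λ|` are killed by `E` -/
theorem PencilPt.eig_zero (h : PencilPt b c) {v : ι → ℂ} {l : ℂ} (hv : b *ᵥ v = l • v)
    (hl : ‖1 - l‖ ≤ ‖l‖) : ((1 - b) * c (-1)) *ᵥ v = 0 := by
  have hl0 : 0 < ‖l‖ := by
    rcases (norm_nonneg l).lt_or_eq with h0 | h0
    · exact h0
    · exfalso
      have h1 : l = 0 := norm_eq_zero.mp h0.symm
      rw [h1] at hl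
      simp at hl
      linarith
  have key : ∀ j : ℕ, ‖c (-1) *ᵥ v‖ ≤ ‖c (-((j : ℤ) + 1)) *ᵥ v‖ := by
    intro j
    induction j with
    | zero => simp
    | succ j ih =>
      refine ih.trans ?_
      have h1 := h.eig hv (-((j : ℤ) + 1))
      rw [if_neg (by omega)] at h1
      have h2 : l • (c (-((j : ℤ) + 1)) *ᵥ v) = -((1 - l) • (c (-((j : ℤ) + 1) - 1) *ᵥ v)) :=
        eq_neg_of_add_eq_zero_right h1
      have h3 := congrArg norm h2
      rw [norm_smul, norm_neg, norm_smul] at h3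
      have h4 : (-(((j + 1 : ℕ) : ℤ) + 1)) = -((j : ℤ) + 1) - 1 := by push_cast; ring
      rw [h4]
      have h5 : ‖l‖ * ‖c (-((j : ℤ) + 1)) *ᵥ v‖ ≤ ‖l‖ * ‖c (-((j : ℤ) + 1) - 1) *ᵥ v‖ := by
        rw [h3]
        exact mul_le_mul_of_nonneg_right hl (norm_nonneg _)
      exact le_of_mul_le_mul_left h5 hl0
  have h1 : ‖c (-1) *ᵥ v‖ ≤ 0 := by
    refine ge_of_tendsto ((tendsto_add_atTop_iff_nat 1).mpr (h.tendsto_mulVec' v))
      (Eventually.of_forall fun j => ?_)
    have := key j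
    push_cast
    exact this
  have h2 : c (-1) *ᵥ v = 0 := norm_eq_zero.mp (le_antisymm h1 (norm_nonneg _))
  rw [← Matrix.mulVec_mulVec, h2, Matrix.mulVec_zero]

/-- eigenvectors with `|λ| ≤ |1-λ|` are fixed by `E` -/
theorem PencilPt.eig_one (h : PencilPt b c) {v : ι → ℂ} {l : ℂ} (hv : b *ᵥ v = l • v)
    (hl : ‖l‖ ≤ ‖1 - l‖) : ((1 - b) * c (-1)) *ᵥ v = v := by
  have hl0 : 0 < ‖1 - l‖ := by
    rcases (norm_nonneg (1 - l)).lt_or_eq with h0 | h0
    · exact h0
    · exfalso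
      have h1 : l = 1 := (sub_eq_zero.mp (norm_eq_zero.mp h0.symm)).symm
      rw [h1] at hl
      simp at hl
      linarith
  have key : ∀ j : ℕ, ‖c 0 *ᵥ v‖ ≤ ‖c (j : ℤ) *ᵥ v‖ := by
    intro j
    induction j with
    | zero => simp
    | succ j ih =>
      refine ih.trans ?_
      have h1 := h.eig hv ((j : ℤ) + 1)
      rw [if_neg (by omega), add_sub_cancel_right] at h1
      have h2 : (1 - l) • (c (j : ℤ) *ᵥ v) = -(l • (c ((j : ℤ) + 1) *ᵥ v)) :=
        eq_neg_of_add_eq_zero_left h1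
      have h3 := congrArg norm h2
      rw [norm_smul, norm_neg, norm_smul] at h3
      have h5 : ‖1 - l‖ * ‖c (j : ℤ) *ᵥ v‖ ≤ ‖1 - l‖ * ‖c ((j : ℤ) + 1) *ᵥ v‖ := by
        rw [h3]
        exact mul_le_mul_of_nonneg_right hl (norm_nonneg _)
      have := le_of_mul_le_mul_left h5 hl0
      push_cast
      exact this
  have h1 : ‖c 0 *ᵥ v‖ ≤ 0 :=
    ge_of_tendsto (h.tendsto_mulVec v) (Eventually.of_forall fun j => key j)
  have h2 : c 0 *ᵥ v = 0 := norm_eq_zero.mp (le_antisymm h1 (norm_nonneg _))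
  have h3 := h.eig hv 0
  rw [if_pos rfl, h2, smul_zero, add_zero, zero_sub] at h3
  have h4 : b *ᵥ (c (-1) *ᵥ v) = l • (c (-1) *ᵥ v) := by
    rw [Matrix.mulVec_mulVec, h.comm, ← Matrix.mulVec_mulVec, hv, Matrix.mulVec_smul]
  have h5 : ((1 - b) * c (-1)) *ᵥ v = (1 - l) • (c (-1) *ᵥ v) := by
    rw [← Matrix.mulVec_mulVec, Matrix.sub_mulVec, Matrix.one_mulVec, h4, sub_smul, one_smul]
  rw [h5, h3]

theorem PencilPt.E_comm (h : PencilPt b c) : b * ((1 - b) * c (-1)) = ((1 - b) * c (-1)) * b := by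
  have h1 : b * (1 - b) = (1 - b) * b := by noncomm_ring
  rw [← mul_assoc, h1, mul_assoc, h.comm, mul_assoc]

/-- `E (1 - E) = 0` -/
theorem PencilPt.E_idem (h : PencilPt b c) :
    ((1 - b) * c (-1)) * ((1 - b) * c (-1)) = (1 - b) * c (-1) := by
  have hE : 1 - (1 - b) * c (-1) = b * c 0 := by
    have h1 := h.rel 0
    rw [if_pos rfl, zero_sub] at h1
    rw [sub_eq_iff_eq_add']
    exact h1.symm
  have key : ∀ j : ℕ, ((1 - b) * c (-1)) * (b * c 0) =
      ((1 - b) * c (-((j : ℤ) + 1))) * (b * c (j : ℤ)) := by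
    intro j
    induction j with
    | zero => simp
    | succ j ih =>
      rw [ih]
      have h1 := h.rel (-((j : ℤ) + 1))
      rw [if_neg (by omega)] at h1
      have h2 := h.rel ((j : ℤ) + 1)
      rw [if_neg (by omega), add_sub_cancel_right] at h2
      have e1 : (-(((j + 1 : ℕ) : ℤ) + 1)) = -((j : ℤ) + 1) - 1 := by push_cast; ring
      have e2 : (((j + 1 : ℕ) : ℤ)) = (j : ℤ) + 1 := by push_cast; ring
      rw [e1, e2]
      have h3 : (1 - b) * c (-((j : ℤ) + 1) - 1) = -(b * c (-((j : ℤ) + 1))) :=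
        eq_neg_of_add_eq_zero_left h1
      have h4 : b * c ((j : ℤ) + 1) = -((1 - b) * c (j : ℤ)) :=
        eq_neg_of_add_eq_zero_right h2
      rw [h3, h4, neg_mul_neg]
      have h5 : ∀ m, (1 - b) * c m = c m * (1 - b) := by
        intro m
        rw [sub_mul, mul_sub, h.comm m, one_mul, mul_one]
      calc ((1 - b) * c (-((j : ℤ) + 1))) * (b * c (j : ℤ))
          = c (-((j : ℤ) + 1)) * (((1 - b) * b) * c (j : ℤ)) := by
            rw [h5 (-((j : ℤ) + 1))]; simp only [mul_assoc]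
        _ = c (-((j : ℤ) + 1)) * ((b * (1 - b)) * c (j : ℤ)) := by
            congr 2; noncomm_ring
        _ = (b * c (-((j : ℤ) + 1))) * ((1 - b) * c (j : ℤ)) := by
            rw [h.comm]; simp only [mul_assoc]
  have h1 : ((1 - b) * c (-1)) * (b * c 0) = 0 := by
    ext i k
    have hlim : Tendsto (fun j : ℕ =>
        (((1 - b) * c (-((j : ℤ) + 1))) * (b * c (j : ℤ))) i k) atTop (𝓝 0) := by
      have h2 : ∀ p q, Tendsto (fun j : ℕ => ((1 - b) * c (-((j : ℤ) + 1))) p q) atTop (𝓝 0) := by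
        intro p q
        have h3 : Tendsto (fun j : ℕ => ∑ s, (1 - b) p s * c (-((j : ℤ) + 1)) s q) atTop
            (𝓝 (∑ s, (1 - b) p s * 0)) := by
          refine tendsto_finsetSum _ fun s _ => Tendsto.const_mul _ ?_
          have h4 := (tendsto_add_atTop_iff_nat 1).mpr (h.dec' s q)
          refine h4.congr fun j => ?_
          push_cast
          rfl
        simpa [Matrix.mul_apply] using h3
      have h2' : ∀ p q, Tendsto (fun j : ℕ => (b * c (j : ℤ)) p q) atTop (𝓝 0) := by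
        intro p q
        have h3 : Tendsto (fun j : ℕ => ∑ s, b p s * c (j : ℤ) s q) atTop
            (𝓝 (∑ s, b p s * 0)) :=
          tendsto_finsetSum _ fun s _ => Tendsto.const_mul _ (h.dec s q)
        simpa [Matrix.mul_apply] using h3
      have h3 : Tendsto (fun j : ℕ => ∑ s, ((1 - b) * c (-((j : ℤ) + 1))) i s *
          (b * c (j : ℤ)) s k) atTop (𝓝 (∑ s : ι, 0 * 0)) :=
        tendsto_finsetSum _ fun s _ => (h2 i s).mul (h2' s k)
      simpa [Matrix.mul_apply] using h3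
    have hc : Tendsto (fun j : ℕ =>
        (((1 - b) * c (-((j : ℤ) + 1))) * (b * c (j : ℤ))) i k) atTop
          (𝓝 ((((1 - b) * c (-1)) * (b * c 0)) i k)) := by
      refine tendsto_const_nhds.congr fun j => ?_
      rw [key j]
    exact tendsto_nhds_unique hc hlim
  rw [← hE, mul_sub, mul_one, sub_eq_zero] at h1
  exact h1.symm

/-- **the deformed pencils are invertible** -/
theorem PencilPt.ker (h : PencilPt b c) {t : ℝ} (ht0 : 0 ≤ t) (ht1 : t ≤ 1) {z : ℂ}
    (hz : ‖z‖ = 1) {v : ι → ℂ}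
    (hv : (z • (1 - ((1 - t : ℂ) • b + (t : ℂ) • (1 - (1 - b) * c (-1)))) +
      ((1 - t : ℂ) • b + (t : ℂ) • (1 - (1 - b) * c (-1)))) *ᵥ v = 0) : v = 0 := by
  set E := (1 - b) * c (-1) with hE
  have hEE : E * E = E := h.E_idem
  have hEb : b * E = E * b := h.E_comm
  set bt := (1 - t : ℂ) • b + (t : ℂ) • (1 - E) with hbt
  have hEbt : E * bt = bt * E := by
    rw [hbt, mul_add, add_mul, Matrix.mul_smul, Matrix.smul_mul, Matrix.mul_smul,
      Matrix.smul_mul, hEb, mul_sub, sub_mul, mul_one, one_mul]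
  have hnorm : ∀ s : ℝ, 0 ≤ s → s ≤ 1 → ‖(1 - s : ℂ) + s * z‖ ≤ 1 := by
    intro s hs0 hs1
    calc ‖(1 - s : ℂ) + s * z‖ ≤ ‖(1 - s : ℂ)‖ + ‖(s : ℂ) * z‖ := norm_add_le _ _
      _ = (1 - s) + s := by
        rw [norm_mul, hz, mul_one]
        have e1 : ‖(1 - s : ℂ)‖ = 1 - s := by
          have : (1 - s : ℂ) = ((1 - s : ℝ) : ℂ) := by push_cast; ring
          rw [this, Complex.norm_real, Real.norm_of_nonneg (by linarith)]
        rw [e1, Complex.norm_real, Real.norm_of_nonneg hs0]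
      _ = 1 := by ring
  have hz0 : z ≠ 0 := by
    intro h0
    rw [h0] at hz
    simp at hz
  -- the equation in the form `z v + (1-z) bt v = 0`
  have hv' : ∀ w : ι → ℂ, (z • (1 - bt) + bt) *ᵥ w = z • w + (1 - z) • (bt *ᵥ w) := by
    intro w
    rw [Matrix.add_mulVec, Matrix.smul_mulVec, Matrix.sub_mulVec, Matrix.one_mulVec, smul_sub,
      sub_smul, one_smul]
    abel
  -- first component
  have hv1 : E *ᵥ v = 0 := by
    have h1 : (z • (1 - bt) + bt) *ᵥ (E *ᵥ v) = 0 := by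
      rw [Matrix.mulVec_mulVec]
      have e : (z • (1 - bt) + bt) * E = E * (z • (1 - bt) + bt) := by
        rw [add_mul, mul_add, Matrix.smul_mul, Matrix.mul_smul, sub_mul, mul_sub, one_mul,
          mul_one, hEbt]
      rw [e, ← Matrix.mulVec_mulVec, hv, Matrix.mulVec_zero]
    set w := E *ᵥ v with hw
    have hEw : E *ᵥ w = w := by rw [hw, Matrix.mulVec_mulVec, hEE]
    have hbw : bt *ᵥ w = (1 - t : ℂ) • (b *ᵥ w) := by
      rw [hbt, Matrix.add_mulVec, Matrix.smul_mulVec, Matrix.smul_mulVec, Matrix.sub_mulVec,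
        Matrix.one_mulVec, hEw, sub_self, smul_zero, add_zero]
    rw [hv', hbw, smul_smul] at h1
    by_cases hμ : (1 - z) * (1 - t : ℂ) = 0
    · rw [hμ, zero_smul, add_zero] at h1
      exact (smul_eq_zero.mp h1).resolve_left hz0
    · have h2 : b *ᵥ w = (-z / ((1 - z) * (1 - t : ℂ))) • w := by
        have h3 : ((1 - z) * (1 - t : ℂ)) • (b *ᵥ w) = (-z) • w := by
          rw [neg_smul]
          exact eq_neg_of_add_eq_zero_right h1
        rw [div_eq_inv_mul, mul_smul, ← h3, smul_smul, inv_mul_cancel₀ hμ, one_smul]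
      have h3 := h.eig_zero h2 (by
        have e1 : 1 - -z / ((1 - z) * (1 - t : ℂ)) =
            (((1 - t : ℂ) + t * z)) / ((1 - z) * (1 - t : ℂ)) := by
          rw [one_sub_div hμ]
          congr 1
          ring
        rw [e1, norm_div, norm_div, norm_neg, hz]
        exact div_le_div_of_nonneg_right (hnorm t ht0 ht1) (norm_nonneg _))
      rw [← hE] at h3
      rw [← hEw]
      exact h3
  have hbv : bt *ᵥ v = (1 - t : ℂ) • (b *ᵥ v) + (t : ℂ) • v := by
    rw [hbt, Matrix.add_mulVec, Matrix.smul_mulVec, Matrix.smul_mulVec, Matrix.sub_mulVec,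
      Matrix.one_mulVec, hv1, sub_zero]
  rw [hv', hbv, smul_add, smul_smul, smul_smul] at hv
  have hv2 : (z + (1 - z) * (t : ℂ)) • v = -(((1 - z) * (1 - t : ℂ)) • (b *ᵥ v)) := by
    rw [add_smul]
    have : (z • v + ((1 - z) * (t : ℂ)) • v) + ((1 - z) * (1 - t : ℂ)) • (b *ᵥ v) = 0 := by
      rw [← hv]; abel
    exact eq_neg_of_add_eq_zero_left this
  by_cases hμ : (1 - z) * (1 - t : ℂ) = 0
  · rw [hμ, zero_smul, neg_zero] at hv2
    have h1 : z + (1 - z) * (t : ℂ) = 1 := by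
      have : z + (1 - z) * (t : ℂ) = 1 - (1 - z) * (1 - t : ℂ) := by ring
      rw [this, hμ, sub_zero]
    rw [h1, one_smul] at hv2
    exact hv2
  · have h2 : b *ᵥ v = (-(z + (1 - z) * (t : ℂ)) / ((1 - z) * (1 - t : ℂ))) • v := by
      have h3 : ((1 - z) * (1 - t : ℂ)) • (b *ᵥ v) = (-(z + (1 - z) * (t : ℂ))) • v := by
        rw [neg_smul, hv2, neg_neg]
      rw [div_eq_inv_mul, mul_smul, ← h3, smul_smul, inv_mul_cancel₀ hμ, one_smul]
    have h3 := h.eig_one h2 (by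
      have e1 : 1 - -(z + (1 - z) * (t : ℂ)) / ((1 - z) * (1 - t : ℂ)) =
          1 / ((1 - z) * (1 - t : ℂ)) := by
        rw [one_sub_div hμ]
        congr 1
        ring
      rw [e1, norm_div, norm_div, norm_neg, norm_one]
      refine div_le_div_of_nonneg_right ?_ (norm_nonneg _)
      have e2 : z + (1 - z) * (t : ℂ) = (1 - ((1 - t : ℝ) : ℂ)) + ((1 - t : ℝ) : ℂ) * z := by
        push_cast
        ring
      rw [e2]
      exact hnorm (1 - t) (by linarith) (by linarith))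
    rw [← hE, hv1] at h3
    exact h3.symm

end Pointwise

/-! ### the spectral idempotent -/

section Fun

variable {ι : Type*} [Fintype ι] [DecidableEq ι] {n : ℕ}

lemma mev_map_injY (A : Matrix ι ι (Sm n)) (p : Fin (n + 1) → ℝ) :
    mev p (A.map injY) = mev (Fin.tail p : Fin n → ℝ) A := rfl

lemma mev_mul' (x : Fin n → ℝ) (A B : Matrix ι ι (Sm n)) : mev x (A * B) = mev x A * mev x B :=
  map_mul (((Sm.ev x : Sm n →⋆ₐ[ℂ] ℂ) : Sm n →+* ℂ).mapMatrix) A B

lemma mev_sub' (x : Fin n → ℝ) (A B : Matrix ι ι (Sm n)) : mev x (A - B) = mev x A - mev x B :=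
  map_sub (((Sm.ev x : Sm n →⋆ₐ[ℂ] ℂ) : Sm n →+* ℂ).mapMatrix) A B

lemma mev_add' (x : Fin n → ℝ) (A B : Matrix ι ι (Sm n)) : mev x (A + B) = mev x A + mev x B :=
  map_add (((Sm.ev x : Sm n →⋆ₐ[ℂ] ℂ) : Sm n →+* ℂ).mapMatrix) A B

lemma mev_one' (x : Fin n → ℝ) : mev x (1 : Matrix ι ι (Sm n)) = 1 :=
  map_one (((Sm.ev x : Sm n →⋆ₐ[ℂ] ℂ) : Sm n →+* ℂ).mapMatrix)

lemma mev_smul' (x : Fin n → ℝ) (f : Sm n) (A : Matrix ι ι (Sm n)) :
    mev x (f • A) = f.1 x • mev x A := rfl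

lemma mat_ext_mev {κ : Type*} {A B : Matrix ι κ (Sm n)} (h : ∀ x, mev x A = mev x B) : A = B := by
  ext1 i j
  apply Subtype.ext
  funext x
  exact congrFun (congrFun (h x) i) j

lemma map_injY_one : (1 : Matrix ι ι (Sm n)).map (injY (n := n)) = 1 :=
  map_one (((injY : Sm n →⋆ₐ[ℂ] Sm (n + 1)) : Sm n →+* Sm (n + 1)).mapMatrix)

lemma map_injY_sub (A B : Matrix ι ι (Sm n)) :
    (A - B).map (injY (n := n)) = A.map injY - B.map injY :=
  map_sub (((injY : Sm n →⋆ₐ[ℂ] Sm (n + 1)) : Sm n →+* Sm (n + 1)).mapMatrix) A B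

lemma map_injY_mul (A B : Matrix ι ι (Sm n)) :
    (A * B).map (injY (n := n)) = A.map injY * B.map injY :=
  map_mul (((injY : Sm n →⋆ₐ[ℂ] Sm (n + 1)) : Sm n →+* Sm (n + 1)).mapMatrix) A B

/-- the Fourier coefficients of the inverse pencil -/
theorem pencilPt (b : Matrix ι ι (Sm n)) (g : (Matrix ι ι (Sm (n + 1)))ˣ)
    (hg : (g : Matrix ι ι (Sm (n + 1))) =
      (zm 1 : Sm (n + 1)) • (1 - b.map injY) + b.map injY) (y : Fin n → ℝ) :
    PencilPt (mev y b) (fun m => mev y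
      (((g⁻¹ : (Matrix ι ι (Sm (n + 1)))ˣ) : Matrix ι ι (Sm (n + 1))).map (fc m))) := by
  set R : Matrix ι ι (Sm (n + 1)) := ((g⁻¹ : (Matrix ι ι (Sm (n + 1)))ˣ) : Matrix ι ι (Sm (n + 1))) with hR
  have h1 : (g : Matrix ι ι (Sm (n + 1))) * R = 1 := Units.mul_inv g
  have h2 : R * (g : Matrix ι ι (Sm (n + 1))) = 1 := Units.inv_mul g
  have hc : b.map injY * R = R * b.map injY := by
    have h3 : (g : Matrix ι ι (Sm (n + 1))) * b.map injY = b.map injY * g := by
      rw [hg, add_mul, mul_add, Matrix.smul_mul, Matrix.mul_smul, sub_mul, mul_sub, one_mul,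
        mul_one]
    calc b.map injY * R = (R * (g : Matrix ι ι (Sm (n + 1)))) * (b.map injY * R) := by
          rw [h2, one_mul]
      _ = R * (((g : Matrix ι ι (Sm (n + 1))) * b.map injY) * R) := by
          simp only [mul_assoc]
      _ = R * ((b.map injY * g) * R) := by rw [h3]
      _ = R * b.map injY * (g * R) := by simp only [mul_assoc]
      _ = R * b.map injY := by rw [h1, mul_one]
  refine ⟨fun m => ?_, fun m => ?_, fun i j => ?_, fun i j => ?_⟩
  · rw [← mev_mul', ← mev_mul', ← map_fc_injY_mul, hc, map_fc_mul_injY]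
  · have h4 : ((g : Matrix ι ι (Sm (n + 1))) * R).map (fc m) =
        (1 : Matrix ι ι (Sm (n + 1))).map (fc m) := by rw [h1]
    rw [hg, add_mul, Matrix.smul_mul, map_fc_add, map_fc_zm_smul, ← map_injY_one,
      ← map_injY_sub, map_fc_injY_mul, map_fc_injY_mul, map_injY_one, map_fc_one] at h4
    have h5 := congrArg (mev y) h4
    rw [mev_add', mev_mul', mev_mul', mev_sub', mev_one'] at h5
    rw [h5]
    split_ifs
    · exact mev_one' y
    · rfl
  · exact (fc_tendsto (R i j) y).1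
  · exact (fc_tendsto (R i j) y).2

/-- **the pencil is homotopic to a Bott loop** -/
theorem oddT_pencil (hn : Odd (n + 1)) (b : Matrix ι ι (Sm n)) (g : (Matrix ι ι (Sm (n + 1)))ˣ)
    (hg : (g : Matrix ι ι (Sm (n + 1))) =
      (zm 1 : Sm (n + 1)) • (1 - b.map injY) + b.map injY) :
    ∃ E : Matrix ι ι (Sm n), E * E = E ∧ ∀ u : (Matrix ι ι (Sm (n + 1)))ˣ,
      (u : Matrix ι ι (Sm (n + 1))) = 1 + ((zm 1 : Sm (n + 1)) - 1) • E.map injY →
      (matCalc ι (n + 1)).oddT g = (matCalc ι (n + 1)).oddT u := by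
  let R : Matrix ι ι (Sm (n + 1)) := ((g⁻¹ : (Matrix ι ι (Sm (n + 1)))ˣ) : Matrix ι ι (Sm (n + 1)))
  let E : Matrix ι ι (Sm n) := (1 - b) * R.map (fc (-1))
  have hE : ∀ y, mev y E = (1 - mev y b) * mev y (R.map (fc (-1))) := by
    intro y
    rw [mev_mul', mev_sub', mev_one']
  refine ⟨E, ?_, fun u hu => ?_⟩
  · apply mat_ext_mev
    intro y
    rw [mev_mul', hE]
    exact (pencilPt b g hg y).E_idem
  · apply oddT_line hn
    intro p t ht
    have hp := pencilPt b g hg (Fin.tail p : Fin n → ℝ)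
    have hz : ‖(zm 1 : Sm (n + 1)).1 p‖ = 1 := zm_norm 1 p
    set z : ℂ := (zm 1 : Sm (n + 1)).1 p with hzdef
    set y : Fin n → ℝ := Fin.tail p with hy
    have e1 : mev p (g : Matrix ι ι (Sm (n + 1))) = z • (1 - mev y b) + mev y b := by
      rw [hg, mev_add', mev_smul', mev_sub', mev_one', mev_map_injY]
    have e2 : mev p (u : Matrix ι ι (Sm (n + 1))) = 1 + (z - 1) • mev y E := by
      rw [hu, mev_add', mev_smul', mev_one', mev_map_injY]
      rfl
    have e3 : (1 - (t : ℂ)) • mev p (g : Matrix ι ι (Sm (n + 1))) +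
        (t : ℂ) • mev p (u : Matrix ι ι (Sm (n + 1))) =
        (z • (1 - ((1 - t : ℂ) • mev y b + (t : ℂ) • (1 - mev y E))) +
        ((1 - t : ℂ) • mev y b + (t : ℂ) • (1 - mev y E))) := by
      rw [e1, e2]
      module
    rw [e3, hE]
    rw [Matrix.isUnit_iff_isUnit_det, isUnit_iff_ne_zero]
    intro hdet
    obtain ⟨v, hv0, hv⟩ := Matrix.exists_mulVec_eq_zero_iff.mpr hdet
    exact hv0 (hp.ker ht.1 ht.2 hz hv)

end Fun

end Pool.Agent.PD4.IxB
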