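import Pool.Agent.PD4.IxB.ALin

/-!
# Project PD4, second proof of integrality: constant base idempotent

`E` idempotent over `Sm (n+1)`, `F = E` at `x_0 = 0`.  With `q = [[F, -(1-F)], [1-F, F]]`,
`q⁻¹ = [[F, 1-F], [-(1-F), F]]` one has `q (1 ⊕ 0) q⁻¹ = F ⊕ (1-F)`; the idempotent
`Ê = q⁻¹ (E ⊕ (1-F)) q` equals `1 ⊕ 0` at `x_0 = 0`.  The rotation path
`q_φ = [[F + cos φ (1-F), - sin φ (1-F)], [sin φ (1-F), F + cos φ (1-F)]]`, `q_φ⁻¹ = q_{-φ}`,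
`evenT_path`, `evenT_fromBlocks`, `evenT_eq_zero` and `pD_injY` give `evenT Ê = evenT E`.
-/

open MeasureTheory
open scoped ContDiff

namespace Pool.Agent.PD4.IxB

variable {ι : Type*} [Fintype ι] [DecidableEq ι] {n : ℕ}

theorem base_const (hn : Even (n + 1)) (E : Matrix ι ι (Sm (n + 1))) (hE : E * E = E) :
    ∃ Ê : Matrix (ι ⊕ ι) (ι ⊕ ι) (Sm (n + 1)), Ê * Ê = Ê ∧
      Ê.map (sl 0) = Matrix.fromBlocks 1 0 0 0 ∧
      (matCalc (ι ⊕ ι) (n + 1)).evenT Ê = (matCalc ι (n + 1)).evenT E := by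
  sorry

end Pool.Agent.PD4.IxB
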