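import Pool.Agent.PD4.IxB.Formal

/-!
# Project PD4, second proof of integrality: the constant `∫₀¹ (t² - t)^m dt`
-/

open Polynomial

namespace Pool.Agent.PD4.IxB

/-- the linear functional `p ↦ ∫₀¹ p` -/
noncomputable def intF : ℂ[X] →ₗ[ℂ] ℂ :=
  Polynomial.lsum (fun j : ℕ => (1 / ((j : ℂ) + 1)) • (LinearMap.id : ℂ →ₗ[ℂ] ℂ))

lemma intF_apply (p : ℂ[X]) : intF p = p.sum (fun j a => (1 / ((j : ℂ) + 1)) * a) := by
  unfold intF
  rw [Polynomial.lsum_apply]
  rfl

lemma intF_monomial (j : ℕ) (a : ℂ) : intF (monomial j a) = (1 / ((j : ℂ) + 1)) * a := by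
  rw [intF_apply]
  exact Polynomial.sum_monomial_index a _ (mul_zero _)

lemma intF_derivative (p : ℂ[X]) : intF (derivative p) = p.eval 1 - p.eval 0 := by
  induction p using Polynomial.induction_on' with
  | add p q hp hq =>
    rw [derivative_add, map_add, hp, hq, eval_add, eval_add]
    ring
  | monomial j a =>
    rw [derivative_monomial, intF_monomial, eval_monomial, eval_monomial]
    rcases Nat.eq_zero_or_pos j with rfl | hj
    · simp
    · have h1 : ((j - 1 : ℕ) : ℂ) + 1 = (j : ℂ) := by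
        have : j - 1 + 1 = j := Nat.sub_add_cancel hj
        exact_mod_cast congrArg (fun k : ℕ => (k : ℂ)) this
      have h2 : (j : ℂ) ≠ 0 := Nat.cast_ne_zero.mpr hj.ne'
      rw [h1, one_pow, zero_pow hj.ne', mul_zero, sub_zero, mul_one]
      field_simp

lemma beta_eq_intF (m : ℕ) : beta m = intF ((X ^ 2 - X : ℂ[X]) ^ m) := by
  have hd : ((X ^ 2 - X : ℂ[X]) ^ m).natDegree < 2 * m + 1 := by
    have h1 : (X ^ 2 - X : ℂ[X]).natDegree ≤ 2 := by
      compute_degree
    have h2 := Polynomial.natDegree_pow_le (p := (X ^ 2 - X : ℂ[X])) (n := m)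
    have h3 : m * (X ^ 2 - X : ℂ[X]).natDegree ≤ m * 2 := Nat.mul_le_mul_left _ h1
    omega
  rw [intF_apply, Polynomial.sum_over_range' _ (fun j => mul_zero _) _ hd]
  rfl

lemma beta_rec (m : ℕ) : (2 * (2 * (m : ℂ) + 3)) * beta (m + 1) = - ((m : ℂ) + 1) * beta m := by
  have h := intF_derivative ((2 * X - 1) * (X ^ 2 - X : ℂ[X]) ^ (m + 1))
  have e1 : derivative ((2 * X - 1) * (X ^ 2 - X : ℂ[X]) ^ (m + 1)) =
      (2 * (2 * (m : ℂ) + 3)) • (X ^ 2 - X : ℂ[X]) ^ (m + 1) +
        ((m : ℂ) + 1) • (X ^ 2 - X : ℂ[X]) ^ m := by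
    rw [derivative_mul, derivative_pow_succ, smul_eq_C_mul, smul_eq_C_mul]
    simp only [derivative_sub, derivative_mul, derivative_ofNat, derivative_X, derivative_one,
      derivative_X_pow, C_mul, C_add, C_ofNat, map_natCast, C_1]
    push_cast
    ring
  rw [e1, map_add, map_smul, map_smul, ← beta_eq_intF, ← beta_eq_intF] at h
  have e2 : ((2 * X - 1) * (X ^ 2 - X : ℂ[X]) ^ (m + 1)).eval 1 = 0 := by
    simp
  have e3 : ((2 * X - 1) * (X ^ 2 - X : ℂ[X]) ^ (m + 1)).eval 0 = 0 := by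
    simp
  rw [e2, e3, smul_eq_mul, smul_eq_mul] at h
  linear_combination h

theorem beta_eq (m : ℕ) :
    beta m = (-1) ^ m * ((m.factorial : ℂ) ^ 2 / ((2 * m + 1).factorial : ℂ)) := by
  induction m with
  | zero =>
    rw [beta_eq_intF, pow_zero]
    have : (1 : ℂ[X]) = monomial 0 1 := by simp
    rw [this, intF_monomial]
    simp
  | succ m ih =>
    have h := beta_rec m
    rw [ih] at h
    have h1 : ((2 * m + 1).factorial : ℂ) ≠ 0 := Nat.cast_ne_zero.mpr (Nat.factorial_ne_zero _)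
    have h2 : (2 * (2 * (m : ℂ) + 3)) ≠ 0 := by
      have : ((2 * (2 * m + 3) : ℕ) : ℂ) ≠ 0 := Nat.cast_ne_zero.mpr (by omega)
      push_cast at this
      exact this
    have h3 : ((2 * (m + 1) + 1).factorial : ℂ) =
        (2 * (m : ℂ) + 3) * ((2 * ((m : ℂ) + 1)) * ((2 * m + 1).factorial : ℂ)) := by
      have e : 2 * (m + 1) + 1 = (2 * m + 1) + 1 + 1 := by ring
      rw [e, Nat.factorial_succ, Nat.factorial_succ]
      push_cast
      ring
    have h4 : ((m + 1).factorial : ℂ) = ((m : ℂ) + 1) * (m.factorial : ℂ) := by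
      rw [Nat.factorial_succ]
      push_cast
      ring
    have h5 : (2 * (m : ℂ) + 3) ≠ 0 := by
      have : ((2 * m + 3 : ℕ) : ℂ) ≠ 0 := Nat.cast_ne_zero.mpr (by omega)
      push_cast at this
      exact this
    have h6 : ((m : ℂ) + 1) ≠ 0 := Nat.cast_add_one_ne_zero m
    apply mul_left_cancel₀ h2
    rw [h, h3, h4, pow_succ (-1 : ℂ) m]
    generalize ((2 * m + 1).factorial : ℂ) = F at *
    generalize (m.factorial : ℂ) = f at *
    generalize ((-1 : ℂ) ^ m) = s at *
    generalize (m : ℂ) = x at *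
    have e : s * -1 * (((x + 1) * f) ^ 2 / ((2 * x + 3) * (2 * (x + 1) * F))) =
        (- (s * (x + 1) * f ^ 2) / (2 * F)) / (2 * x + 3) := by
      rw [div_div, mul_div_assoc', div_eq_div_iff (mul_ne_zero h5 (mul_ne_zero (mul_ne_zero two_ne_zero h6) h1))
        (mul_ne_zero (mul_ne_zero two_ne_zero h1) h5)]
      ring
    rw [e]
    clear e h ih h3 h4 h2
    generalize 2 * x + 3 = y at *
    field_simp

end Pool.Agent.PD4.IxB
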