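import Pool.Agent.PD4.Ix.Ext2

/-!
# Project PD4, second proof of integrality: formal part (helper70)

Slices of the odd and of the even integrand, Chern–Simons identity.
-/

open TensorProduct

namespace Pool.Agent.PD4.IxB

section slices

variable {R : Type*} [Ring R] [Algebra ℂ R] {n : ℕ}

lemma od_u (C : Calc R (n + 1)) (a : R) :
    C.dgt.Od (odx 0 * omS n (a ⊗ₜ[ℂ] (1 : Ext n))) := by
  show grO _ = - _
  rw [map_mul, grO_omS]
  unfold odx
  rw [grO_tmul, grO_tmul, gr_dx, map_one, TensorProduct.tmul_neg, neg_mul]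

/-- the odd integrand in `n+1` variables (`n` even) in terms of the last `n` variables -/
theorem oddT_slice (C : Calc R (n + 1)) (hn : Even n) (G : Rˣ) :
    C.oddT G = ((n : ℂ) + 1) * C.tail.TT
      ((((G⁻¹ : Rˣ) : R) * C.D 0 (G : R)) ⊗ₜ[ℂ] (1 : Ext n) * C.tail.mc G ^ n) := by
  rw [C.oddT_mc, omS_mc]
  have hB : C.dgt.Od (omS n (C.tail.mc G)) := by
    show grO (omS n (C.tail.mc G)) = - omS n (C.tail.mc G)
    rw [grO_omS, grO_mc, map_neg]
  have h := C.dgt.T_pow_add (fun z => odx_nil _ _ z) hB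
    (od_u C (((G⁻¹ : Rˣ) : R) * C.D 0 (G : R))) hn.add_one
  have hT : C.dgt.T = C.TT := rfl
  rw [hT] at h
  rw [h, ← map_pow, C.TT_omS, zero_add]
  have e1 : n + 1 - 1 = n := by omega
  rw [e1, mul_assoc, ← map_pow, ← map_mul, C.TT_odx_omS]
  push_cast
  rfl

lemma dd_split (C : Calc R (n + 1)) (e : R) :
    C.dd (e ⊗ₜ[ℂ] (1 : Ext (n + 1))) = omS n (C.tail.dd (e ⊗ₜ[ℂ] (1 : Ext n))) +
      odx 0 * omS n (C.D 0 e ⊗ₜ[ℂ] (1 : Ext n)) := by
  rw [C.dd_tmul, C.tail.dd_tmul, Fin.sum_univ_succ, map_sum,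
    add_comm ((C.D 0) e ⊗ₜ[ℂ] (dx 0 * 1 : Ext (n + 1)))]
  congr 1
  · refine Finset.sum_congr rfl fun i _ => ?_
    rw [omS_tmul, map_mul, extS_dx, map_one]
    rfl
  · unfold odx
    rw [omS_tmul, Algebra.TensorProduct.tmul_mul_tmul, one_mul, map_one]

/-- the even integrand in `2k+2` variables in terms of the last `2k+1` variables -/
theorem evenT_slice {k : ℕ} (C : Calc R (2 * k + 1 + 1)) (e : R) (he : e * e = e) :
    C.evenT e = ((k : ℂ) + 1) * C.tail.TT
      ((C.D 0 e * (1 - 2 * e)) ⊗ₜ[ℂ] (1 : Ext (2 * k + 1)) *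
        C.tail.dd (e ⊗ₜ[ℂ] (1 : Ext (2 * k + 1))) ^ (2 * k + 1)) := by
  set E : Om R (2 * k + 1) := e ⊗ₜ[ℂ] (1 : Ext (2 * k + 1)) with hE
  set B : Om R (2 * k + 1) := C.tail.dd E with hB
  have hEE : E * E = E := by
    rw [hE, Algebra.TensorProduct.tmul_mul_tmul, he, one_mul]
  have hEe : C.tail.dgt.Ev E := by
    show grO E = E
    rw [hE, grO_tmul, map_one]
  have hBo : C.tail.dgt.Od B := hEe.d
  have hdE : B = B * E + E * B := by
    have := hEe.leib E
    rw [hEE] at this
    exact this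
  have hswap : B * E = (1 - E) * B := by
    rw [sub_mul, one_mul]
    exact eq_sub_of_add_eq hdE.symm
  have hswap' : E * B = B * (1 - E) := by
    rw [mul_sub, mul_one]
    exact eq_sub_of_add_eq ((add_comm (E * B) (B * E)).trans hdE.symm)
  -- moving `E` through powers of `B`
  have hpe : ∀ i : ℕ, B ^ (2 * i) * E = E * B ^ (2 * i) := by
    intro i
    have h2 : Commute (B ^ 2) E := by
      show B ^ 2 * E = E * B ^ 2
      rw [pow_two, mul_assoc, hswap, ← mul_assoc, mul_sub, mul_one, hswap, ← mul_assoc, hswap',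
        mul_sub, mul_one, hswap]
    rw [pow_mul]
    exact h2.pow_left i
  have hpo : ∀ i : ℕ, B ^ (2 * i + 1) * E = (1 - E) * B ^ (2 * i + 1) := by
    intro i
    rw [pow_succ, mul_assoc, hswap, ← mul_assoc, mul_sub, mul_one, hpe, sub_mul, sub_mul, one_mul,
      mul_assoc]
  unfold Calc.evenT
  have e0 : (e ⊗ₜ[ℂ] (1 : Ext (2 * k + 1 + 1)) : Om R (2 * k + 1 + 1)) = omS (2 * k + 1) E := by
    rw [hE, omS_tmul, map_one]
  rw [dd_split, ← hE, ← hB, e0]
  set u : Om R (2 * k + 1 + 1) := odx 0 * omS (2 * k + 1) (C.D 0 e ⊗ₜ[ℂ] (1 : Ext (2 * k + 1)))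
    with hu
  rw [pow_add_nil _ _ (fun z => odx_nil _ _ z), mul_add, map_add, ← map_pow, ← map_mul, C.TT_omS,
    zero_add, Finset.mul_sum, map_sum]
  set a : Om R (2 * k + 1) := C.D 0 e ⊗ₜ[ℂ] (1 : Ext (2 * k + 1)) with ha
  have hu' : C.dgt.Od u := od_u C _
  have hOB : C.dgt.Od (omS (2 * k + 1) B) := by
    show grO _ = - _
    rw [grO_omS]
    have : grO B = - B := hBo
    rw [this, map_neg]
  have hOE : C.dgt.Ev (omS (2 * k + 1) E) := by
    show grO _ = _
    rw [grO_omS]
    have : grO E = E := hEe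
    rw [this]
  have hT : C.dgt.T = C.TT := rfl
  have key : ∀ j ∈ Finset.range (2 * k + 1 + 1),
      C.TT (omS (2 * k + 1) E * (omS (2 * k + 1) B ^ j * u *
        omS (2 * k + 1) B ^ (2 * k + 1 + 1 - 1 - j))) =
      if Even j then C.tail.TT (a * (1 - E) * B ^ (2 * k + 1))
        else - C.tail.TT (a * E * B ^ (2 * k + 1)) := by
    intro j hj
    have hj' := Finset.mem_range.mp hj
    rcases Nat.even_or_odd' j with ⟨i, rfl | rfl⟩
    · rw [if_pos (even_two_mul i)]
      have h1 : C.dgt.Ev (omS (2 * k + 1) E * omS (2 * k + 1) B ^ (2 * i)) :=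
        hOE.mul (hOB.pow_even i)
      have e1 : 2 * k + 1 + 1 - 1 - 2 * i = 2 * (k - i) + 1 := by omega
      have e2 : omS (2 * k + 1) E * (omS (2 * k + 1) B ^ (2 * i) * u *
          omS (2 * k + 1) B ^ (2 * (k - i) + 1)) =
          (omS (2 * k + 1) E * omS (2 * k + 1) B ^ (2 * i)) *
            (u * omS (2 * k + 1) B ^ (2 * (k - i) + 1)) := by noncomm_ring
      rw [e1, e2, ← hT, h1.cyc, hT, ← C.TT_odx_omS, hu]
      congr 1
      have e3 : odx 0 * omS (2 * k + 1) a * omS (2 * k + 1) B ^ (2 * (k - i) + 1) *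
          (omS (2 * k + 1) E * omS (2 * k + 1) B ^ (2 * i)) =
          odx 0 * omS (2 * k + 1) (a * (B ^ (2 * (k - i) + 1) * E * B ^ (2 * i))) := by
        simp only [map_mul, map_pow, mul_assoc]
      rw [e3, hpo, mul_assoc (1 - E), ← pow_add, ← mul_assoc]
      congr 4
      omega
    · rw [if_neg (by simp)]
      have h1 : C.dgt.Od (omS (2 * k + 1) E * omS (2 * k + 1) B ^ (2 * i + 1)) :=
        hOE.mulOd (hOB.pow_odd i)
      have e1 : 2 * k + 1 + 1 - 1 - (2 * i + 1) = 2 * (k - i) := by omega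
      have h2 : C.dgt.Od (u * omS (2 * k + 1) B ^ (2 * (k - i))) := hu'.mulEv (hOB.pow_even _)
      have e2 : omS (2 * k + 1) E * (omS (2 * k + 1) B ^ (2 * i + 1) * u *
          omS (2 * k + 1) B ^ (2 * (k - i))) =
          (omS (2 * k + 1) E * omS (2 * k + 1) B ^ (2 * i + 1)) *
            (u * omS (2 * k + 1) B ^ (2 * (k - i))) := by noncomm_ring
      rw [e1, e2, ← hT, h1.cyc h2, hT, ← C.TT_odx_omS, hu]
      congr 2
      have e3 : odx 0 * omS (2 * k + 1) a * omS (2 * k + 1) B ^ (2 * (k - i)) *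
          (omS (2 * k + 1) E * omS (2 * k + 1) B ^ (2 * i + 1)) =
          odx 0 * omS (2 * k + 1) (a * (B ^ (2 * (k - i)) * E * B ^ (2 * i + 1))) := by
        simp only [map_mul, map_pow, mul_assoc]
      rw [e3, hpe, mul_assoc E, ← pow_add, ← mul_assoc]
      congr 4
      omega
  rw [Finset.sum_congr rfl key]
  have hcount : ∀ (x y : ℂ) (m : ℕ), ∑ j ∈ Finset.range (2 * m + 1 + 1), (if Even j then x else y) =
      ((m : ℂ) + 1) * (x + y) := by
    intro x y m
    induction m with
    | zero => simp [Finset.sum_range_succ]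
    | succ m ih =>
      have e4 : 2 * (m + 1) + 1 + 1 = (2 * m + 1 + 1) + 1 + 1 := by ring
      rw [e4, Finset.sum_range_succ, Finset.sum_range_succ, ih,
        if_pos (by exact ⟨m + 1, by ring⟩),
        if_neg (by rw [Nat.not_even_iff_odd]; exact ⟨m + 1, by ring⟩)]
      push_cast
      ring
  rw [hcount, ← sub_eq_add_neg, ← map_sub, ← sub_mul, ← mul_sub]
  congr 4
  rw [ha, hE]
  have e5 : (1 - e ⊗ₜ[ℂ] (1 : Ext (2 * k + 1)) - e ⊗ₜ[ℂ] (1 : Ext (2 * k + 1)) :
      Om R (2 * k + 1)) = (1 - 2 * e) ⊗ₜ[ℂ] (1 : Ext (2 * k + 1)) := by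
    rw [Algebra.TensorProduct.one_def, ← TensorProduct.sub_tmul, ← TensorProduct.sub_tmul]
    congr 1
    noncomm_ring
  rw [e5, Algebra.TensorProduct.tmul_mul_tmul, one_mul]

end slices

section cs

variable {Ω : Type*} [Ring Ω] [Algebra ℂ Ω] (S : DGT Ω)

/-- curvature -/
def curv (B : Ω) : Ω := S.d B + B * B

variable {S}

lemma curv_ev {B : Ω} (hB : S.Od B) : S.Ev (curv S B) := hB.d.add (hB.mul hB)

/-- Bianchi identity -/
lemma d_curv {B : Ω} (hB : S.Od B) : S.d (curv S B) = curv S B * B - B * curv S B := by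
  unfold curv
  rw [map_add, S.dd, hB.leib]
  noncomm_ring

lemma d_curv_pow {B : Ω} (hB : S.Od B) (i : ℕ) :
    S.d (curv S B ^ i) = curv S B ^ i * B - B * curv S B ^ i := by
  induction i with
  | zero => rw [pow_zero, S.d_one, one_mul, mul_one, sub_self]
  | succ i ih =>
    rw [pow_succ, ((curv_ev hB).pow i).leib, ih, d_curv hB]
    noncomm_ring

/-- integration by parts for the covariant derivative -/
lemma nabla_parts {B α β : Ω} (hB : S.Od B) (hα : S.Od α) (hβ : S.Od β) (i j : ℕ) :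
    S.T ((S.d α + (B * α + α * B)) * curv S B ^ i * β * curv S B ^ j) =
      S.T (α * curv S B ^ i * (S.d β + (B * β + β * B)) * curv S B ^ j) := by
  have hi : S.Ev (curv S B ^ i) := (curv_ev hB).pow i
  have hj : S.Ev (curv S B ^ j) := (curv_ev hB).pow j
  have hdi := d_curv_pow hB i
  have hdj := d_curv_pow hB j
  generalize curv S B ^ i = P at hi hdi ⊢
  generalize curv S B ^ j = Q at hj hdj ⊢
  have hw : S.Ev (α * P * β * Q) := ((hα.mulEv hi).mul hβ).mul hj
  have h1 : S.d (α * P * β * Q) = S.d α * P * β * Q - α * (P * B - B * P) * β * Q -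
      α * P * S.d β * Q + α * P * β * (Q * B - B * Q) := by
    rw [((hα.mulEv hi).mul hβ).leib, (hα.mulEv hi).leib, hα.leib, hdi, hdj]
    noncomm_ring
  have h2 := S.Td (α * P * β * Q)
  have h3 := hw.cyc' B
  have h4 : (S.d α + (B * α + α * B)) * P * β * Q =
      S.d (α * P * β * Q) + B * (α * P * β * Q) - (α * P * β * Q) * B +
        α * P * (S.d β + (B * β + β * B)) * Q := by
    rw [h1]
    noncomm_ring
  rw [h4, map_add, map_sub, map_add, h2, h3]
  ring

/-- the derivative of `T (B R_t^m)`, `R_t` the curvature of `t B` -/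
theorem cs_point (X : S.EvenDer) {B : Ω} (hB : S.Od B) (t : ℂ) (m : ℕ) :
    S.T (X.D (B * curv S (t • B) ^ m)) = S.T (X.D B * curv S (t • B) ^ m) +
      t * S.T (X.D B * ∑ i ∈ Finset.range m, curv S (t • B) ^ i *
        (S.d B + (2 * t) • (B * B)) * curv S (t • B) ^ (m - 1 - i)) := by
  have htB : S.Od (t • B) := hB.smul t
  have hα : S.Od (X.D B) := hB.D X
  rw [X.leib, map_add, X.D_pow]
  congr 1
  have hXR : X.D (curv S (t • B)) = t • (S.d (X.D B) + ((t • B) * X.D B + X.D B * (t • B))) := by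
    unfold curv
    rw [map_add, ← X.Dd, map_smul, X.leib, map_smul, map_smul, smul_add]
    congr 1
    simp only [smul_mul_assoc, mul_smul_comm, smul_add]
    exact add_comm _ _
  rw [hXR, Finset.mul_sum, Finset.mul_sum, map_sum, map_sum, Finset.mul_sum,
    ← Finset.sum_range_reflect]
  refine Finset.sum_congr rfl fun i hi => ?_
  have hi' := Finset.mem_range.mp hi
  have e1 : m - 1 - (m - 1 - i) = i := by omega
  rw [e1]
  have h := nabla_parts htB hα hB i (m - 1 - i)
  have e2 : S.d B + ((t • B) * B + B * (t • B)) = S.d B + (2 * t) • (B * B) := by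
    rw [smul_mul_assoc, mul_smul_comm, ← add_smul, two_mul]
  rw [e2] at h
  have hev : S.Ev ((S.d (X.D B) + ((t • B) * X.D B + X.D B * (t • B))) *
      curv S (t • B) ^ i) :=
    (hα.d.add ((htB.mul hα).add (hα.mul htB))).mul ((curv_ev htB).pow i)
  have e3 : B * (curv S (t • B) ^ (m - 1 - i) *
      (t • (S.d (X.D B) + ((t • B) * X.D B + X.D B * (t • B)))) * curv S (t • B) ^ i) =
      t • ((B * curv S (t • B) ^ (m - 1 - i)) *
        ((S.d (X.D B) + ((t • B) * X.D B + X.D B * (t • B))) * curv S (t • B) ^ i)) := by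
    simp only [mul_smul_comm, smul_mul_assoc, mul_assoc]
  rw [e3, map_smul, smul_eq_mul, hev.cyc', ← mul_assoc, h, ← mul_assoc, ← mul_assoc]

end cs


section gauge

variable {Ω : Type*} [Ring Ω] [Algebra ℂ Ω] {S : DGT Ω}

/-- **the even integrand of a conjugated constant idempotent** `F = h p h⁻¹` in terms of the
connection `B = p (h⁻¹ dh) p` -/
theorem gauge_even (X : S.EvenDer) {h h' p : Ω} (h1 : h * h' = 1) (h2 : h' * h = 1)
    (hh : S.Ev h) (hp : S.Ev p) (hpp : p * p = p) (hdp : S.d p = 0) (hXp : X.D p = 0) (k : ℕ) :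
    S.T (X.D (p * (h' * S.d h) * p) * curv S (p * (h' * S.d h) * p) ^ k) =
      S.T (X.D (h * p * h') * (1 - 2 * (h * p * h')) * S.d (h * p * h') ^ (2 * k + 1)) := by
  have hh' : S.Ev h' := S.γ_inv h1 h2 hh
  have hXh' : X.D h' = - (h' * X.D h * h') := by
    have e := X.leib h' h
    rw [h2, X.D_one] at e
    have e4 : X.D h' * h = - (h' * X.D h) := eq_neg_of_add_eq_zero_left e.symm
    calc X.D h' = X.D h' * (h * h') := by rw [h1, mul_one]
      _ = (X.D h' * h) * h' := by rw [mul_assoc]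
      _ = _ := by rw [e4, neg_mul]
  have hdh' := S.d_inv h1 h2 hh
  have hA : S.Od (h' * S.d h) := hh'.mulOd hh.d
  have ha : S.Ev (h' * X.D h) := hh'.mul (hh.D X)
  have hdA := S.d_mc h1 h2 hh
  have hXA := X.D_mc h1 h2 hh
  have hdh : S.d h = h * (h' * S.d h) := by rw [← mul_assoc, h1, one_mul]
  have hXh : X.D h = h * (h' * X.D h) := by rw [← mul_assoc, h1, one_mul]
  generalize h' * S.d h = A at *
  generalize h' * X.D h = a at *
  obtain ⟨N, hN⟩ : ∃ N, N = A * p - p * A := ⟨_, rfl⟩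
  -- derivatives of `F`
  have hdF : S.d (h * p * h') = h * N * h' := by
    rw [(hh.mul hp).leib, hh.leib, hdp, hdh', hdh, mul_zero, add_zero, hN]
    noncomm_ring
  have hXF : X.D (h * p * h') = h * (a * p - p * a) * h' := by
    rw [X.leib, X.leib, hXp, hXh', hXh, mul_zero, add_zero]
    noncomm_ring
  have hpow : ∀ m : ℕ, (h * N * h') ^ m = h * N ^ m * h' := by
    intro m
    induction m with
    | zero => rw [pow_zero, pow_zero, mul_one, h1]
    | succ m ih =>
      rw [pow_succ, ih, pow_succ]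
      calc h * N ^ m * h' * (h * N * h') = h * N ^ m * (h' * h) * N * h' := by noncomm_ring
        _ = _ := by rw [h2]; noncomm_ring
  have hNo : S.Od N := by
    rw [hN]
    exact (hA.mulEv hp).sub (hp.mulOd hA)
  -- `N` and `p`
  have hNp : p * N + N * p = N := by
    rw [hN]
    have e : p * (A * p - p * A) + (A * p - p * A) * p =
        A * (p * p) - (p * p) * A := by noncomm_ring
    rw [e, hpp]
  have hNp1 : N * p = (1 - p) * N := by
    rw [sub_mul, one_mul]
    exact eq_sub_of_add_eq ((add_comm (N * p) (p * N)).trans hNp)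
  have hpN1 : p * N = N * (1 - p) := by
    rw [mul_sub, mul_one]
    exact eq_sub_of_add_eq hNp
  have hN2 : N ^ 2 * p = p * N ^ 2 := by
    rw [pow_two, mul_assoc, hNp1, ← mul_assoc, mul_sub, mul_one, hNp1, ← mul_assoc, hpN1,
      mul_sub, mul_one, hNp1]
  have hN2k : ∀ i : ℕ, N ^ (2 * i) * p = p * N ^ (2 * i) := by
    intro i
    rw [pow_mul]
    exact (show Commute (N ^ 2) p from hN2).pow_left i
  have hNodd : p * N ^ (2 * k + 1) + N ^ (2 * k + 1) * p = N ^ (2 * k + 1) := by
    rw [pow_succ', mul_assoc N, hN2k k, ← mul_assoc, ← mul_assoc, ← add_mul, hNp]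
  have hNzero : p * N ^ (2 * k + 1) * p = 0 := by
    have e2 := congrArg (fun x => p * x) hNodd
    simp only [mul_add, ← mul_assoc, hpp] at e2
    exact add_left_cancel (e2.trans (add_zero _).symm)
  -- right-hand side
  have hR : S.T (X.D (h * p * h') * (1 - 2 * (h * p * h')) * S.d (h * p * h') ^ (2 * k + 1)) =
      - S.T (a * N ^ (2 * k + 1)) := by
    rw [hdF, hpow, hXF]
    have e1 : h * (a * p - p * a) * h' * (1 - 2 * (h * p * h')) * (h * N ^ (2 * k + 1) * h') =
        h * ((a * p - p * a) * (1 - 2 * p) * N ^ (2 * k + 1) * h') := by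
      have e2 : h * (a * p - p * a) * h' * (1 - 2 * (h * p * h')) * (h * N ^ (2 * k + 1) * h') =
        h * (a * p - p * a) * (h' * h - 2 * ((h' * h) * p * (h' * h))) * N ^ (2 * k + 1) * h' := by
        noncomm_ring
      rw [e2, h2]
      noncomm_ring
    rw [e1, hh.cyc, mul_assoc, h2, mul_one]
    have e3 : (a * p - p * a) * (1 - 2 * p) * N ^ (2 * k + 1) =
        - (a * (p * N ^ (2 * k + 1))) - p * (a * N ^ (2 * k + 1)) +
          2 * (p * (a * (p * N ^ (2 * k + 1)))) + 2 * (a * ((p - p * p) * N ^ (2 * k + 1))) := by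
      noncomm_ring
    have e4 : S.T (2 * (p * (a * (p * N ^ (2 * k + 1))))) = 0 := by
      rw [two_mul, map_add, hp.cyc, mul_assoc a, hNzero, mul_zero, map_zero, add_zero]
    rw [e3, hpp, sub_self, zero_mul, mul_zero, mul_zero, add_zero, map_add, e4, add_zero, map_sub,
      map_neg, hp.cyc, mul_assoc a, ← neg_add', ← map_add, ← mul_add, hNodd]
  -- left-hand side
  obtain ⟨B, hB⟩ : ∃ B, B = p * A * p := ⟨_, rfl⟩
  rw [← hB]
  have hXB : X.D B = p * (S.d a + A * a - a * A) * p := by
    rw [hB, X.leib, X.leib, hXp, hXA, zero_mul, zero_add, mul_zero, add_zero]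
  have hcurv : curv S B = p * N ^ 2 * p := by
    unfold curv
    rw [hB, (hp.mulOd hA).leib, hp.leib, hdp, zero_mul, zero_add, mul_zero, sub_zero, hdA, hN,
      pow_two]
    have e : p * -(A * A) * p + p * A * p * (p * A * p) =
        - (p * A * A * p) + p * A * (p * p) * A * p := by noncomm_ring
    have e' : p * ((A * p - p * A) * (A * p - p * A)) * p =
        p * A * p * A * (p * p) - p * A * (p * p) * A * p - (p * p) * A * A * (p * p) +
          (p * p) * A * p * A * p := by noncomm_ring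
    rw [e, e', hpp]
    noncomm_ring
  have hcp : ∀ i : ℕ, p * curv S B ^ i = p * N ^ (2 * i) := by
    intro i
    induction i with
    | zero => simp
    | succ i ih =>
      rw [pow_succ, ← mul_assoc, ih, hcurv]
      have e : p * N ^ (2 * i) * (p * N ^ 2 * p) = p * (N ^ (2 * i) * p) * (N ^ 2 * p) := by
        noncomm_ring
      calc p * N ^ (2 * i) * (p * N ^ 2 * p) = p * (N ^ (2 * i) * p) * (N ^ 2 * p) := e
        _ = p * (p * N ^ (2 * i)) * (p * N ^ 2) := by rw [hN2k i, hN2]
        _ = (p * p) * (N ^ (2 * i) * p) * N ^ 2 := by simp only [mul_assoc]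
        _ = (p * p) * (N ^ (2 * i) * N ^ 2) := by rw [hN2k i, hpp, ← mul_assoc, hpp, mul_assoc]
        _ = p * N ^ (2 * (i + 1)) := by rw [hpp, ← pow_add]; rfl
  have hW : S.Ev (p * N ^ (2 * k)) := hp.mul (hNo.pow_even k)
  have hdN2k : ∀ i : ℕ, S.d (N ^ (2 * i)) = N ^ (2 * i) * A - A * N ^ (2 * i) := by
    have hdN : S.d N = - (A * N + N * A) := by
      rw [hN, map_sub, hA.leib, hp.leib, hdp, hdA, mul_zero, zero_mul]
      noncomm_ring
    have hdN2 : S.d (N ^ 2) = N ^ 2 * A - A * N ^ 2 := by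
      rw [pow_two, hNo.leib, hdN]
      noncomm_ring
    intro i
    induction i with
    | zero => simp [S.d_one]
    | succ i ih =>
      have e : 2 * (i + 1) = 2 * i + 2 := by ring
      rw [e, pow_add, (hNo.pow_even i).leib, ih, hdN2]
      noncomm_ring
  have hL : S.T (X.D B * curv S B ^ k) = - S.T (a * N ^ (2 * k + 1)) := by
    have e1 : X.D B * curv S B ^ k = (p * (S.d a + A * a - a * A)) * (p * N ^ (2 * k)) := by
      rw [hXB, mul_assoc (p * (S.d a + A * a - a * A)), hcp]
    have e2 : S.T ((p * (S.d a + A * a - a * A)) * (p * N ^ (2 * k))) =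
        S.T ((S.d a + A * a - a * A) * (p * N ^ (2 * k))) := by
      rw [mul_assoc, hp.cyc, mul_assoc _ _ p, mul_assoc p, hN2k, ← mul_assoc p p, hpp]
    rw [e1, e2, sub_mul, add_mul, map_sub, map_add, ha.parts, mul_assoc A,
      (ha.mul hW).cyc' A, hp.leib, hdp, zero_mul, zero_add, hdN2k]
    have e3 : a * p * (N ^ (2 * k) * A - A * N ^ (2 * k)) = a * (p * N ^ (2 * k)) * A -
        a * (p * A) * N ^ (2 * k) := by noncomm_ring
    have e4 : a * N ^ (2 * k + 1) = a * A * (p * N ^ (2 * k)) - a * (p * A) * N ^ (2 * k) := by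
      rw [pow_succ', hN]
      noncomm_ring
    rw [← mul_assoc a p, e3, e4, map_sub, map_sub]
    ring
  rw [hL, hR]

end gauge

section poly

open Polynomial

variable {W : Type*} [Ring W] [Algebra ℂ W]

/-- evaluation of a polynomial with noncommutative coefficients at a scalar -/
noncomputable def evt (t : ℂ) : W[X] →+* W :=
  Polynomial.eval₂RingHom' (RingHom.id W) (algebraMap ℂ W t)
    (fun a => (Algebra.commutes t a).symm)

lemma evt_sum (t : ℂ) (w : W[X]) {N : ℕ} (hN : w.natDegree < N) :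
    evt t w = ∑ j ∈ Finset.range N, t ^ j • w.coeff j := by
  change Polynomial.eval₂ (RingHom.id W) (algebraMap ℂ W t) w = _
  rw [Polynomial.eval₂_eq_sum_range' _ hN]
  refine Finset.sum_congr rfl fun j _ => ?_
  rw [RingHom.id_apply, ← map_pow, ← Algebra.commutes, ← Algebra.smul_def]

lemma evt_C (t : ℂ) (a : W) : evt t (C a) = a := by
  change Polynomial.eval₂ (RingHom.id W) (algebraMap ℂ W t) (C a) = a
  rw [Polynomial.eval₂_C]
  rfl

lemma evt_X (t : ℂ) : evt t (X : W[X]) = algebraMap ℂ W t := by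
  change Polynomial.eval₂ (RingHom.id W) (algebraMap ℂ W t) X = _
  rw [Polynomial.eval₂_X]

/-- power rule for a noncommutative polynomial -/
lemma derivative_pow_nc (p : W[X]) (m : ℕ) : derivative (p ^ m) =
    ∑ i ∈ Finset.range m, p ^ i * derivative p * p ^ (m - 1 - i) := by
  induction m with
  | zero => simp
  | succ m ih =>
    rw [pow_succ, Polynomial.derivative_mul, ih, Finset.sum_mul, Finset.sum_range_succ]
    congr 1
    · refine Finset.sum_congr rfl fun i hi => ?_
      have hi' := Finset.mem_range.mp hi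
      rw [mul_assoc, ← pow_succ]
      congr 2
      omega
    · simp

/-- comparing coefficients -/
lemma coeff_cmp (N : ℕ) (a b : ℕ → ℂ) (h : ∀ t : ℂ, ∑ j ∈ Finset.range N, t ^ j * a j =
    ∑ j ∈ Finset.range N, t ^ j * b j) : ∀ j < N, a j = b j := by
  have e : ∑ j ∈ Finset.range N, Polynomial.monomial j (a j) =
      ∑ j ∈ Finset.range N, Polynomial.monomial j (b j) := by
    apply Polynomial.funext
    intro t
    rw [Polynomial.eval_finsetSum, Polynomial.eval_finsetSum]
    simp only [Polynomial.eval_monomial]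
    have h' := h t
    simp only [mul_comm (t ^ _)] at h'
    exact h'
  intro j hj
  have := congrArg (fun p => Polynomial.coeff p j) e
  simpa [Polynomial.finsetSum_coeff, Polynomial.coeff_monomial, hj] using this

variable (S : DGT W)

/-- the curvature of `t B` as a polynomial in `t` -/
noncomputable def Pp (B : W) : W[X] := C (S.d B) * X + C (B * B) * X ^ 2

lemma evt_Pp (B : W) (t : ℂ) : evt t (Pp S B) = curv S (t • B) := by
  unfold Pp curv
  rw [map_add, map_mul, map_mul, map_pow, evt_C, evt_C, evt_X, ← map_pow, ← Algebra.commutes,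
    ← Algebra.commutes, ← Algebra.smul_def, ← Algebra.smul_def, map_smul, smul_mul_smul_comm,
    sq t]

lemma evt_Pp' (B : W) (t : ℂ) : evt t (derivative (Pp S B)) = S.d B + (2 * t) • (B * B) := by
  unfold Pp
  rw [map_add, Polynomial.derivative_C_mul, Polynomial.derivative_X, mul_one,
    Polynomial.derivative_C_mul, Polynomial.derivative_X_sq, map_add, map_mul (evt t),
    map_mul (evt t), evt_C, evt_C, evt_C, evt_X]
  congr 1
  have e : (2 : W) = algebraMap ℂ W 2 := by rw [map_ofNat]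
  rw [e, ← map_mul, ← Algebra.commutes, ← Algebra.smul_def]

/-- `∫₀¹ R_t^m dt` -/
noncomputable def csQ (B : W) (m : ℕ) : W :=
  ∑ j ∈ Finset.range (2 * m + 1), (1 / ((j : ℂ) + 1)) • (Pp S B ^ m).coeff j

lemma natDegree_Pp (B : W) : (Pp S B).natDegree ≤ 2 := by
  unfold Pp
  compute_degree

lemma natDegree_Pp_pow (B : W) (m : ℕ) : (Pp S B ^ m).natDegree < 2 * m + 1 := by
  have h := Polynomial.natDegree_pow_le_of_le m (natDegree_Pp S B)
  omega

variable {S}

/-- **Chern–Simons identity** -/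
theorem cs_int (X : S.EvenDer) {B : W} (hB : S.Od B) (m : ℕ) :
    S.T (X.D (B * csQ S B m)) = S.T (X.D B * curv S B ^ m) := by
  set w := Pp S B ^ m with hw
  have hN : w.natDegree < 2 * m + 1 := natDegree_Pp_pow S B m
  have key : ∀ j < 2 * m + 1, S.T (X.D (B * w.coeff j)) =
      ((j : ℂ) + 1) * S.T (X.D B * w.coeff j) := by
    apply coeff_cmp
    intro t
    have h1 := cs_point X hB t m
    have e1 : curv S (t • B) ^ m = evt t w := by rw [hw, map_pow, evt_Pp]
    have e2 : ∑ i ∈ Finset.range m, curv S (t • B) ^ i * (S.d B + (2 * t) • (B * B)) *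
        curv S (t • B) ^ (m - 1 - i) = evt t (derivative w) := by
      rw [hw, derivative_pow_nc, map_sum]
      refine Finset.sum_congr rfl fun i _ => ?_
      rw [map_mul, map_mul, map_pow, map_pow, evt_Pp, evt_Pp']
    have hN' : (derivative w).natDegree < 2 * m + 1 :=
      lt_of_le_of_lt (Polynomial.natDegree_derivative_le w) (by omega)
    rw [e1, e2, evt_sum t w hN, evt_sum t _ hN'] at h1
    rw [Finset.mul_sum, Finset.mul_sum, Finset.mul_sum] at h1
    simp only [map_sum, mul_smul_comm, map_smul, smul_eq_mul] at h1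
    rw [h1]
    have e3 : t * ∑ j ∈ Finset.range (2 * m + 1), t ^ j * S.T (X.D B * (derivative w).coeff j) =
        ∑ j ∈ Finset.range (2 * m + 1), t ^ j * ((j : ℂ) * S.T (X.D B * w.coeff j)) := by
      have e4 : ∀ j, S.T (X.D B * (derivative w).coeff j) =
          ((j : ℂ) + 1) * S.T (X.D B * w.coeff (j + 1)) := by
        intro j
        rw [Polynomial.coeff_derivative]
        have e5 : w.coeff (j + 1) * ((j : W) + 1) = ((j : ℂ) + 1) • w.coeff (j + 1) := by
          rw [Algebra.smul_def, map_add, map_one, map_natCast]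
          have : Commute ((j : W) + 1) (w.coeff (j + 1)) :=
            (Nat.cast_commute j _).add_left (Commute.one_left _)
          exact this.eq.symm
        rw [e5, mul_smul_comm, map_smul, smul_eq_mul]
      simp only [e4]
      rw [Finset.sum_range_succ, Finset.sum_range_succ', mul_add, Finset.mul_sum]
      have e6 : w.coeff (2 * m + 1) = 0 := Polynomial.coeff_eq_zero_of_natDegree_lt hN
      rw [e6]
      simp only [mul_zero, map_zero, add_zero, Nat.cast_zero, zero_mul, Nat.cast_add,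
        Nat.cast_one]
      refine Finset.sum_congr rfl fun j _ => ?_
      ring
    rw [e3, ← Finset.sum_add_distrib]
    refine Finset.sum_congr rfl fun j _ => ?_
    ring
  have e7 : curv S B ^ m = ∑ j ∈ Finset.range (2 * m + 1), w.coeff j := by
    have h := evt_sum 1 w hN
    rw [hw, map_pow, evt_Pp, one_smul] at h
    rw [h, hw]
    simp
  rw [e7]
  unfold csQ
  rw [Finset.mul_sum, Finset.mul_sum, map_sum, map_sum, map_sum]
  refine Finset.sum_congr rfl fun j hj => ?_
  rw [mul_smul_comm, map_smul, map_smul, key j (Finset.mem_range.mp hj), smul_eq_mul]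
  have : ((j : ℂ) + 1) ≠ 0 := Nat.cast_add_one_ne_zero j
  field_simp

/-- `∫₀¹ (t² - t)^m dt` -/
noncomputable def beta (m : ℕ) : ℂ :=
  ∑ j ∈ Finset.range (2 * m + 1), (1 / ((j : ℂ) + 1)) * ((X ^ 2 - X : ℂ[X]) ^ m).coeff j

/-- flat connections -/
theorem csQ_flat {B : W} (hB : S.d B = - (B * B)) (m : ℕ) :
    csQ S B m = beta m • B ^ (2 * m) := by
  unfold csQ beta
  have e1 : Pp S B = C (B ^ 2) * (X ^ 2 - X) := by
    unfold Pp
    rw [hB, map_neg, ← sq, mul_sub, neg_mul]
    abel
  have e2 : ∀ m : ℕ, Pp S B ^ m = C (B ^ (2 * m)) * ((X ^ 2 - X : ℂ[X]) ^ m).map (algebraMap ℂ W) := by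
    intro m
    induction m with
    | zero => simp
    | succ m ih =>
      have hc : (C (B ^ 2) : W[X]) * ((X ^ 2 - X : ℂ[X]) ^ m).map (algebraMap ℂ W) =
          ((X ^ 2 - X : ℂ[X]) ^ m).map (algebraMap ℂ W) * C (B ^ 2) := by
        ext j
        rw [Polynomial.coeff_C_mul, Polynomial.coeff_mul_C, Polynomial.coeff_map]
        exact (Algebra.commutes _ _).symm
      have e3 : ((X ^ 2 - X : ℂ[X])).map (algebraMap ℂ W) = X ^ 2 - X := by simp
      rw [pow_succ, ih, e1, pow_succ (X ^ 2 - X : ℂ[X]) m, Polynomial.map_mul, e3, mul_assoc,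
        ← mul_assoc _ (C (B ^ 2)), ← hc, ← mul_assoc, ← mul_assoc, ← C_mul, ← pow_add, mul_assoc]
      rfl
  rw [Finset.sum_smul]
  refine Finset.sum_congr rfl fun j _ => ?_
  rw [e2, Polynomial.coeff_C_mul, Polynomial.coeff_map, mul_smul, ← Algebra.commutes,
    ← Algebra.smul_def]

end poly

end Pool.Agent.PD4.IxB
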