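import Pool.Agent.PD4.IxB.Trans
import Pool.Agent.PD4.IxB.Formal
import Pool.Agent.PD4.IxB.Rules

/-!
# Project PD4, second proof of integrality: from even to odd (helper70)
-/

open MeasureTheory TensorProduct
open scoped ContDiff

namespace Pool.Agent.PD4.IxB

variable {ι : Type*} [Fintype ι] [DecidableEq ι] {n : ℕ}

/-- the even integrand of the slice `x_0 = τ` -/
noncomputable def wE (E : Matrix ι ι (Sm (n + 1))) (τ : ℝ) : ℂ :=
  (matCalc ι n).TT ((((pD 0).mapMatrix E).map (sl τ)) ⊗ₜ[ℂ] (1 : Ext n) *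
    (1 - 2 * ((E.map (sl τ)) ⊗ₜ[ℂ] (1 : Ext n))) *
      (matCalc ι n).dd ((E.map (sl τ)) ⊗ₜ[ℂ] (1 : Ext n)) ^ n)

lemma evS_pDs_pull (ρ : ℝ → ℝ) (hρ : ContDiff ℝ ∞ ρ) (f : Sm (n + 1)) (s : ℝ) :
    evS s (pDs (pull ρ hρ f)) = ((deriv ρ s : ℝ) : ℂ) • sl (ρ s) (pD 0 f) := by
  apply Subtype.ext; funext x
  change fderiv ℝ (fun q : ℝ × (Fin n → ℝ) => f.1 (Fin.cons (ρ q.1) q.2 : Fin (n + 1) → ℝ))
    (s, x) (1, 0) = ((deriv ρ s : ℝ) : ℂ) • fderiv ℝ f.1 (Fin.cons (ρ s) x) (Pi.single 0 1)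
  have hd : HasDerivAt ρ (deriv ρ s) s := ((hρ.differentiable (by simp)) s).hasDerivAt
  -- derivative along the curve `t ↦ (s + t, x)`
  have hg : DifferentiableAt ℝ (fun q : ℝ × (Fin n → ℝ) =>
      f.1 (Fin.cons (ρ q.1) q.2 : Fin (n + 1) → ℝ)) (s, x) :=
    ((pull ρ hρ f).2.1.differentiable (by simp)) (s, x)
  have h1 : HasDerivAt (fun t : ℝ => ((t, x) : ℝ × (Fin n → ℝ))) (1, 0) s :=
    (hasDerivAt_id s).prodMk (hasDerivAt_const s x)
  have h2 := hg.hasFDerivAt.comp_hasDerivAt s h1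
  have h3 : HasDerivAt (fun t : ℝ => (Fin.cons (ρ t) x : Fin (n + 1) → ℝ))
      (deriv ρ s • (Pi.single 0 1 : Fin (n + 1) → ℝ)) s := by
    rw [hasDerivAt_pi]
    intro i
    refine Fin.cases ?_ (fun i => ?_) i
    · simpa using hd
    · simpa using hasDerivAt_const s (x i)
  have h4 := (Sm.diff_coe f (Fin.cons (ρ s) x)).hasFDerivAt.comp_hasDerivAt s h3
  have h5 := h2.unique h4
  rw [h5, map_smul]
  rfl

lemma pDS_cS (i : Fin n) (f : Sm n) : pDS i (cS f) = cS (pD i f) := by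
  apply Subtype.ext; funext p
  change fderiv ℝ (fun q : ℝ × (Fin n → ℝ) => f.1 q.2) p (0, Pi.single i 1) =
    fderiv ℝ f.1 p.2 (Pi.single i 1)
  have hf : DifferentiableAt ℝ f.1 p.2 := (f.2.1.differentiable (by simp)) p.2
  have h2 := (hf.hasFDerivAt.comp p (hasFDerivAt_snd (𝕜 := ℝ) (p := p))).fderiv
  change fderiv ℝ (fun q : ℝ × (Fin n → ℝ) => f.1 q.2) p = _ at h2
  rw [h2]; rfl

/-- evaluation of forms at the parameter `s` -/
noncomputable def evO (s : ℝ) : Om (Matrix ι ι (SmS n)) n →ₐ[ℂ] Om (Matrix ι ι (Sm n)) n :=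
  Algebra.TensorProduct.map (evS s : SmS n →⋆ₐ[ℂ] Sm n).toAlgHom.mapMatrix (AlgHom.id ℂ (Ext n))

lemma evO_tmul (s : ℝ) (M : Matrix ι ι (SmS n)) (w : Ext n) :
    evO s (M ⊗ₜ[ℂ] w) = (M.map (evS s)) ⊗ₜ[ℂ] w := rfl

lemma TT_evO (s : ℝ) (w : Om (Matrix ι ι (SmS n)) n) :
    (matCalc ι n).TT (evO s w) = (matCalcS ι n s).TT w :=
  pth_TT_map (matCalcS ι n s) (matCalc ι n) _ (pth_htr s) w

lemma evO_dd (s : ℝ) (w : Om (Matrix ι ι (SmS n)) n) :
    evO s ((matCalcS ι n s).dd w) = (matCalc ι n).dd (evO s w) :=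
  pth_dd_map (matCalcS ι n s) (matCalc ι n) _ (pth_hD s) w

/-- the integrand along the path `x_0 = ρ(s)` -/
lemma path_integrand (E : Matrix ι ι (Sm (n + 1))) (ρ : ℝ → ℝ) (hρ : ContDiff ℝ ∞ ρ) (s : ℝ) :
    (matCalcS ι n s).TT ((dtDer ι n s).D ((E.map (pull ρ hρ)) ⊗ₜ[ℂ] (1 : Ext n)) *
      (1 - 2 * ((E.map (pull ρ hρ)) ⊗ₜ[ℂ] (1 : Ext n))) *
        (matCalcS ι n s).dd ((E.map (pull ρ hρ)) ⊗ₜ[ℂ] (1 : Ext n)) ^ n) =
      ((deriv ρ s : ℝ) : ℂ) * wE E (ρ s) := by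
  have e0 : evO s ((dtDer ι n s).D ((E.map (pull ρ hρ)) ⊗ₜ[ℂ] (1 : Ext n))) =
      ((deriv ρ s : ℝ) : ℂ) • ((((pD 0).mapMatrix E).map (sl (ρ s))) ⊗ₜ[ℂ] (1 : Ext n)) := by
    change evO s (((pDs.mapMatrix : Matrix ι ι (SmS n) →ₗ[ℂ] Matrix ι ι (SmS n))
      (E.map (pull ρ hρ))) ⊗ₜ[ℂ] (1 : Ext n)) = _
    rw [evO_tmul, TensorProduct.smul_tmul']
    congr 1
    ext1 i j
    exact evS_pDs_pull ρ hρ (E i j) s
  have e1 : evO s ((E.map (pull ρ hρ)) ⊗ₜ[ℂ] (1 : Ext n)) =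
      (E.map (sl (ρ s))) ⊗ₜ[ℂ] (1 : Ext n) := rfl
  have e2 : evO s (2 : Om (Matrix ι ι (SmS n)) n) = 2 := map_ofNat _ 2
  rw [← TT_evO, map_mul (evO s), map_mul (evO s), map_sub (evO s), map_mul (evO s),
    map_pow (evO s), evO_dd, e0, e1, e2, map_one, smul_mul_assoc, smul_mul_assoc, map_smul,
    smul_eq_mul]
  rfl

lemma wE_continuous (E : Matrix ι ι (Sm (n + 1))) : Continuous (wE E) := by
  have h : ∀ s, wE E s = (matCalcS ι n s).TT
      ((dtDer ι n 0).D ((E.map (pull id contDiff_id)) ⊗ₜ[ℂ] (1 : Ext n)) *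
      (1 - 2 * ((E.map (pull id contDiff_id)) ⊗ₜ[ℂ] (1 : Ext n))) *
        (matCalcS ι n 0).dd ((E.map (pull id contDiff_id)) ⊗ₜ[ℂ] (1 : Ext n)) ^ n) := by
    intro s
    have h1 := path_integrand E id contDiff_id s
    rw [deriv_id, Complex.ofReal_one, one_mul] at h1
    exact h1.symm
  rw [funext h]
  exact continuous_iff_continuousAt.mpr fun s => (hasDerivAt_TT _ s).continuousAt

section csmap

variable {W W' : Type*} [Ring W] [Algebra ℂ W] [Ring W'] [Algebra ℂ W']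

/-- naturality of the Chern–Simons integrand -/
lemma csQ_map (S : DGT W) (S' : DGT W') (φ : W →ₐ[ℂ] W') (B : W) (hφ : φ (S.d B) = S'.d (φ B))
    (m : ℕ) : φ (csQ S B m) = csQ S' (φ B) m := by
  unfold csQ
  rw [map_sum]
  refine Finset.sum_congr rfl fun j _ => ?_
  rw [map_smul]
  congr 1
  have h : (Pp S B).map (φ : W →+* W') = Pp S' (φ B) := by
    unfold Pp
    rw [Polynomial.map_add, Polynomial.map_mul, Polynomial.map_mul, Polynomial.map_pow,
      Polynomial.map_C, Polynomial.map_C, Polynomial.map_X]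
    have e1 : (φ : W →+* W') (S.d B) = S'.d (φ B) := hφ
    have e2 : (φ : W →+* W') (B * B) = φ B * φ B := map_mul φ B B
    rw [e1, e2]
  rw [← h, ← Polynomial.map_pow, Polynomial.coeff_map]
  rfl

end csmap

/-- the one-form `p (H⁻¹ dH) p` -/
noncomputable def BH (p : Matrix ι ι (Sm n)) (H : (Matrix ι ι (Sm n))ˣ) :
    Om (Matrix ι ι (Sm n)) n :=
  (p ⊗ₜ[ℂ] (1 : Ext n)) * (matCalc ι n).mc H * (p ⊗ₜ[ℂ] (1 : Ext n))

lemma mc_comm (p : Matrix ι ι (Sm n)) (H : (Matrix ι ι (Sm n))ˣ)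
    (hp : ∀ i, (pD i).mapMatrix p = 0)
    (hH : p * (H : Matrix ι ι (Sm n)) = (H : Matrix ι ι (Sm n)) * p) :
    (p ⊗ₜ[ℂ] (1 : Ext n)) * (matCalc ι n).mc H = (matCalc ι n).mc H * (p ⊗ₜ[ℂ] (1 : Ext n)) := by
  rw [Calc.mc_eq, Finset.mul_sum, Finset.sum_mul]
  refine Finset.sum_congr rfl fun i _ => ?_
  rw [Algebra.TensorProduct.tmul_mul_tmul, Algebra.TensorProduct.tmul_mul_tmul, one_mul, mul_one]
  congr 1
  have e1 : p * ((H⁻¹ : (Matrix ι ι (Sm n))ˣ) : Matrix ι ι (Sm n)) =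
      ((H⁻¹ : (Matrix ι ι (Sm n))ˣ) : Matrix ι ι (Sm n)) * p := by
    calc p * ((H⁻¹ : (Matrix ι ι (Sm n))ˣ) : Matrix ι ι (Sm n)) =
        ((H⁻¹ : (Matrix ι ι (Sm n))ˣ) : Matrix ι ι (Sm n)) * ((H : Matrix ι ι (Sm n)) * p) *
          ((H⁻¹ : (Matrix ι ι (Sm n))ˣ) : Matrix ι ι (Sm n)) := by
          rw [← mul_assoc, Units.inv_mul, one_mul]
      _ = _ := by rw [← hH, mul_assoc, mul_assoc, Units.mul_inv, mul_one]
  have hD : (matCalc ι n).D i p = 0 := hp i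
  have e2 : p * (matCalc ι n).D i (H : Matrix ι ι (Sm n)) =
      (matCalc ι n).D i (H : Matrix ι ι (Sm n)) * p := by
    have h1 := (matCalc ι n).leib i p (H : Matrix ι ι (Sm n))
    have h2 := (matCalc ι n).leib i (H : Matrix ι ι (Sm n)) p
    rw [hD, zero_mul, zero_add] at h1
    rw [hD, mul_zero, add_zero] at h2
    rw [← h1, ← h2, hH]
  rw [← mul_assoc, e1, mul_assoc, e2, mul_assoc]

lemma BH_flat (p : Matrix ι ι (Sm n)) (H : (Matrix ι ι (Sm n))ˣ) (hpp : p * p = p)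
    (hp : ∀ i, (pD i).mapMatrix p = 0)
    (hH : p * (H : Matrix ι ι (Sm n)) = (H : Matrix ι ι (Sm n)) * p) :
    (matCalc ι n).dgt.d (BH p H) = - (BH p H * BH p H) := by
  have hc := mc_comm p H hp hH
  have hPP : (p ⊗ₜ[ℂ] (1 : Ext n)) * (p ⊗ₜ[ℂ] (1 : Ext n)) = p ⊗ₜ[ℂ] (1 : Ext n) := by
    rw [Algebra.TensorProduct.tmul_mul_tmul, hpp, one_mul]
  have hdP : (matCalc ι n).dgt.d (p ⊗ₜ[ℂ] (1 : Ext n)) = 0 := by
    change (matCalc ι n).dd (p ⊗ₜ[ℂ] (1 : Ext n)) = 0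
    rw [Calc.dd_tmul]
    refine Finset.sum_eq_zero fun i _ => ?_
    have : (matCalc ι n).D i p = 0 := hp i
    rw [this, TensorProduct.zero_tmul]
  have hPe : (matCalc ι n).dgt.Ev (p ⊗ₜ[ℂ] (1 : Ext n)) := by
    show grO _ = _
    rw [grO_tmul, map_one]
  have hAo : (matCalc ι n).dgt.Od ((matCalc ι n).mc H) := grO_mc _ _
  have hdA : (matCalc ι n).dgt.d ((matCalc ι n).mc H) =
      - ((matCalc ι n).mc H * (matCalc ι n).mc H) := by
    refine (matCalc ι n).dgt.d_mc (G := (H : Matrix ι ι (Sm n)) ⊗ₜ[ℂ] (1 : Ext n))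
      (G' := ((H⁻¹ : (Matrix ι ι (Sm n))ˣ) : Matrix ι ι (Sm n)) ⊗ₜ[ℂ] (1 : Ext n)) ?_ ?_ ?_
    · rw [Algebra.TensorProduct.tmul_mul_tmul, Units.mul_inv, one_mul]; rfl
    · rw [Algebra.TensorProduct.tmul_mul_tmul, Units.inv_mul, one_mul]; rfl
    · show grO _ = _
      rw [grO_tmul, map_one]
  unfold BH
  generalize (matCalc ι n).mc H = A at *
  generalize (p ⊗ₜ[ℂ] (1 : Ext n) : Om (Matrix ι ι (Sm n)) n) = P at *
  rw [(hPe.mulOd hAo).leib, hPe.leib, hdP, zero_mul, zero_add, mul_zero, sub_zero, hdA]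
  have e : P * A * P * (P * A * P) = P * (A * P) * (P * A) * P := by noncomm_ring
  rw [e, hc]
  have e2 : P * (A * P) * (A * P) * P = P * (A * (P * A) * (P * P)) := by noncomm_ring
  rw [e2, hPP, hc]
  have e3 : P * (A * (A * P) * P) = P * (A * A) * (P * P) := by noncomm_ring
  rw [e3, hPP]
  noncomm_ring

/-- **transport and Chern–Simons**: the mean of the even integrand of the slices is an odd
integrand of the holonomy -/
lemma csQ_indep (s s' : ℝ) (B : Om (Matrix ι ι (SmS n)) n) (k : ℕ) :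
    csQ (matCalcS ι n s).dgt B k = csQ (matCalcS ι n s').dgt B k := rfl

lemma dd_indep (s s' : ℝ) : (matCalcS ι n s).dd = (matCalcS ι n s').dd := rfl

theorem int_wE (k : ℕ) (hn : n = 2 * k + 1) (E : Matrix ι ι (Sm (n + 1))) (hE : E * E = E)
    (p : Matrix ι ι (Sm n)) (hp0 : E.map (sl 0) = p)
    (hp : ∀ i, (pD i).mapMatrix p = 0) :
    ∃ H : (Matrix ι ι (Sm n))ˣ, p * (H : Matrix ι ι (Sm n)) = (H : Matrix ι ι (Sm n)) * p ∧
      ∫ τ in (0 : ℝ)..1, wE E τ = beta k * (matCalc ι n).TT (BH p H ^ n) := by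
  have hρ : ContDiff ℝ ∞ Real.smoothTransition := Real.smoothTransition.contDiff
  obtain ⟨h, h0, hT⟩ := transport E hE Real.smoothTransition hρ (fun s => by
    rw [abs_of_nonneg (Real.smoothTransition.nonneg s)]
    exact Real.smoothTransition.le_one s)
  have hpp : p * p = p := by rw [← hp0, ← map_sl_mul, hE]
  have hper : E.map (sl 1) = p := by
    rw [← hp0]
    ext1 i j
    apply Subtype.ext
    funext x
    change (E i j).1 (Fin.cons 1 x) = (E i j).1 (Fin.cons 0 x)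
    have h1 := (E i j).2.2 (Fin.cons 0 x) 0
    have h2 : (Fin.cons 1 x : Fin (n + 1) → ℝ) =
        (Fin.cons 0 x : Fin (n + 1) → ℝ) + Pi.single 0 1 := by
      funext j
      refine Fin.cases ?_ (fun j => ?_) j
      · simp
      · simp
    rw [h2]
    exact h1
  rw [hp0] at hT
  -- commutation of the holonomy with `p`
  have hHp : p * ((evU 1 h : (Matrix ι ι (Sm n))ˣ) : Matrix ι ι (Sm n)) =
      ((evU 1 h : (Matrix ι ι (Sm n))ˣ) : Matrix ι ι (Sm n)) * p := by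
    have h1 := congrArg
      (((evS 1 : SmS n →⋆ₐ[ℂ] Sm n) : SmS n →+*
        Sm n).mapMatrix) hT
    rw [map_mul, map_mul] at h1
    have e1 : (((evS 1 : SmS n →⋆ₐ[ℂ] Sm n) : SmS n →+*
        Sm n).mapMatrix) (E.map (pull Real.smoothTransition hρ)) = p := by
      change E.map (sl (Real.smoothTransition 1)) = p
      rw [Real.smoothTransition.one, hper]
    rw [e1] at h1
    exact h1
  refine ⟨evU 1 h, hHp, ?_⟩
  -- the forms
  obtain ⟨P, hP⟩ : ∃ P : Om (Matrix ι ι (SmS n)) n, P = (p.map cS) ⊗ₜ[ℂ] (1 : Ext n) := ⟨_, rfl⟩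
  obtain ⟨g, hg⟩ : ∃ g : Om (Matrix ι ι (SmS n)) n,
    g = (h : Matrix ι ι (SmS n)) ⊗ₜ[ℂ] (1 : Ext n) := ⟨_, rfl⟩
  obtain ⟨g', hg'⟩ : ∃ g' : Om (Matrix ι ι (SmS n)) n,
    g' = ((h⁻¹ : (Matrix ι ι (SmS n))ˣ) : Matrix ι ι (SmS n)) ⊗ₜ[ℂ] (1 : Ext n) := ⟨_, rfl⟩
  have h1 : g * g' = 1 := by
    rw [hg, hg', Algebra.TensorProduct.tmul_mul_tmul, Units.mul_inv, one_mul]; rfl
  have h2 : g' * g = 1 := by
    rw [hg, hg', Algebra.TensorProduct.tmul_mul_tmul, Units.inv_mul, one_mul]; rfl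
  have hPP : P * P = P := by
    rw [hP, Algebra.TensorProduct.tmul_mul_tmul, one_mul]
    congr 1
    have : (p.map cS) * (p.map cS) = (p * p).map cS :=
      (map_mul (((cS : Sm n →⋆ₐ[ℂ] SmS n) : Sm n →+* SmS n).mapMatrix) p p).symm
    rw [this, hpp]
  have hev : ∀ (s : ℝ) (M : Matrix ι ι (SmS n)),
      (matCalcS ι n s).dgt.Ev (M ⊗ₜ[ℂ] (1 : Ext n)) := by
    intro s M
    show grO (M ⊗ₜ[ℂ] (1 : Ext n)) = M ⊗ₜ[ℂ] (1 : Ext n)
    rw [grO_tmul, map_one]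
  have hF : (E.map (pull Real.smoothTransition hρ)) ⊗ₜ[ℂ] (1 : Ext n) = g * P * g' := by
    rw [hg, hg', hP, Algebra.TensorProduct.tmul_mul_tmul, Algebra.TensorProduct.tmul_mul_tmul,
      one_mul, one_mul, ← hT, mul_assoc, Units.mul_inv, mul_one]
  have hdP : ∀ s, (matCalcS ι n s).dd P = 0 := by
    intro s
    rw [hP, Calc.dd_tmul]
    refine Finset.sum_eq_zero fun i _ => ?_
    have : (matCalcS ι n s).D i (p.map cS) = 0 := by
      ext1 a b
      have h3 : pD i (p a b) = 0 := congrFun (congrFun (hp i) a) b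
      change pDS i (cS (p a b)) = 0
      rw [pDS_cS, h3, map_zero]
    rw [this, TensorProduct.zero_tmul]
  have hXP : ∀ s, (dtDer ι n s).D P = 0 := by
    intro s
    rw [hP]
    change ((pDs.mapMatrix : Matrix ι ι (SmS n) →ₗ[ℂ] Matrix ι ι (SmS n)) (p.map cS)) ⊗ₜ[ℂ]
      (1 : Ext n) = 0
    have : (pDs.mapMatrix : Matrix ι ι (SmS n) →ₗ[ℂ] Matrix ι ι (SmS n)) (p.map cS) = 0 := by
      ext1 a b
      exact pDs_cS (p a b)
    rw [this, TensorProduct.zero_tmul]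
  obtain ⟨B, hB⟩ : ∃ B, B = P * (g' * (matCalcS ι n 0).dd g) * P := ⟨_, rfl⟩
  obtain ⟨Q, hQ⟩ : ∃ Q, Q = csQ (matCalcS ι n 0).dgt B k := ⟨_, rfl⟩
  have main : ∀ s, HasDerivAt (fun s => (matCalcS ι n s).TT (B * Q))
      (((deriv Real.smoothTransition s : ℝ) : ℂ) * wE E (Real.smoothTransition s)) s := by
    intro s
    have hd := hasDerivAt_TT (B * Q) s
    have hBs : B = P * (g' * (matCalcS ι n s).dgt.d g) * P := hB
    have hPe : (matCalcS ι n s).dgt.Ev P := by rw [hP]; exact hev s _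
    have hge : (matCalcS ι n s).dgt.Ev g := by rw [hg]; exact hev s _
    have hge' : (matCalcS ι n s).dgt.Ev g' := by rw [hg']; exact hev s _
    have hBo : (matCalcS ι n s).dgt.Od B := by
      rw [hBs]
      exact (hPe.mulOd (hge'.mulOd hge.d)).mulEv hPe
    have e1 := cs_int (dtDer ι n s) hBo k
    have e2 := gauge_even (dtDer ι n s) h1 h2 hge hPe hPP (hdP s) (hXP s) k
    have e3 := path_integrand E Real.smoothTransition hρ s
    rw [hF] at e3
    rw [← hBs, ← hn] at e2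
    have e4 : (matCalcS ι n s).TT
        (liftD (pDs.mapMatrix : Matrix ι ι (SmS n) →ₗ[ℂ] Matrix ι ι (SmS n)) (B * Q)) =
        ((deriv Real.smoothTransition s : ℝ) : ℂ) * wE E (Real.smoothTransition s) := by
      rw [hQ]
      exact e1.trans (e2.trans e3)
    rw [e4] at hd
    exact hd
  have hint : ∫ s in (0 : ℝ)..1, ((deriv Real.smoothTransition s : ℝ) : ℂ) *
      wE E (Real.smoothTransition s) =
      (matCalcS ι n 1).TT (B * Q) - (matCalcS ι n 0).TT (B * Q) := by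
    refine intervalIntegral.integral_eq_sub_of_hasDerivAt (fun s _ => main s) ?_
    refine Continuous.intervalIntegrable ?_ _ _
    exact (Complex.continuous_ofReal.comp (hρ.continuous_deriv (by simp))).mul
      ((wE_continuous E).comp hρ.continuous)
  have hsub : ∫ s in (0 : ℝ)..1, ((deriv Real.smoothTransition s : ℝ) : ℂ) *
      wE E (Real.smoothTransition s) = ∫ τ in (0 : ℝ)..1, wE E τ := by
    have := intervalIntegral.integral_deriv_smul_comp (a := 0) (b := 1)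
      (f := Real.smoothTransition) (f' := deriv Real.smoothTransition) (g := wE E)
      (fun x _ => ((hρ.differentiable (by simp)) x).hasDerivAt)
      (hρ.continuous_deriv (by simp)).continuousOn (wE_continuous E)
    rw [Real.smoothTransition.zero, Real.smoothTransition.one] at this
    rw [← this]
    refine intervalIntegral.integral_congr fun s _ => ?_
    simp [Complex.real_smul]
  rw [← hsub, hint]
  -- the value at `s = 0`
  have hP' : ∀ s, evO s P = p ⊗ₜ[ℂ] (1 : Ext n) := by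
    intro s
    rw [hP]
    rfl
  have hBs : ∀ s, evO s B = BH p (evU s h) := by
    intro s
    rw [hB, map_mul (evO s), map_mul (evO s), map_mul (evO s), hP']
    have e1 : evO s ((matCalcS ι n 0).dd g) = (matCalc ι n).dd (evO s g) := evO_dd s g
    rw [e1, hg, hg']
    rfl
  have hval : ∀ s, (matCalcS ι n s).TT (B * Q) =
      (matCalc ι n).TT (BH p (evU s h) * csQ (matCalc ι n).dgt (BH p (evU s h)) k) := by
    intro s
    rw [← TT_evO, map_mul (evO s), hBs, hQ]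
    have e1 : evO s (csQ (matCalcS ι n 0).dgt B k) = csQ (matCalc ι n).dgt (evO s B) k :=
      csQ_map _ _ (evO s) B (evO_dd s B) k
    rw [e1, hBs]
  have hv0 : (matCalcS ι n 0).TT (B * Q) = 0 := by
    have e1 : evU 0 h = 1 := h0 0 Real.smoothTransition.zero
    have e2 : BH p (1 : (Matrix ι ι (Sm n))ˣ) = 0 := by
      unfold BH
      have : (matCalc ι n).mc (1 : (Matrix ι ι (Sm n))ˣ) = 0 := by
        rw [Calc.mc_eq]
        refine Finset.sum_eq_zero fun i _ => ?_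
        have : (matCalc ι n).D i ((1 : (Matrix ι ι (Sm n))ˣ) : Matrix ι ι (Sm n)) = 0 :=
          mapMatrix_one i
        rw [this, mul_zero, TensorProduct.zero_tmul]
      rw [this, mul_zero, zero_mul]
    rw [hval, e1, e2, zero_mul, map_zero]
  rw [hv0, sub_zero, hval]
  -- flatness at `s = 1`
  set H := evU 1 h with hH
  have hflat : (matCalc ι n).dgt.d (BH p H) = - (BH p H * BH p H) := BH_flat p H hpp hp hHp
  rw [csQ_flat hflat, mul_smul_comm, map_smul, smul_eq_mul, ← pow_succ', ← hn]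

end Pool.Agent.PD4.IxB
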