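import Pool.Agent.PD4.Ix.Path

/-!
# Project PD4, block IxB: discrete parallel transport of idempotents (helper38)

Variables of `Sm (n+1)`: `0` = path variable, `i+1` = torus variables of `Sm n`.
-/

open MeasureTheory
open scoped ContDiff

namespace Pool.Agent.PD4.IxB

open Pool.Agent.PD4

variable {ι : Type*} [Fintype ι] [DecidableEq ι] {n : ℕ}

/-- smooth periodic functions are bounded -/
lemma Sm_bdd (f : Sm n) : ∃ C : ℝ, 0 ≤ C ∧ ∀ x, ‖f.1 x‖ ≤ C := by
  obtain ⟨C, hC⟩ := (isCompact_Icc (a := (0 : Fin n → ℝ)) (b := 1)).exists_bound_of_continuousOn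
    (Sm.cont_coe f).continuousOn
  refine ⟨max C 0, le_max_right _ _, fun x => ?_⟩
  have h := Sm.per f (fun i => -⌊x i⌋) x
  have hmem : (x + fun i => ((-⌊x i⌋ : ℤ) : ℝ)) ∈ Set.Icc (0 : Fin n → ℝ) 1 := by
    constructor
    · intro i
      have := Int.floor_le (x i)
      simp only [Pi.zero_apply, Pi.add_apply, Int.cast_neg]
      linarith
    · intro i
      have := Int.lt_floor_add_one (x i)
      simp only [Pi.one_apply, Pi.add_apply, Int.cast_neg]
      linarith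
  rw [← h]
  exact (hC _ hmem).trans (le_max_left _ _)

lemma contDiff_cons1 {E : Type*} [NormedAddCommGroup E] [NormedSpace ℝ E]
    {a : E → ℝ} {c : E → (Fin n → ℝ)} (ha : ContDiff ℝ ∞ a) (hc : ContDiff ℝ ∞ c) :
    ContDiff ℝ ∞ (fun z => (Fin.cons (a z) (c z) : Fin (n + 1) → ℝ)) := by
  rw [contDiff_pi]
  intro i
  refine Fin.cases ?_ (fun i => ?_) i
  · simpa using ha
  · simpa using (contDiff_pi.mp hc i)

lemma cons1_add_single (x : ℝ) (z : Fin n → ℝ) (i : Fin n) (t : ℝ) :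
    (Fin.cons x (z + Pi.single i t) : Fin (n + 1) → ℝ) =
      (Fin.cons x z : Fin (n + 1) → ℝ) + Pi.single i.succ t := by
  funext j
  refine Fin.cases ?_ (fun j => ?_) j
  · simp only [Fin.cons_zero, Pi.add_apply]
    rw [Pi.single_eq_of_ne, add_zero]
    intro h
    exact absurd h.symm (Fin.succ_ne_zero _)
  · simp only [Fin.cons_succ, Pi.add_apply]
    by_cases h : j = i
    · subst h; simp
    · rw [Pi.single_eq_of_ne h, Pi.single_eq_of_ne]
      intro h'
      exact h (Fin.succ_injective _ h')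

/-- smooth periodic functions are Lipschitz in the variable `0` -/
lemma Sm_lip (f : Sm (n + 1)) : ∃ C : ℝ, 0 ≤ C ∧ ∀ (t t' : ℝ) (x : Fin n → ℝ),
    ‖f.1 (Fin.cons t x) - f.1 (Fin.cons t' x)‖ ≤ C * |t - t'| := by
  obtain ⟨C, hC0, hC⟩ := Sm_bdd (pD 0 f)
  refine ⟨C, hC0, fun t t' x => ?_⟩
  have hd : ∀ s : ℝ, HasDerivAt (fun s : ℝ => f.1 (Fin.cons s x : Fin (n + 1) → ℝ))
      ((pD 0 f).1 (Fin.cons s x)) s := by
    intro s
    have h1 : HasDerivAt (fun s : ℝ => (Fin.cons s x : Fin (n + 1) → ℝ))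
        (Pi.single 0 1 : Fin (n + 1) → ℝ) s := by
      rw [hasDerivAt_pi]
      intro i
      refine Fin.cases ?_ (fun i => ?_) i
      · simp only [Fin.cons_zero, Pi.single_eq_same]
        exact hasDerivAt_id' s
      · simpa using hasDerivAt_const s (x i)
    exact (Sm.diff_coe f _).hasFDerivAt.comp_hasDerivAt s h1
  have h := Convex.norm_image_sub_le_of_norm_hasDerivWithin_le (𝕜 := ℝ)
    (f := fun s : ℝ => f.1 (Fin.cons s x : Fin (n + 1) → ℝ))
    (s := Set.univ) (x := t') (y := t) (C := C)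
    (fun s _ => (hd s).hasDerivWithinAt) (fun s _ => hC _) convex_univ trivial trivial
  simpa using h

/-- restriction to `x_0 = t` -/
noncomputable def sl (t : ℝ) : Sm (n + 1) →⋆ₐ[ℂ] Sm n where
  toFun f := ⟨fun z => f.1 (Fin.cons t z : Fin (n + 1) → ℝ),
    ⟨f.2.1.comp (contDiff_cons1 contDiff_const contDiff_id), fun z i => by
      have h := f.2.2 (Fin.cons t z : Fin (n + 1) → ℝ) i.succ
      rw [← cons1_add_single] at h
      exact h⟩⟩
  map_one' := rfl
  map_mul' _ _ := rfl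
  map_zero' := rfl
  map_add' _ _ := rfl
  commutes' _ := rfl
  map_star' _ := rfl

/-- substitution `x_0 = ρ(s)`: a function on the torus becomes a path of functions -/
noncomputable def pull (ρ : ℝ → ℝ) (hρ : ContDiff ℝ ∞ ρ) : Sm (n + 1) →⋆ₐ[ℂ] SmS n where
  toFun f := ⟨fun p => f.1 (Fin.cons (ρ p.1) p.2 : Fin (n + 1) → ℝ),
    ⟨f.2.1.comp (contDiff_cons1 (hρ.comp contDiff_fst) contDiff_snd), fun s z i => by
      have h := f.2.2 (Fin.cons (ρ s) z : Fin (n + 1) → ℝ) i.succ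
      rw [← cons1_add_single] at h
      exact h⟩⟩
  map_one' := rfl
  map_mul' _ _ := rfl
  map_zero' := rfl
  map_add' _ _ := rfl
  commutes' _ := rfl
  map_star' _ := rfl

lemma evS_pull (ρ : ℝ → ℝ) (hρ : ContDiff ℝ ∞ ρ) (s : ℝ) (f : Sm (n + 1)) :
    evS s (pull ρ hρ f) = sl (ρ s) f := rfl

lemma pull_const (c : ℝ) (f : Sm (n + 1)) :
    pull (fun _ => c) contDiff_const f = cS (sl c f) := rfl

/-- the intertwiner `s(F,E) = 1 + (2F-1)(E-F) = FE + (1-F)(1-E)` of two idempotents -/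
def tw {R : Type*} [Ring R] (F E : R) : R := F * E + (1 - F) * (1 - E)

lemma tw_mul {R : Type*} [Ring R] (F E : R) (hF : F * F = F) (hE : E * E = E) :
    F * tw F E = tw F E * E := by
  unfold tw
  have h1 : F * (F * E + (1 - F) * (1 - E)) = F * E := by
    have e : F * (1 - F) = 0 := by rw [mul_sub, mul_one, hF, sub_self]
    rw [mul_add, ← mul_assoc, hF, ← mul_assoc, e, zero_mul, add_zero]
  have h2 : (F * E + (1 - F) * (1 - E)) * E = F * E := by
    have e : (1 - E) * E = 0 := by rw [sub_mul, one_mul, hE, sub_self]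
    rw [add_mul, mul_assoc, hE, mul_assoc, e, mul_zero, add_zero]
  rw [h1, h2]

lemma tw_self {R : Type*} [Ring R] (E : R) (hE : E * E = E) : tw E E = 1 := by
  unfold tw
  rw [mul_sub, mul_one, sub_mul, one_mul, hE, sub_self, sub_zero]
  abel

lemma tw_eq {R : Type*} [Ring R] (F E : R) (hF : F * F = F) :
    tw F E = 1 + (2 * F - 1) * (E - F) := by
  unfold tw
  have h : (2 * F - 1) * (E - F) = 2 * (F * E) - 2 * (F * F) - E + F := by noncomm_ring
  rw [h, hF]
  noncomm_ring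

/-- small perturbations of the identity are invertible -/
lemma det_one_add_ne (M : Matrix ι ι ℂ) (ε : ℝ) (hε : (Fintype.card ι : ℝ) * ε < 1)
    (hM : ∀ i j, ‖M i j‖ ≤ ε) : (1 + M).det ≠ 0 := by
  apply det_ne_zero_of_sum_row_lt_diag
  intro k
  have h1 : ∑ j ∈ Finset.univ.erase k, ‖(1 + M) k j‖ ≤ ((Fintype.card ι : ℝ) - 1) * ε := by
    have h2 : ∀ j ∈ Finset.univ.erase k, ‖(1 + M) k j‖ ≤ ε := by
      intro j hj
      have hne : k ≠ j := fun h => (Finset.ne_of_mem_erase hj) h.symm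
      rw [Matrix.add_apply, Matrix.one_apply_ne hne, zero_add]
      exact hM k j
    refine (Finset.sum_le_card_nsmul _ _ _ h2).trans (le_of_eq ?_)
    rw [nsmul_eq_mul, Finset.card_erase_of_mem (Finset.mem_univ k), Finset.card_univ,
      Nat.cast_sub (Fintype.card_pos_iff.mpr ⟨k⟩)]
    simp
  have h3 : 1 - ε ≤ ‖(1 + M) k k‖ := by
    rw [Matrix.add_apply, Matrix.one_apply_eq]
    have h4 := norm_sub_norm_le (1 : ℂ) (-M k k)
    rw [norm_one, norm_neg, sub_neg_eq_add] at h4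
    have := hM k k
    linarith
  nlinarith

/-- `tw F E` is invertible when `E` is close to `F` -/
lemma tw_unit (F E : Matrix ι ι ℂ) (hF : F * F = F) (B δ : ℝ) (hB : 0 ≤ B)
    (hFB : ∀ i j, ‖F i j‖ ≤ B) (hd : ∀ i j, ‖(E - F) i j‖ ≤ δ)
    (hs : (Fintype.card ι : ℝ) * ((Fintype.card ι : ℝ) * ((2 * B + 1) * δ)) < 1) :
    IsUnit (tw F E) := by
  rw [Matrix.isUnit_iff_isUnit_det, isUnit_iff_ne_zero, tw_eq F E hF]
  refine det_one_add_ne _ _ hs fun i j => ?_
  rw [Matrix.mul_apply]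
  have h1 : ∀ l ∈ Finset.univ, ‖(2 * F - 1 : Matrix ι ι ℂ) i l * (E - F) l j‖ ≤ (2 * B + 1) * δ := by
    intro l _
    rw [norm_mul]
    have h2 : ‖(2 * F - 1 : Matrix ι ι ℂ) i l‖ ≤ 2 * B + 1 := by
      have e : (2 * F : Matrix ι ι ℂ) i l = 2 * F i l := by
        rw [two_mul, Matrix.add_apply, two_mul]
      rw [Matrix.sub_apply, e]
      refine (norm_sub_le _ _).trans ?_
      have h3 : ‖(1 : Matrix ι ι ℂ) i l‖ ≤ 1 := by
        by_cases h : i = l
        · subst h; simp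
        · rw [Matrix.one_apply_ne h]; simp
      rw [norm_mul]
      have h4 := hFB i l
      have h5 : ‖(2 : ℂ)‖ = 2 := by simp
      rw [h5]
      linarith
    exact mul_le_mul h2 (hd l j) (norm_nonneg _) (by positivity)
  refine (norm_sum_le _ _).trans ((Finset.sum_le_card_nsmul _ _ _ h1).trans (le_of_eq ?_))
  rw [nsmul_eq_mul, Finset.card_univ]

omit [DecidableEq ι] in
/-- uniform bounds for the entries of a matrix -/
lemma mat_bdd (E : Matrix ι ι (Sm n)) : ∃ C : ℝ, 0 ≤ C ∧ ∀ i j x, ‖(E i j).1 x‖ ≤ C := by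
  choose C hC0 hC using fun p : ι × ι => Sm_bdd (E p.1 p.2)
  refine ⟨∑ p, C p, Finset.sum_nonneg fun p _ => hC0 p, fun i j x => ?_⟩
  exact (hC (i, j) x).trans (Finset.single_le_sum (fun p _ => hC0 p) (Finset.mem_univ (i, j)))

omit [DecidableEq ι] in
lemma mat_lip (E : Matrix ι ι (Sm (n + 1))) : ∃ C : ℝ, 0 ≤ C ∧
    ∀ i j (t t' : ℝ) (x : Fin n → ℝ),
      ‖(E i j).1 (Fin.cons t x) - (E i j).1 (Fin.cons t' x)‖ ≤ C * |t - t'| := by
  choose C hC0 hC using fun p : ι × ι => Sm_lip (E p.1 p.2)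
  refine ⟨∑ p, C p, Finset.sum_nonneg fun p _ => hC0 p, fun i j t t' x => ?_⟩
  refine (hC (i, j) t t' x).trans (mul_le_mul_of_nonneg_right ?_ (abs_nonneg _))
  exact Finset.single_le_sum (fun p _ => hC0 p) (Finset.mem_univ (i, j))

/-- a matrix of paths which is invertible at each point is a unit -/
lemma isUnit_of_ptS (M : Matrix ι ι (SmS n))
    (h : ∀ (s : ℝ) (x : Fin n → ℝ), IsUnit (mev x (M.map (evS s)))) : IsUnit M :=
  isUnit_of_pointwiseS M fun s => isUnit_of_pointwise _ fun x => h s x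

lemma mev_tw (x : Fin n → ℝ) (F E : Matrix ι ι (Sm n)) :
    mev x (tw F E) = tw (mev x F) (mev x E) := by
  let φ : Matrix ι ι (Sm n) →+* Matrix ι ι ℂ :=
    ((Sm.ev x : Sm n →⋆ₐ[ℂ] ℂ) : Sm n →+* ℂ).mapMatrix
  have h : ∀ M, mev x M = φ M := fun _ => rfl
  simp only [h, tw, map_add, map_mul, map_sub, map_one]

lemma map_evS_tw (s : ℝ) (F E : Matrix ι ι (SmS n)) :
    (tw F E).map (evS s) = tw (F.map (evS s)) (E.map (evS s)) := by
  let φ : Matrix ι ι (SmS n) →+* Matrix ι ι (Sm n) :=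
    ((evS s : SmS n →⋆ₐ[ℂ] Sm n) : SmS n →+* Sm n).mapMatrix
  have h : ∀ M : Matrix ι ι (SmS n), M.map (evS s) = φ M := fun _ => rfl
  simp only [h, tw, map_add, map_mul, map_sub, map_one]

lemma map_pull_mul (ρ : ℝ → ℝ) (hρ : ContDiff ℝ ∞ ρ) (A B : Matrix ι ι (Sm (n + 1))) :
    (A * B).map (pull ρ hρ) = A.map (pull ρ hρ) * B.map (pull ρ hρ) :=
  map_mul ((pull ρ hρ : Sm (n + 1) →⋆ₐ[ℂ] SmS n) : Sm (n + 1) →+* SmS n).mapMatrix A B

lemma map_sl_mul (t : ℝ) (A B : Matrix ι ι (Sm (n + 1))) :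
    (A * B).map (sl t) = A.map (sl t) * B.map (sl t) :=
  map_mul ((sl t : Sm (n + 1) →⋆ₐ[ℂ] Sm n) : Sm (n + 1) →+* Sm n).mapMatrix A B

/-- one step of the transport -/
lemma step_unit (E : Matrix ι ι (Sm (n + 1))) (hE : E * E = E) : ∃ m : ℕ, 0 < m ∧
    ∀ (ρ σ : ℝ → ℝ) (hρ : ContDiff ℝ ∞ ρ) (hσ : ContDiff ℝ ∞ σ)
      (_ : ∀ s, |ρ s - σ s| ≤ 1 / (m : ℝ)),
      IsUnit (tw (E.map (pull ρ hρ)) (E.map (pull σ hσ))) := by
  obtain ⟨B, hB0, hB⟩ := mat_bdd E
  obtain ⟨L, hL0, hL⟩ := mat_lip E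
  set K : ℝ := (Fintype.card ι : ℝ) * ((Fintype.card ι : ℝ) * ((2 * B + 1) * L)) with hK
  obtain ⟨m, hm⟩ := exists_nat_gt (max K 0)
  have hm0 : 0 < (m : ℝ) := lt_of_le_of_lt (le_max_right _ _) hm
  refine ⟨m, by exact_mod_cast hm0, fun ρ σ hρ hσ hd => ?_⟩
  refine isUnit_of_ptS _ fun s x => ?_
  rw [map_evS_tw, mev_tw]
  refine tw_unit _ _ ?_ B (L * (1 / m)) hB0 ?_ ?_ ?_
  · have h1 : E.map (sl (ρ s)) * E.map (sl (ρ s)) = E.map (sl (ρ s)) := by
      rw [← map_sl_mul, hE]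
    have h2 : mev x (E.map (sl (ρ s)) * E.map (sl (ρ s))) =
        mev x (E.map (sl (ρ s))) * mev x (E.map (sl (ρ s))) :=
      map_mul ((Sm.ev x : Sm n →⋆ₐ[ℂ] ℂ) : Sm n →+* ℂ).mapMatrix _ _
    rw [h1] at h2
    exact h2.symm
  · intro i j
    exact hB i j _
  · intro i j
    have h1 := hL i j (σ s) (ρ s) x
    refine h1.trans (mul_le_mul_of_nonneg_left ?_ hL0)
    rw [abs_sub_comm]
    exact hd s
  · have h2 : (Fintype.card ι : ℝ) * ((Fintype.card ι : ℝ) * ((2 * B + 1) * (L * (1 / m)))) =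
        K / m := by
      rw [hK]; ring
    rw [h2, div_lt_one hm0]
    exact (le_max_left _ _).trans_lt hm

/-- **discrete parallel transport** -/
theorem transport (E : Matrix ι ι (Sm (n + 1))) (hE : E * E = E) (ρ : ℝ → ℝ)
    (hρ : ContDiff ℝ ∞ ρ) (hb : ∀ s, |ρ s| ≤ 1) :
    ∃ h : (Matrix ι ι (SmS n))ˣ, (∀ s, ρ s = 0 → evU s h = 1) ∧
      E.map (pull ρ hρ) * (h : Matrix ι ι (SmS n)) =
        (h : Matrix ι ι (SmS n)) * (E.map (sl 0)).map cS := by
  obtain ⟨m, hm, hstep⟩ := step_unit E hE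
  have hm0 : (0 : ℝ) < m := by exact_mod_cast hm
  have hc : ∀ j : ℕ, ContDiff ℝ ∞ (fun s => ((j : ℝ) / m) * ρ s) := fun j =>
    contDiff_const.mul hρ
  have key : ∀ j : ℕ, ∃ h : (Matrix ι ι (SmS n))ˣ, (∀ s, ρ s = 0 → evU s h = 1) ∧
      E.map (pull _ (hc j)) * (h : Matrix ι ι (SmS n)) =
        (h : Matrix ι ι (SmS n)) * (E.map (sl 0)).map cS := by
    intro j
    induction j with
    | zero =>
      refine ⟨1, fun s _ => map_one _, ?_⟩
      rw [Units.val_one, mul_one, one_mul]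
      ext1 i j
      apply Subtype.ext
      funext p
      simp only [Matrix.map_apply]
      change (E i j).1 (Fin.cons (((0 : ℕ) : ℝ) / m * ρ p.1) p.2) = (E i j).1 (Fin.cons 0 p.2)
      simp
    | succ j ih =>
      obtain ⟨h, h1, h2⟩ := ih
      have hu := hstep _ _ (hc (j + 1)) (hc j) (fun s => by
        have e : ((j + 1 : ℕ) : ℝ) / m * ρ s - (j : ℝ) / m * ρ s = (1 / m) * ρ s := by
          push_cast; ring
        rw [e, abs_mul, abs_of_pos (by positivity)]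
        exact mul_le_of_le_one_right (by positivity) (hb s))
      obtain ⟨u, hu'⟩ := hu
      refine ⟨u * h, fun s hs => ?_, ?_⟩
      · rw [map_mul, h1 s hs, mul_one]
        apply Units.ext
        change (u : Matrix ι ι (SmS n)).map (evS s) = 1
        rw [hu', map_evS_tw]
        have e1 : ∀ j : ℕ, (E.map (pull _ (hc j))).map (evS s) = E.map (sl 0) := by
          intro j
          ext1 a b
          apply Subtype.ext
          funext x
          simp only [Matrix.map_apply]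
          change (E a b).1 (Fin.cons ((j : ℝ) / m * ρ s) x) = (E a b).1 (Fin.cons 0 x)
          rw [hs, mul_zero]
        rw [e1, e1, tw_self]
        rw [← map_sl_mul, hE]
      · rw [Units.val_mul, ← mul_assoc, hu', tw_mul, mul_assoc, h2, mul_assoc]
        · rw [← map_pull_mul, hE]
        · rw [← map_pull_mul, hE]
  obtain ⟨h, h1, h2⟩ := key m
  refine ⟨h, h1, ?_⟩
  have e : E.map (pull _ (hc m)) = E.map (pull ρ hρ) := by
    ext1 a b
    apply Subtype.ext
    funext p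
    simp only [Matrix.map_apply]
    change (E a b).1 (Fin.cons ((m : ℝ) / m * ρ p.1) p.2) = (E a b).1 (Fin.cons (ρ p.1) p.2)
    rw [div_self hm0.ne', one_mul]
  rw [← e]
  exact h2

end Pool.Agent.PD4.IxB
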